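import Mathlib

/-!
# Right orders, bi-orders and relatively convex subgroups

Positive cones, relatively convex subgroups and their calculus.
-/

namespace Pool.Agent.Lib.MP_7217b8_al

universe u v

variable {G : Type u} [Group G] {H : Type v} [Group H]

/-- The positive cone of a right order. -/
structure IsCone (P : Set G) : Prop where
  mul : ∀ a ∈ P, ∀ b ∈ P, a * b ∈ P
  inv : ∀ a ∈ P, a⁻¹ ∉ P
  total : ∀ a, a ≠ 1 → a ∈ P ∨ a⁻¹ ∈ P

/-- The positive cone of a two-sided order. -/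
structure IsBiCone (P : Set G) : Prop extends IsCone P where
  conj : ∀ a ∈ P, ∀ g, g * a * g⁻¹ ∈ P

/-- All right orders on `G` are Conrad right orders (in terms of cones). -/
def AllConrad (G : Type u) [Group G] : Prop :=
  ∀ P : Set G, IsCone P → ∀ f g, f ∈ P → g * f⁻¹ ∈ P →
    ∃ m : ℕ, 0 < m ∧ f * g ^ m * f⁻¹ * g⁻¹ ∈ P

/-- `Q` is the set of elements above `C` for a preorder whose zero class is `C`. -/
structure RelCone (C : Subgroup G) (Q : Set G) : Prop where
  mul : ∀ a ∈ Q, ∀ b ∈ Q, a * b ∈ Q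
  mul_left : ∀ c ∈ C, ∀ a ∈ Q, c * a ∈ Q
  mul_right : ∀ c ∈ C, ∀ a ∈ Q, a * c ∈ Q
  inv : ∀ a ∈ Q, a⁻¹ ∉ Q
  total : ∀ a, a ∉ C → a ∈ Q ∨ a⁻¹ ∈ Q

/-- Relatively convex subgroups. -/
def RelConvex (C : Subgroup G) : Prop := ∃ Q, RelCone C Q

/-- Two-sided version. -/
structure BiRelCone (C : Subgroup G) (Q : Set G) : Prop extends RelCone C Q where
  conj : ∀ a ∈ Q, ∀ g, g * a * g⁻¹ ∈ Q

/-- Kernels of homomorphisms onto bi-orderable groups. -/
def BiRelConvex (C : Subgroup G) : Prop := ∃ Q, BiRelCone C Q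

theorem IsCone.one_notMem {P : Set G} (h : IsCone P) : (1 : G) ∉ P := fun h1 => by
  have := h.inv 1 h1
  simp at this
  exact this h1

theorem IsCone.pow_mem {P : Set G} (h : IsCone P) {a : G} (ha : a ∈ P) {n : ℕ} (hn : n ≠ 0) :
    a ^ n ∈ P := by
  induction n with
  | zero => exact absurd rfl hn
  | succ k ih =>
    rcases Nat.eq_zero_or_pos k with rfl | hk
    · simpa using ha
    · rw [pow_succ]
      exact h.mul _ (ih (by omega)) _ ha

theorem RelCone.notMem {C : Subgroup G} {Q : Set G} (h : RelCone C Q) {a : G} (ha : a ∈ Q) :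
    a ∉ C := by
  intro hc
  have h1 : (1 : G) ∈ Q := by
    have := h.mul_right a⁻¹ (C.inv_mem hc) a ha
    simpa using this
  have := h.inv 1 h1
  simp at this
  exact this h1

theorem RelCone.pow_mem {C : Subgroup G} {Q : Set G} (h : RelCone C Q) {a : G} (ha : a ∈ Q)
    {n : ℕ} (hn : n ≠ 0) : a ^ n ∈ Q := by
  induction n with
  | zero => exact absurd rfl hn
  | succ k ih =>
    rcases Nat.eq_zero_or_pos k with rfl | hk
    · simpa using ha
    · rw [pow_succ]
      exact h.mul _ (ih (by omega)) _ ha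

theorem RelConvex.isolated {C : Subgroup G} (h : RelConvex C) {a : G} {n : ℕ} (hn : n ≠ 0)
    (ha : a ^ n ∈ C) : a ∈ C := by
  obtain ⟨Q, hQ⟩ := h
  by_contra hc
  rcases hQ.total a hc with h1 | h1
  · exact hQ.notMem (hQ.pow_mem h1 hn) ha
  · have := hQ.notMem (hQ.pow_mem h1 hn)
    apply this
    rw [inv_pow]
    exact C.inv_mem ha

theorem IsCone.relCone {P : Set G} (h : IsCone P) : RelCone (⊥ : Subgroup G) P where
  mul := h.mul
  mul_left := by
    intro c hc a ha
    rw [Subgroup.mem_bot] at hc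
    simpa [hc] using ha
  mul_right := by
    intro c hc a ha
    rw [Subgroup.mem_bot] at hc
    simpa [hc] using ha
  inv := h.inv
  total := by
    intro a ha
    exact h.total a (fun h1 => ha (by simp [h1]))

theorem RelCone.isCone {P : Set G} (h : RelCone (⊥ : Subgroup G) P) : IsCone P where
  mul := h.mul
  inv := h.inv
  total := by
    intro a ha
    exact h.total a (fun h1 => ha (by simpa using h1))

theorem BiRelCone.isBiCone {P : Set G} (h : BiRelCone (⊥ : Subgroup G) P) : IsBiCone P where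
  toIsCone := h.toRelCone.isCone
  conj := h.conj

theorem IsBiCone.biRelCone {P : Set G} (h : IsBiCone P) : BiRelCone (⊥ : Subgroup G) P where
  toRelCone := h.toIsCone.relCone
  conj := h.conj

theorem relConvex_top : RelConvex (⊤ : Subgroup G) :=
  ⟨∅, by simp, by simp, by simp, by simp, by simp⟩

theorem biRelConvex_top : BiRelConvex (⊤ : Subgroup G) :=
  ⟨∅, ⟨by simp, by simp, by simp, by simp, by simp⟩, by simp⟩

theorem BiRelConvex.relConvex {C : Subgroup G} (h : BiRelConvex C) : RelConvex C := by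
  obtain ⟨Q, hQ⟩ := h
  exact ⟨Q, hQ.toRelCone⟩

theorem BiRelCone.normal {C : Subgroup G} {Q : Set G} (h : BiRelCone C Q) : C.Normal := by
  constructor
  intro n hn g
  by_contra hc
  rcases h.total _ hc with h1 | h1
  · have := h.conj _ h1 g⁻¹
    have h2 : g⁻¹ * (g * n * g⁻¹) * g⁻¹⁻¹ = n := by group
    rw [h2] at this
    exact h.toRelCone.notMem this hn
  · have := h.conj _ h1 g⁻¹
    have h2 : g⁻¹ * (g * n * g⁻¹)⁻¹ * g⁻¹⁻¹ = n⁻¹ := by group
    rw [h2] at this
    exact h.toRelCone.notMem this (C.inv_mem hn)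

theorem BiRelConvex.normal {C : Subgroup G} (h : BiRelConvex C) : C.Normal := by
  obtain ⟨Q, hQ⟩ := h
  exact hQ.normal

/-! ### Preimages and images -/

theorem RelCone.comap {C : Subgroup G} {Q : Set G} (h : RelCone C Q) (φ : H →* G) :
    RelCone (C.comap φ) (φ ⁻¹' Q) where
  mul := by
    intro a ha b hb
    simp only [Set.mem_preimage, map_mul] at *
    exact h.mul _ ha _ hb
  mul_left := by
    intro c hc a ha
    simp only [Set.mem_preimage, map_mul, Subgroup.mem_comap] at *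
    exact h.mul_left _ hc _ ha
  mul_right := by
    intro c hc a ha
    simp only [Set.mem_preimage, map_mul, Subgroup.mem_comap] at *
    exact h.mul_right _ hc _ ha
  inv := by
    intro a ha
    simp only [Set.mem_preimage, map_inv] at *
    exact h.inv _ ha
  total := by
    intro a ha
    simp only [Set.mem_preimage, map_inv, Subgroup.mem_comap] at *
    exact h.total _ ha

theorem RelConvex.comap {C : Subgroup G} (h : RelConvex C) (φ : H →* G) :
    RelConvex (C.comap φ) := by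
  obtain ⟨Q, hQ⟩ := h
  exact ⟨_, hQ.comap φ⟩

theorem BiRelCone.comap {C : Subgroup G} {Q : Set G} (h : BiRelCone C Q) (φ : H →* G) :
    BiRelCone (C.comap φ) (φ ⁻¹' Q) where
  toRelCone := h.toRelCone.comap φ
  conj := by
    intro a ha g
    simp only [Set.mem_preimage, map_mul, map_inv] at *
    exact h.conj _ ha _

theorem BiRelConvex.comap {C : Subgroup G} (h : BiRelConvex C) (φ : H →* G) :
    BiRelConvex (C.comap φ) := by
  obtain ⟨Q, hQ⟩ := h
  exact ⟨_, hQ.comap φ⟩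

theorem RelCone.mem_of_map {C : Subgroup G} {Q : Set G} (h : RelCone C Q) (φ : G →* H)
    (hk : φ.ker ≤ C) {a : G} (ha : φ a ∈ φ '' Q) : a ∈ Q := by
  obtain ⟨q, hq, e⟩ := ha
  have h1 : q⁻¹ * a ∈ φ.ker := by
    rw [MonoidHom.mem_ker, map_mul, map_inv, e]
    simp
  have := h.mul_right _ (hk h1) _ hq
  simpa using this

theorem RelCone.map {C : Subgroup G} {Q : Set G} (h : RelCone C Q) (φ : G →* H)
    (hφ : Function.Surjective φ) (hk : φ.ker ≤ C) :
    RelCone (C.map φ) (φ '' Q) where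
  mul := by
    rintro _ ⟨a, ha, rfl⟩ _ ⟨b, hb, rfl⟩
    exact ⟨a * b, h.mul _ ha _ hb, map_mul _ _ _⟩
  mul_left := by
    rintro _ ⟨c, hc, rfl⟩ _ ⟨b, hb, rfl⟩
    exact ⟨c * b, h.mul_left _ hc _ hb, map_mul _ _ _⟩
  mul_right := by
    rintro _ ⟨c, hc, rfl⟩ _ ⟨b, hb, rfl⟩
    exact ⟨b * c, h.mul_right _ hc _ hb, map_mul _ _ _⟩
  inv := by
    rintro _ ⟨a, ha, rfl⟩ h1
    rw [← map_inv] at h1
    exact h.inv _ ha (h.mem_of_map φ hk h1)
  total := by
    intro b hb
    obtain ⟨a, rfl⟩ := hφ b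
    have ha : a ∉ C := fun h1 => hb ⟨a, h1, rfl⟩
    rcases h.total a ha with h1 | h1
    · exact Or.inl ⟨a, h1, rfl⟩
    · exact Or.inr ⟨a⁻¹, h1, map_inv _ _⟩

theorem RelConvex.map {C : Subgroup G} (h : RelConvex C) (φ : G →* H)
    (hφ : Function.Surjective φ) (hk : φ.ker ≤ C) : RelConvex (C.map φ) := by
  obtain ⟨Q, hQ⟩ := h
  exact ⟨_, hQ.map φ hφ hk⟩

theorem BiRelCone.map {C : Subgroup G} {Q : Set G} (h : BiRelCone C Q) (φ : G →* H)
    (hφ : Function.Surjective φ) (hk : φ.ker ≤ C) :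
    BiRelCone (C.map φ) (φ '' Q) where
  toRelCone := h.toRelCone.map φ hφ hk
  conj := by
    rintro _ ⟨a, ha, rfl⟩ g
    obtain ⟨g, rfl⟩ := hφ g
    exact ⟨g * a * g⁻¹, h.conj _ ha _, by simp⟩

theorem BiRelConvex.map {C : Subgroup G} (h : BiRelConvex C) (φ : G →* H)
    (hφ : Function.Surjective φ) (hk : φ.ker ≤ C) : BiRelConvex (C.map φ) := by
  obtain ⟨Q, hQ⟩ := h
  exact ⟨_, hQ.map φ hφ hk⟩

theorem map_mk_self (N : Subgroup G) [N.Normal] : N.map (QuotientGroup.mk' N) = ⊥ := by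
  ext x
  constructor
  · rintro ⟨y, hy, rfl⟩
    rw [Subgroup.mem_bot]
    exact (QuotientGroup.eq_one_iff y).2 hy
  · intro hx
    rw [Subgroup.mem_bot] at hx
    exact ⟨1, N.one_mem, by simp [hx]⟩

theorem BiRelConvex.exists_quotient {N : Subgroup G} [N.Normal] (h : BiRelConvex N) :
    ∃ P : Set (G ⧸ N), IsBiCone P := by
  have := h.map (QuotientGroup.mk' N) (QuotientGroup.mk'_surjective N)
    (by rw [QuotientGroup.ker_mk'])
  rw [map_mk_self] at this
  obtain ⟨P, hP⟩ := this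
  exact ⟨P, hP.isBiCone⟩

theorem RelConvex.exists_quotient {N : Subgroup G} [N.Normal] (h : RelConvex N) :
    ∃ P : Set (G ⧸ N), IsCone P := by
  have := h.map (QuotientGroup.mk' N) (QuotientGroup.mk'_surjective N)
    (by rw [QuotientGroup.ker_mk'])
  rw [map_mk_self] at this
  obtain ⟨P, hP⟩ := this
  exact ⟨P, hP.isCone⟩

theorem comap_mk_bot (N : Subgroup G) [N.Normal] :
    (⊥ : Subgroup (G ⧸ N)).comap (QuotientGroup.mk' N) = N := by
  rw [MonoidHom.comap_bot, QuotientGroup.ker_mk']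

theorem BiRelConvex.of_quotient {N : Subgroup G} [N.Normal] {P : Set (G ⧸ N)}
    (h : IsBiCone P) : BiRelConvex N := by
  have := BiRelConvex.comap ⟨_, h.biRelCone⟩ (QuotientGroup.mk' N)
  rwa [comap_mk_bot] at this

theorem RelConvex.of_quotient {N : Subgroup G} [N.Normal] {P : Set (G ⧸ N)}
    (h : IsCone P) : RelConvex N := by
  have := RelConvex.comap ⟨_, h.relCone⟩ (QuotientGroup.mk' N)
  rwa [comap_mk_bot] at this

/-! ### Refinement -/

theorem RelCone.union {C D : Subgroup G} {Q Q' : Set G} (h : RelCone D Q) (hCD : C ≤ D)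
    (hQ' : Q' ⊆ D) (hmul : ∀ a ∈ Q', ∀ b ∈ Q', a * b ∈ Q')
    (hl : ∀ c ∈ C, ∀ a ∈ Q', c * a ∈ Q') (hr : ∀ c ∈ C, ∀ a ∈ Q', a * c ∈ Q')
    (hi : ∀ a ∈ Q', a⁻¹ ∉ Q') (ht : ∀ a ∈ D, a ∉ C → a ∈ Q' ∨ a⁻¹ ∈ Q') :
    RelCone C (Q ∪ Q') where
  mul := by
    rintro a (ha | ha) b (hb | hb)
    · exact Or.inl (h.mul _ ha _ hb)
    · exact Or.inl (h.mul_right _ (hQ' hb) _ ha)
    · exact Or.inl (h.mul_left _ (hQ' ha) _ hb)
    · exact Or.inr (hmul _ ha _ hb)
  mul_left := by
    rintro c hc a (ha | ha)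
    · exact Or.inl (h.mul_left _ (hCD hc) _ ha)
    · exact Or.inr (hl _ hc _ ha)
  mul_right := by
    rintro c hc a (ha | ha)
    · exact Or.inl (h.mul_right _ (hCD hc) _ ha)
    · exact Or.inr (hr _ hc _ ha)
  inv := by
    rintro a (ha | ha) (hb | hb)
    · exact h.inv _ ha hb
    · exact h.notMem ha (by simpa using D.inv_mem (hQ' hb))
    · exact h.notMem hb (D.inv_mem (hQ' ha))
    · exact hi _ ha hb
  total := by
    intro a ha
    by_cases hD : a ∈ D
    · rcases ht a hD ha with h1 | h1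
      · exact Or.inl (Or.inr h1)
      · exact Or.inr (Or.inr h1)
    · rcases h.total a hD with h1 | h1
      · exact Or.inl (Or.inl h1)
      · exact Or.inr (Or.inl h1)

theorem RelConvex.trans {C D : Subgroup G} (hD : RelConvex D) (hCD : C ≤ D)
    (hC : RelConvex (C.subgroupOf D)) : RelConvex C := by
  obtain ⟨Q, hQ⟩ := hD
  obtain ⟨Q', hQ'⟩ := hC
  refine ⟨Q ∪ (Subtype.val '' Q'), hQ.union hCD ?_ ?_ ?_ ?_ ?_ ?_⟩
  · rintro _ ⟨a, _, rfl⟩
    exact a.2
  · rintro _ ⟨a, ha, rfl⟩ _ ⟨b, hb, rfl⟩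
    exact ⟨a * b, hQ'.mul _ ha _ hb, rfl⟩
  · rintro c hc _ ⟨a, ha, rfl⟩
    exact ⟨⟨c, hCD hc⟩ * a, hQ'.mul_left _ (by simpa [Subgroup.mem_subgroupOf] using hc) _ ha, rfl⟩
  · rintro c hc _ ⟨a, ha, rfl⟩
    exact ⟨a * ⟨c, hCD hc⟩, hQ'.mul_right _ (by simpa [Subgroup.mem_subgroupOf] using hc) _ ha, rfl⟩
  · rintro _ ⟨a, ha, rfl⟩ ⟨b, hb, e⟩
    have : b = a⁻¹ := Subtype.ext (by simpa using e)
    rw [this] at hb
    exact hQ'.inv _ ha hb
  · intro a haD haC
    rcases hQ'.total ⟨a, haD⟩ (by simpa [Subgroup.mem_subgroupOf] using haC) with h1 | h1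
    · exact Or.inl ⟨_, h1, rfl⟩
    · exact Or.inr ⟨_, h1, rfl⟩

/-- A cone on `C` and a relative cone above `C` give a cone on `G`. -/
theorem RelCone.cone_union {C : Subgroup G} {Q : Set G} (h : RelCone C Q) {P : Set C}
    (hP : IsCone P) : IsCone (Q ∪ (Subtype.val '' P)) := by
  apply RelCone.isCone
  apply h.union bot_le
  · rintro _ ⟨a, _, rfl⟩
    exact a.2
  · rintro _ ⟨a, ha, rfl⟩ _ ⟨b, hb, rfl⟩
    exact ⟨a * b, hP.mul _ ha _ hb, rfl⟩
  · rintro c hc _ ⟨a, ha, rfl⟩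
    rw [Subgroup.mem_bot] at hc
    exact ⟨a, ha, by simp [hc]⟩
  · rintro c hc _ ⟨a, ha, rfl⟩
    rw [Subgroup.mem_bot] at hc
    exact ⟨a, ha, by simp [hc]⟩
  · rintro _ ⟨a, ha, rfl⟩ ⟨b, hb, e⟩
    have : b = a⁻¹ := Subtype.ext (by simpa using e)
    rw [this] at hb
    exact hP.inv _ ha hb
  · intro a haD haC
    rcases hP.total ⟨a, haD⟩ (fun h1 => haC (by
      rw [Subgroup.mem_bot]
      exact congrArg Subtype.val h1)) with h1 | h1
    · exact Or.inl ⟨_, h1, rfl⟩
    · exact Or.inr ⟨_, h1, rfl⟩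

theorem IsCone.restrict {P : Set G} (hP : IsCone P) (C : Subgroup G) :
    IsCone (Subtype.val ⁻¹' P : Set C) where
  mul := by
    intro a ha b hb
    exact hP.mul _ ha _ hb
  inv := by
    intro a ha
    exact hP.inv _ ha
  total := by
    intro a ha
    exact hP.total _ (fun h1 => ha (Subtype.ext h1))

theorem IsBiCone.restrict {P : Set G} (hP : IsBiCone P) (C : Subgroup G) :
    IsBiCone (Subtype.val ⁻¹' P : Set C) where
  toIsCone := hP.toIsCone.restrict C
  conj := by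
    intro a ha g
    exact hP.conj _ ha _

/-! ### Intersections -/

section inter

variable {ι : Type*} (C : ι → Subgroup G) (Q : ι → Set G)

/-- lexicographic cone -/
def lexCone : Set G := {g | ∃ i, g ∈ Q i ∧ ∀ j, WellOrderingRel j i → g ∈ C j}

theorem exists_first {g : G} (hg : g ∉ ⨅ i, C i) :
    ∃ i, g ∉ C i ∧ ∀ j, WellOrderingRel j i → g ∈ C j := by
  have hne : {i | g ∉ C i}.Nonempty := by
    by_contra h
    rw [Set.not_nonempty_iff_eq_empty] at h
    apply hg
    rw [Subgroup.mem_iInf]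
    intro i
    by_contra h2
    have : i ∈ {i | g ∉ C i} := h2
    rw [h] at this
    exact this
  have wf : WellFounded (WellOrderingRel (α := ι)) := WellOrderingRel.isWellOrder.wf
  refine ⟨wf.min _ hne, wf.min_mem _ hne, ?_⟩
  intro j hj
  by_contra h2
  exact wf.not_lt_min _ h2 hj

theorem lex_aux {i k : ι} : WellOrderingRel i k ∨ i = k ∨ WellOrderingRel k i :=
  trichotomous_of WellOrderingRel i k

theorem relCone_iInf (h : ∀ i, RelCone (C i) (Q i)) : RelCone (⨅ i, C i) (lexCone C Q) where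
  mul := by
    rintro a ⟨i, hai, ha⟩ b ⟨k, hbk, hb⟩
    rcases lex_aux (i := i) (k := k) with h1 | rfl | h1
    · refine ⟨i, (h i).mul_right _ (hb _ h1) _ hai, fun j hj => ?_⟩
      exact (C j).mul_mem (ha _ hj) (hb _ (_root_.trans hj h1))
    · exact ⟨i, (h i).mul _ hai _ hbk, fun j hj => (C j).mul_mem (ha _ hj) (hb _ hj)⟩
    · refine ⟨k, (h k).mul_left _ (ha _ h1) _ hbk, fun j hj => ?_⟩
      exact (C j).mul_mem (ha _ (_root_.trans hj h1)) (hb _ hj)
  mul_left := by
    rintro c hc a ⟨i, hai, ha⟩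
    rw [Subgroup.mem_iInf] at hc
    exact ⟨i, (h i).mul_left _ (hc i) _ hai, fun j hj => (C j).mul_mem (hc j) (ha _ hj)⟩
  mul_right := by
    rintro c hc a ⟨i, hai, ha⟩
    rw [Subgroup.mem_iInf] at hc
    exact ⟨i, (h i).mul_right _ (hc i) _ hai, fun j hj => (C j).mul_mem (ha _ hj) (hc j)⟩
  inv := by
    rintro a ⟨i, hai, ha⟩ ⟨k, hbk, hb⟩
    rcases lex_aux (i := i) (k := k) with h1 | rfl | h1
    · exact (h i).notMem hai (by simpa using hb _ h1)
    · exact (h i).inv _ hai hbk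
    · exact (h k).notMem hbk ((C k).inv_mem (ha _ h1))
  total := by
    intro a ha
    obtain ⟨i, hi, hlt⟩ := exists_first C ha
    rcases (h i).total a hi with h1 | h1
    · exact Or.inl ⟨i, h1, hlt⟩
    · exact Or.inr ⟨i, h1, fun j hj => (C j).inv_mem (hlt _ hj)⟩

theorem relConvex_iInf {C : ι → Subgroup G} (h : ∀ i, RelConvex (C i)) :
    RelConvex (⨅ i, C i) := by
  choose Q hQ using h
  exact ⟨_, relCone_iInf C Q hQ⟩

theorem biRelConvex_iInf {C : ι → Subgroup G} (h : ∀ i, BiRelConvex (C i)) :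
    BiRelConvex (⨅ i, C i) := by
  choose Q hQ using h
  refine ⟨lexCone C Q, relCone_iInf C Q (fun i => (hQ i).toRelCone), ?_⟩
  rintro a ⟨i, hai, ha⟩ g
  exact ⟨i, (hQ i).conj _ hai _, fun j hj => (hQ j).normal.conj_mem _ (ha _ hj) _⟩

end inter

theorem relConvex_sInf {𝒮 : Set (Subgroup G)} (h : ∀ C ∈ 𝒮, RelConvex C) :
    RelConvex (sInf 𝒮) := by
  rw [sInf_eq_iInf']
  exact relConvex_iInf (fun C => h C.1 C.2)

theorem biRelConvex_sInf {𝒮 : Set (Subgroup G)} (h : ∀ C ∈ 𝒮, BiRelConvex C) :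
    BiRelConvex (sInf 𝒮) := by
  rw [sInf_eq_iInf']
  exact biRelConvex_iInf (fun C => h C.1 C.2)

theorem relConvex_inf {C D : Subgroup G} (hC : RelConvex C) (hD : RelConvex D) :
    RelConvex (C ⊓ D) := by
  rw [← sInf_pair]
  apply relConvex_sInf
  rintro E (rfl | rfl)
  · exact hC
  · exact hD

/-! ### Relatively convex closure -/

/-- The smallest relatively convex subgroup containing `S`. -/
def rc (S : Set G) : Subgroup G := sInf {C | RelConvex C ∧ S ⊆ C}

theorem relConvex_rc (S : Set G) : RelConvex (rc S) := relConvex_sInf (fun _ h => h.1)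

theorem subset_rc (S : Set G) : S ⊆ rc S := by
  intro x hx
  show x ∈ rc S
  rw [rc, Subgroup.mem_sInf]
  intro C hC
  exact hC.2 hx

theorem rc_le {S : Set G} {C : Subgroup G} (h : RelConvex C) (hS : S ⊆ C) : rc S ≤ C :=
  sInf_le ⟨h, hS⟩

/-- `S` generates `G` as a relatively convex subgroup. -/
def RCGen (S : Set G) : Prop := ∀ C : Subgroup G, RelConvex C → S ⊆ C → C = ⊤

theorem rcGen_rc (S : Set G) : RCGen (Subtype.val ⁻¹' S : Set (rc S)) := by
  intro C hC hS
  have h1 : RelConvex (C.map (rc S).subtype) := by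
    apply (relConvex_rc S).trans
    · rintro _ ⟨x, _, rfl⟩
      exact x.2
    · have : (C.map (rc S).subtype).subgroupOf (rc S) = C := by
        ext x
        simp [Subgroup.mem_subgroupOf]
      rw [this]
      exact hC
  have h2 : rc S ≤ C.map (rc S).subtype := by
    apply rc_le h1
    intro x hx
    exact ⟨⟨x, subset_rc S hx⟩, hS hx, rfl⟩
  rw [eq_top_iff]
  intro x _
  obtain ⟨y, hy, e⟩ := h2 x.2
  have : y = x := Subtype.ext e
  rwa [this] at hy

theorem RCGen.map {S : Set G} (h : RCGen S) {φ : G →* H} (hφ : Function.Surjective φ) :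
    RCGen (φ '' S) := by
  intro C hC hS
  have h1 : C.comap φ = ⊤ := h _ (hC.comap φ) (fun x hx => hS ⟨x, hx, rfl⟩)
  rw [eq_top_iff]
  intro y _
  obtain ⟨x, rfl⟩ := hφ y
  have : x ∈ C.comap φ := by rw [h1]; trivial
  exact this

theorem RCGen.mono {S T : Set G} (h : RCGen S) (hST : S ⊆ T) : RCGen T :=
  fun C hC hT => h C hC (hST.trans hT)

/-! ### Centralizers -/

theorem IsBiCone.mul_comm_mem {P : Set G} (h : IsBiCone P) {a b : G} (hab : a * b ∈ P) :
    b * a ∈ P := by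
  have := h.conj _ hab a⁻¹
  have e : a⁻¹ * (a * b) * a⁻¹⁻¹ = b * a := by group
  rwa [e] at this

theorem relCone_centralizer {P : Set G} (h : IsBiCone P) (x : G) :
    RelCone (Subgroup.centralizer {x}) {g | g * x * g⁻¹ * x⁻¹ ∈ P} := by
  have key : ∀ c ∈ Subgroup.centralizer {x}, c * x * c⁻¹ = x := by
    intro c hc
    rw [Subgroup.mem_centralizer_singleton_iff] at hc
    rw [hc]
    group
  refine ⟨?_, ?_, ?_, ?_, ?_⟩
  · intro a ha b hb
    simp only [Set.mem_ofPred_eq] at *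
    have h1 := h.mul _ (h.conj _ hb a) _ ha
    have e : a * (b * x * b⁻¹ * x⁻¹) * a⁻¹ * (a * x * a⁻¹ * x⁻¹)
      = a * b * x * (a * b)⁻¹ * x⁻¹ := by group
    rwa [e] at h1
  · intro c hc a ha
    simp only [Set.mem_ofPred_eq] at *
    have h1 := h.conj _ ha c
    have e : c * (a * x * a⁻¹ * x⁻¹) * c⁻¹ = c * a * x * (c * a)⁻¹ * (c * x * c⁻¹)⁻¹ := by group
    rw [e, key c hc] at h1
    exact h1
  · intro c hc a ha
    simp only [Set.mem_ofPred_eq] at *
    have e : a * c * x * (a * c)⁻¹ * x⁻¹ = a * (c * x * c⁻¹) * a⁻¹ * x⁻¹ := by group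
    rw [e, key c hc]
    exact ha
  · intro a ha hb
    simp only [Set.mem_ofPred_eq] at *
    have h1 := h.conj _ hb a
    have e : a * (a⁻¹ * x * a⁻¹⁻¹ * x⁻¹) * a⁻¹ = (a * x * a⁻¹ * x⁻¹)⁻¹ := by group
    rw [e] at h1
    exact h.inv _ ha h1
  · intro a ha
    simp only [Set.mem_ofPred_eq] at *
    have hne : a * x * a⁻¹ * x⁻¹ ≠ 1 := by
      intro h1
      apply ha
      rw [Subgroup.mem_centralizer_singleton_iff]
      have h2 : a * x * a⁻¹ = x := mul_inv_eq_one.1 h1
      calc a * x = (a * x * a⁻¹) * a := by group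
        _ = x * a := by rw [h2]
    rcases h.total _ hne with h1 | h1
    · exact Or.inl h1
    · right
      have h2 := h.conj _ h1 a⁻¹
      have e : a⁻¹ * (a * x * a⁻¹ * x⁻¹)⁻¹ * a⁻¹⁻¹ = a⁻¹ * x * a⁻¹⁻¹ * x⁻¹ := by group
      rwa [e] at h2

theorem relConvex_centralizer {P : Set G} (h : IsBiCone P) (S : Set G) :
    RelConvex (Subgroup.centralizer S) := by
  have : Subgroup.centralizer S = ⨅ x : S, Subgroup.centralizer {(x : G)} := by
    ext g
    rw [Subgroup.mem_iInf, Subgroup.mem_centralizer_iff]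
    constructor
    · intro hg x
      rw [Subgroup.mem_centralizer_singleton_iff]
      exact (hg x x.2).symm
    · intro hg x hx
      have := hg ⟨x, hx⟩
      rw [Subgroup.mem_centralizer_singleton_iff] at this
      exact this.symm
  rw [this]
  exact relConvex_iInf (fun x => ⟨_, relCone_centralizer h x⟩)

theorem relConvex_center {P : Set G} (h : IsBiCone P) : RelConvex (Subgroup.center G) := by
  rw [← Subgroup.centralizer_univ]
  exact relConvex_centralizer h _

/-! ### The class -/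

/-- The class of bi-orderable groups all of whose right orders are Conrad. -/
structure InX (G : Type u) [Group G] : Prop where
  bi : ∃ P : Set G, IsBiCone P
  conrad : AllConrad G

theorem InX.sub (h : InX G) {C : Subgroup G} (hC : RelConvex C) : InX C := by
  obtain ⟨P, hP⟩ := h.bi
  refine ⟨⟨_, hP.restrict C⟩, ?_⟩
  intro R hR f g hf hg
  obtain ⟨Q, hQ⟩ := hC
  obtain ⟨m, hm, h1⟩ := h.conrad _ (hQ.cone_union hR) f g (Or.inr ⟨f, hf, rfl⟩)
    (Or.inr ⟨_, hg, rfl⟩)
  refine ⟨m, hm, ?_⟩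
  rcases h1 with h1 | h1
  · exact absurd (f * g ^ m * f⁻¹ * g⁻¹).2 (hQ.notMem h1)
  · obtain ⟨x, hx, e⟩ := h1
    have : x = f * g ^ m * f⁻¹ * g⁻¹ := Subtype.ext (by simpa using e)
    rwa [this] at hx

theorem allConrad_quotient (h : AllConrad G) {N : Subgroup G} [N.Normal]
    (hN : ∃ P : Set N, IsCone P) : AllConrad (G ⧸ N) := by
  intro R hR f g hf hg
  obtain ⟨P, hP⟩ := hN
  obtain ⟨f, rfl⟩ := QuotientGroup.mk'_surjective N f
  obtain ⟨g, rfl⟩ := QuotientGroup.mk'_surjective N g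
  have hrel := hR.relCone.comap (QuotientGroup.mk' N)
  rw [comap_mk_bot] at hrel
  obtain ⟨m, hm, h1⟩ := h _ (hrel.cone_union hP) f g (Or.inl hf) (Or.inl hg)
  rcases h1 with h1 | ⟨x, hx, e⟩
  · exact ⟨m, hm, h1⟩
  · set F := QuotientGroup.mk' N f with hF
    set K := QuotientGroup.mk' N g with hK
    have e1 : F * K ^ m * F⁻¹ * K⁻¹ = 1 := by
      have : QuotientGroup.mk' N (f * g ^ m * f⁻¹ * g⁻¹) = 1 := by
        rw [← e]
        exact (QuotientGroup.eq_one_iff _).2 x.2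
      simpa [map_mul, map_inv, map_pow, ← hF, ← hK] using this
    have e2 : F * K ^ m * F⁻¹ = K := mul_inv_eq_one.1 e1
    have e3 : (F * K * F⁻¹) ^ m = K := by rw [conj_pow, e2]
    have hKR : K ∈ R := by
      have : K * F⁻¹ * F ∈ R := hR.mul _ hg _ hf
      simpa using this
    have hy : F * K * F⁻¹ ∈ R := by
      by_cases hy1 : F * K * F⁻¹ = 1
      · rw [hy1, one_pow] at e3
        rw [← e3] at hKR
        exact absurd hKR hR.one_notMem
      · rcases hR.total _ hy1 with h2 | h2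
        · exact h2
        · exfalso
          have h3 := hR.pow_mem h2 (n := m) (by omega)
          rw [inv_pow, e3] at h3
          exact hR.inv _ hKR h3
    refine ⟨m + 1, by omega, ?_⟩
    have e4 : F * K ^ (m + 1) * F⁻¹ * K⁻¹ = F * K * F⁻¹ := by
      have hc : K * (F * K * F⁻¹) = (F * K * F⁻¹) * K := by
        have h5 : Commute ((F * K * F⁻¹) ^ m) (F * K * F⁻¹) := (Commute.refl _).pow_left m
        rw [e3] at h5
        exact h5
      calc F * K ^ (m + 1) * F⁻¹ * K⁻¹ = (F * K ^ m * F⁻¹) * (F * K * F⁻¹) * K⁻¹ := by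
            rw [pow_succ]; group
        _ = K * (F * K * F⁻¹) * K⁻¹ := by rw [e2]
        _ = F * K * F⁻¹ := by rw [hc]; group
    rw [e4]
    exact hy

theorem InX.quot (h : InX G) {N : Subgroup G} [N.Normal] (hN : BiRelConvex N) :
    InX (G ⧸ N) := by
  obtain ⟨P, hP⟩ := h.bi
  exact ⟨hN.exists_quotient, allConrad_quotient h.conrad ⟨_, hP.toIsCone.restrict N⟩⟩

end Pool.Agent.Lib.MP_7217b8_al
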