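import Pool.Agent.Lib.MP_7217b8_al_h23.Basic

/-!
# Total cones on abelian groups with operators
-/

set_option linter.style.haveILetI false

namespace Pool.Agent.Lib.MP_7217b8_al

universe u v

theorem end_add {V : Type u} [AddCommGroup V] (p q : AddMonoid.End V) (x : V) :
    (p + q) x = p x + q x := rfl

/-- admissible partial cones -/
structure PCone {V : Type u} [AddCommGroup V] (Λ : Set (AddMonoid.End V)) (Q : Set V) :
    Prop where
  add : ∀ a ∈ Q, ∀ b ∈ Q, a + b ∈ Q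
  act : ∀ p ∈ Λ, ∀ a ∈ Q, p a ∈ Q
  ne : ∀ a ∈ Q, ∀ p ∈ Λ, p a ≠ 0

theorem exists_total_cone {V : Type u} [AddCommGroup V] (Λ : Set (AddMonoid.End V))
    (h1 : 1 ∈ Λ) (hadd : ∀ p ∈ Λ, ∀ q ∈ Λ, p + q ∈ Λ) (hmul : ∀ p ∈ Λ, ∀ q ∈ Λ, p * q ∈ Λ)
    (hcomm : ∀ p ∈ Λ, ∀ q ∈ Λ, p * q = q * p) :
    ∃ Q : Set V, PCone Λ Q ∧ ∀ v, v ∈ Q ∨ -v ∈ Q ∨ ∃ p ∈ Λ, p v = 0 := by
  obtain ⟨Q, hQ⟩ := zorn_subset {Q : Set V | PCone Λ Q} (by
    intro c hc hchain
    by_cases hne : c.Nonempty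
    · refine ⟨⋃₀ c, ?_, fun s hs => Set.subset_sUnion_of_mem hs⟩
      refine ⟨?_, ?_, ?_⟩
      · rintro a ⟨s, hs, ha⟩ b ⟨t, ht, hb⟩
        rcases hchain.total hs ht with h | h
        · exact ⟨t, ht, (hc ht).add _ (h ha) _ hb⟩
        · exact ⟨s, hs, (hc hs).add _ ha _ (h hb)⟩
      · rintro p hp a ⟨s, hs, ha⟩
        exact ⟨s, hs, (hc hs).act _ hp _ ha⟩
      · rintro a ⟨s, hs, ha⟩ p hp
        exact (hc hs).ne _ ha _ hp
    · refine ⟨∅, ⟨by simp, by simp, by simp⟩, ?_⟩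
      intro s hs
      exact absurd ⟨s, hs⟩ hne)
  have hQP : PCone Λ Q := hQ.prop
  refine ⟨Q, hQP, ?_⟩
  -- one element
  have key : ∀ m : V, (∀ p ∈ Λ, p m ≠ 0) → m ∉ Q → ∃ p ∈ Λ, -(p m) ∈ Q := by
    intro m hm hmQ
    by_contra hcon
    push Not at hcon
    set Q' : Set V := Q ∪ {x | ∃ p ∈ Λ, x = p m ∨ ∃ q ∈ Q, x = q + p m} with hQ'
    have hPC : PCone Λ Q' := by
      refine ⟨?_, ?_, ?_⟩
      · rintro a (ha | ⟨p, hp, rfl | ⟨q, hq, rfl⟩⟩) b (hb | ⟨p', hp', rfl | ⟨q', hq', rfl⟩⟩)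
        · exact Or.inl (hQP.add _ ha _ hb)
        · exact Or.inr ⟨p', hp', Or.inr ⟨a, ha, rfl⟩⟩
        · exact Or.inr ⟨p', hp', Or.inr ⟨a + q', hQP.add _ ha _ hq', by abel⟩⟩
        · exact Or.inr ⟨p, hp, Or.inr ⟨b, hb, by abel⟩⟩
        · exact Or.inr ⟨p + p', hadd _ hp _ hp', Or.inl rfl⟩
        · exact Or.inr ⟨p + p', hadd _ hp _ hp', Or.inr ⟨q', hq', by
            rw [end_add]; abel⟩⟩
        · exact Or.inr ⟨p, hp, Or.inr ⟨q + b, hQP.add _ hq _ hb, by abel⟩⟩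
        · exact Or.inr ⟨p + p', hadd _ hp _ hp', Or.inr ⟨q, hq, by
            rw [end_add]; abel⟩⟩
        · exact Or.inr ⟨p + p', hadd _ hp _ hp', Or.inr ⟨q + q', hQP.add _ hq _ hq', by
            rw [end_add]; abel⟩⟩
      · rintro r hr a (ha | ⟨p, hp, rfl | ⟨q, hq, rfl⟩⟩)
        · exact Or.inl (hQP.act _ hr _ ha)
        · exact Or.inr ⟨r * p, hmul _ hr _ hp, Or.inl rfl⟩
        · exact Or.inr ⟨r * p, hmul _ hr _ hp, Or.inr ⟨r q, hQP.act _ hr _ hq, by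
            rw [map_add]; rfl⟩⟩
      · rintro a (ha | ⟨p, hp, rfl | ⟨q, hq, rfl⟩⟩) r hr h0
        · exact hQP.ne _ ha _ hr h0
        · exact hm (r * p) (hmul _ hr _ hp) h0
        · rw [map_add] at h0
          apply hcon (r * p) (hmul _ hr _ hp)
          have e : -((r * p) m) = r q := by
            have : (r * p) m = r (p m) := rfl
            rw [this]
            exact (eq_neg_of_add_eq_zero_left h0).symm
          rw [e]
          exact hQP.act _ hr _ hq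
    have hsub : Q' ⊆ Q := hQ.le_of_ge hPC Set.subset_union_left
    exact hmQ (hsub (Or.inr ⟨1, h1, Or.inl rfl⟩))
  intro v
  by_contra hcon
  push Not at hcon
  obtain ⟨c1, c2, c3⟩ := hcon
  obtain ⟨p, hp, hpv⟩ := key v c3 c1
  obtain ⟨q, hq, hqv⟩ := key (-v) (fun p hp h0 => c3 p hp (by rw [map_neg] at h0; simpa using h0))
    c2
  rw [map_neg, neg_neg] at hqv
  have h2 := hQP.act _ hq _ hpv
  have h3 := hQP.act _ hp _ hqv
  have h4 := hQP.add _ h2 _ h3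
  have e : q (-(p v)) + p (q v) = 0 := by
    rw [map_neg]
    have : q (p v) = p (q v) := by
      have := congrArg (fun f : AddMonoid.End V => f v) (hcomm q hq p hp)
      exact this
    rw [this]
    abel
  rw [e] at h4
  exact hQP.ne _ h4 1 h1 rfl

section consequences

variable {V : Type u} [AddCommGroup V] {Λ : Set (AddMonoid.End V)} {Q : Set V}

theorem PCone.zero_notMem (h : PCone Λ Q) (h1 : 1 ∈ Λ) : (0 : V) ∉ Q :=
  fun h0 => h.ne _ h0 1 h1 rfl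

theorem PCone.neg_notMem (h : PCone Λ Q) (h1 : 1 ∈ Λ) {a : V} (ha : a ∈ Q) : -a ∉ Q := by
  intro hb
  have := h.add _ ha _ hb
  rw [add_neg_cancel] at this
  exact h.zero_notMem h1 this

/-- adding a torsion element does not change the sign -/
theorem PCone.add_torsion (h : PCone Λ Q)
    (hmul : ∀ p ∈ Λ, ∀ q ∈ Λ, p * q ∈ Λ)
    (hcomm : ∀ p ∈ Λ, ∀ q ∈ Λ, p * q = q * p)
    (ht : ∀ v, v ∈ Q ∨ -v ∈ Q ∨ ∃ p ∈ Λ, p v = 0) {a t : V} (ha : a ∈ Q)
    (hT : ∃ p ∈ Λ, p t = 0) : a + t ∈ Q := by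
  obtain ⟨p, hp, hpt⟩ := hT
  rcases ht (a + t) with h2 | h2 | ⟨q, hq, h2⟩
  · exact h2
  · exfalso
    have h3 := h.add _ h2 _ ha
    have e : -(a + t) + a = -t := by abel
    rw [e] at h3
    apply h.ne _ h3 p hp
    rw [map_neg, hpt, neg_zero]
  · exfalso
    apply h.ne _ ha (p * q) (hmul _ hp _ hq)
    have h3 : (p * q) (a + t) = 0 := by
      show p (q (a + t)) = 0
      rw [h2, map_zero]
    rw [map_add] at h3
    have h4 : (p * q) t = 0 := by
      rw [hcomm p hp q hq]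
      show q (p t) = 0
      rw [hpt, map_zero]
    rw [h4, add_zero] at h3
    exact h3

end consequences

/-- Torsion-free abelian groups are orderable. -/
theorem exists_biCone_of_comm {A : Type u} [Group A] (hc : ∀ x y : A, x * y = y * x)
    (htf : ∀ (x : A) (n : ℕ), n ≠ 0 → x ^ n = 1 → x = 1) : ∃ P : Set A, IsBiCone P := by
  letI : CommGroup A := { ‹Group A› with mul_comm := hc }
  let Λ : Set (AddMonoid.End (Additive A)) := {p | ∃ n : ℕ, n ≠ 0 ∧ ∀ x, p x = n • x}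
  obtain ⟨Q, hQ, ht⟩ := exists_total_cone Λ ⟨1, one_ne_zero, by intro x; simp⟩
    (by
      rintro p ⟨n, hn, hp⟩ q ⟨m, hm, hq⟩
      refine ⟨n + m, by omega, fun x => ?_⟩
      rw [end_add, hp, hq, add_nsmul])
    (by
      rintro p ⟨n, hn, hp⟩ q ⟨m, hm, hq⟩
      refine ⟨n * m, mul_ne_zero hn hm, fun x => ?_⟩
      show p (q x) = _
      rw [hp, hq, mul_nsmul'])
    (by
      rintro p ⟨n, hn, hp⟩ q ⟨m, hm, hq⟩
      ext x
      show p (q x) = q (p x)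
      rw [hp, hq, hp, hq, ← mul_nsmul', ← mul_nsmul', mul_comm])
  have h1 : (1 : AddMonoid.End (Additive A)) ∈ Λ := ⟨1, one_ne_zero, by intro x; simp⟩
  refine ⟨Additive.ofMul ⁻¹' Q, ⟨?_, ?_, ?_⟩, ?_⟩
  · intro a ha b hb
    exact hQ.add _ ha _ hb
  · intro a ha hb
    exact hQ.neg_notMem h1 ha hb
  · intro a ha
    rcases ht (Additive.ofMul a) with h2 | h2 | ⟨p, ⟨n, hn, hp⟩, h2⟩
    · exact Or.inl h2
    · exact Or.inr h2
    · exfalso
      rw [hp] at h2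
      exact ha (htf a n hn h2)
  · intro a ha g
    have : g * a * g⁻¹ = a := by rw [hc g a]; group
    rw [this]
    exact ha

/-- A normal subgroup with torsion-free abelian quotient. -/
theorem biRelConvex_of_abelian {G : Type u} [Group G] {N : Subgroup G} [N.Normal]
    (hc : ∀ x y : G, x * y * x⁻¹ * y⁻¹ ∈ N) (htf : ∀ (x : G) (n : ℕ), n ≠ 0 → x ^ n ∈ N → x ∈ N) :
    BiRelConvex N := by
  obtain ⟨P, hP⟩ := exists_biCone_of_comm (A := G ⧸ N) (by
    intro x y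
    obtain ⟨x, rfl⟩ := QuotientGroup.mk'_surjective N x
    obtain ⟨y, rfl⟩ := QuotientGroup.mk'_surjective N y
    have h1 : QuotientGroup.mk' N (x * y * x⁻¹ * y⁻¹) = 1 := (QuotientGroup.eq_one_iff _).2 (hc x y)
    rw [map_mul, map_mul, map_mul, map_inv, map_inv, mul_inv_eq_one, mul_inv_eq_iff_eq_mul] at h1
    exact h1) (by
    intro x n hn hx
    obtain ⟨x, rfl⟩ := QuotientGroup.mk'_surjective N x
    rw [← map_pow] at hx
    exact (QuotientGroup.eq_one_iff _).2 (htf x n hn ((QuotientGroup.eq_one_iff _).1 hx)))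
  exact BiRelConvex.of_quotient hP

end Pool.Agent.Lib.MP_7217b8_al
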