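import Pool.Agent.Lib.MP_7217b8_al_h23.Central
import Pool.Agent.Lib.MP_7217b8_al_h23.Zorn

/-!
# The quotient by the centre of a centrally ordered group is bi-orderable
-/

set_option linter.unusedSectionVars false

namespace Pool.Agent.Lib.MP_7217b8_al

universe u v

section basics

variable {G : Type u} [Group G]

/-- elements central modulo `C` -/
def HH (C : Subgroup G) (hn : C.Normal) : Subgroup G where
  carrier := {x | ∀ g, g * x * g⁻¹ * x⁻¹ ∈ C}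
  mul_mem' := by
    intro x y hx hy g
    have h1 := C.mul_mem (hx g) (hn.conj_mem _ (hy g) x)
    have e : g * x * g⁻¹ * x⁻¹ * (x * (g * y * g⁻¹ * y⁻¹) * x⁻¹) = g * (x * y) * g⁻¹ * (x * y)⁻¹ := by
      group
    rwa [e] at h1
  one_mem' := by
    intro g
    have e : g * 1 * g⁻¹ * 1⁻¹ = 1 := by group
    rw [e]
    exact C.one_mem
  inv_mem' := by
    intro x hx g
    have h1 := C.inv_mem (hn.conj_mem _ (hx g) x⁻¹)
    have e : (x⁻¹ * (g * x * g⁻¹ * x⁻¹) * x⁻¹⁻¹)⁻¹ = g * x⁻¹ * g⁻¹ * x⁻¹⁻¹ := by group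
    rwa [e] at h1

theorem mem_HH {C : Subgroup G} {hn : C.Normal} {x : G} :
    x ∈ HH C hn ↔ ∀ g, g * x * g⁻¹ * x⁻¹ ∈ C := Iff.rfl

theorem mk_comm {C : Subgroup G} (hn : C.Normal) {x : G} (hx : x ∈ HH C hn) (y : G) :
    Commute (QuotientGroup.mk (s := C) x) (QuotientGroup.mk (s := C) y) := by
  have h1 := hx y
  have h2 : QuotientGroup.mk' C (y * x * y⁻¹ * x⁻¹) = 1 := (QuotientGroup.eq_one_iff _).2 h1
  rw [map_mul, map_mul, map_mul, map_inv, map_inv, mul_inv_eq_one, mul_inv_eq_iff_eq_mul] at h2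
  exact h2.symm

/-- isolator of `Z(G) C` among the elements central modulo `C` -/
def KK (C : Subgroup G) (hn : C.Normal) : Subgroup G where
  carrier := {x | x ∈ HH C hn ∧ ∃ k : ℕ, k ≠ 0 ∧ ∃ z ∈ Subgroup.center G, x ^ k * z ∈ C}
  mul_mem' := by
    rintro x y ⟨hx, k, hk, z, hz, h1⟩ ⟨hy, l, hl, w, hw, h2⟩
    refine ⟨(HH C hn).mul_mem hx hy, k * l, mul_ne_zero hk hl, z ^ l * w ^ k,
      Subgroup.mul_mem _ (Subgroup.pow_mem _ hz _) (Subgroup.pow_mem _ hw _), ?_⟩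
    rw [← QuotientGroup.eq_one_iff] at h1 h2 ⊢
    have cz : ∀ a : G, Commute (QuotientGroup.mk (s := C) z) (QuotientGroup.mk (s := C) a) := by
      intro a
      have : z * a = a * z := ((Subgroup.mem_center_iff.1 hz) a).symm
      exact congrArg (QuotientGroup.mk (s := C)) this
    have cw : ∀ a : G, Commute (QuotientGroup.mk (s := C) w) (QuotientGroup.mk (s := C) a) := by
      intro a
      have : w * a = a * w := ((Subgroup.mem_center_iff.1 hw) a).symm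
      exact congrArg (QuotientGroup.mk (s := C)) this
    have e1 : QuotientGroup.mk (s := C) ((x * y) ^ (k * l) * (z ^ l * w ^ k))
        = (QuotientGroup.mk (s := C) x * QuotientGroup.mk (s := C) y) ^ (k * l)
          * (QuotientGroup.mk (s := C) z ^ l * QuotientGroup.mk (s := C) w ^ k) := rfl
    have h1' : QuotientGroup.mk (s := C) x ^ k * QuotientGroup.mk (s := C) z = 1 := h1
    have h2' : QuotientGroup.mk (s := C) y ^ l * QuotientGroup.mk (s := C) w = 1 := h2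
    rw [e1, (mk_comm hn hx y).mul_pow]
    have f1 : QuotientGroup.mk (s := C) x ^ (k * l) = (QuotientGroup.mk (s := C) z ^ l)⁻¹ := by
      rw [pow_mul, eq_inv_of_mul_eq_one_left h1', inv_pow]
    have f2 : QuotientGroup.mk (s := C) y ^ (k * l) = (QuotientGroup.mk (s := C) w ^ k)⁻¹ := by
      rw [mul_comm k l, pow_mul, eq_inv_of_mul_eq_one_left h2', inv_pow]
    rw [f1, f2]
    have c1 : Commute (QuotientGroup.mk (s := C) w ^ k) (QuotientGroup.mk (s := C) z ^ l) :=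
      ((cz w).pow_pow l k).symm
    have c2 := c1.inv_left
    calc (QuotientGroup.mk (s := C) z ^ l)⁻¹ * (QuotientGroup.mk (s := C) w ^ k)⁻¹
          * (QuotientGroup.mk (s := C) z ^ l * QuotientGroup.mk (s := C) w ^ k)
        = (QuotientGroup.mk (s := C) z ^ l)⁻¹ * ((QuotientGroup.mk (s := C) w ^ k)⁻¹
          * QuotientGroup.mk (s := C) z ^ l) * QuotientGroup.mk (s := C) w ^ k := by group
      _ = 1 := by rw [c2.eq]; group
  one_mem' := ⟨(HH C hn).one_mem, 1, one_ne_zero, 1, Subgroup.one_mem _, by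
    simpa using C.one_mem⟩
  inv_mem' := by
    rintro x ⟨hx, k, hk, z, hz, h1⟩
    refine ⟨(HH C hn).inv_mem hx, k, hk, z⁻¹, Subgroup.inv_mem _ hz, ?_⟩
    have h2 := C.inv_mem h1
    have cz := (Subgroup.mem_center_iff.1 (Subgroup.inv_mem _ hz)) (x⁻¹ ^ k)
    rw [cz]
    rw [mul_inv_rev] at h2
    rwa [inv_pow]

theorem KK_le_HH {C : Subgroup G} (hn : C.Normal) : KK C hn ≤ HH C hn := fun _ h => h.1

theorem le_HH {C : Subgroup G} (hn : C.Normal) : C ≤ HH C hn := by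
  intro c hc g
  exact C.mul_mem (hn.conj_mem _ hc g) (C.inv_mem hc)

theorem le_KK {C : Subgroup G} (hn : C.Normal) : C ≤ KK C hn := by
  intro c hc
  exact ⟨le_HH hn hc, 1, one_ne_zero, 1, Subgroup.one_mem _, by simpa using hc⟩

theorem center_le_KK {C : Subgroup G} (hn : C.Normal) : Subgroup.center G ≤ KK C hn := by
  intro z hz
  refine ⟨?_, 1, one_ne_zero, z⁻¹, Subgroup.inv_mem _ hz, ?_⟩
  · intro g
    have := (Subgroup.mem_center_iff.1 hz) g
    rw [this]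
    have e : z * g * g⁻¹ * z⁻¹ = 1 := by group
    rw [e]
    exact C.one_mem
  · simpa using C.one_mem

theorem HH_mono {C D : Subgroup G} (hC : C.Normal) (hD : D.Normal) (h : C ≤ D) :
    HH C hC ≤ HH D hD := fun _ hx g => h (hx g)

theorem conj_KK {C : Subgroup G} (hn : C.Normal) {x : G} (hx : x ∈ KK C hn) (g : G) :
    g * x * g⁻¹ ∈ KK C hn := by
  have h1 : g * x * g⁻¹ * x⁻¹ ∈ KK C hn := le_KK hn (hx.1 g)
  have h2 := (KK C hn).mul_mem h1 hx
  simpa using h2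

theorem exists_QQ {C : Subgroup G} (hn : C.Normal) :
    ∃ Q : Set G, Q ⊆ HH C hn ∧ (∀ a ∈ Q, ∀ b ∈ Q, a * b ∈ Q) ∧
      (∀ c ∈ KK C hn, ∀ a ∈ Q, c * a ∈ Q) ∧ (∀ c ∈ KK C hn, ∀ a ∈ Q, a * c ∈ Q) ∧
      (∀ a ∈ Q, a⁻¹ ∉ Q) ∧ (∀ a ∈ Q, a ∉ KK C hn) ∧
      (∀ a ∈ HH C hn, a ∉ KK C hn → a ∈ Q ∨ a⁻¹ ∈ Q) := by
  haveI hN : ((KK C hn).subgroupOf (HH C hn)).Normal := by
    constructor
    intro n hn' g
    rw [Subgroup.mem_subgroupOf] at *
    exact conj_KK hn hn' _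
  have hb : BiRelConvex ((KK C hn).subgroupOf (HH C hn)) := by
    apply biRelConvex_of_abelian
    · intro x y
      rw [Subgroup.mem_subgroupOf]
      exact le_KK hn (y.2 x)
    · intro x n hn0 hx
      rw [Subgroup.mem_subgroupOf] at *
      obtain ⟨_, k, hk, z, hz, h1⟩ := hx
      refine ⟨x.2, n * k, mul_ne_zero hn0 hk, z, hz, ?_⟩
      rw [pow_mul]
      exact h1
  obtain ⟨Q, hQ⟩ := hb
  refine ⟨Subtype.val '' Q, ?_, ?_, ?_, ?_, ?_, ?_, ?_⟩
  · rintro _ ⟨a, _, rfl⟩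
    exact a.2
  · rintro _ ⟨a, ha, rfl⟩ _ ⟨b, hb, rfl⟩
    exact ⟨a * b, hQ.mul _ ha _ hb, rfl⟩
  · rintro c hc _ ⟨a, ha, rfl⟩
    exact ⟨⟨c, hc.1⟩ * a, hQ.mul_left _ (by rw [Subgroup.mem_subgroupOf]; exact hc) _ ha, rfl⟩
  · rintro c hc _ ⟨a, ha, rfl⟩
    exact ⟨a * ⟨c, hc.1⟩, hQ.mul_right _ (by rw [Subgroup.mem_subgroupOf]; exact hc) _ ha, rfl⟩
  · rintro _ ⟨a, ha, rfl⟩ ⟨b, hb, e⟩
    have : b = a⁻¹ := Subtype.ext (by simpa using e)
    rw [this] at hb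
    exact hQ.inv _ ha hb
  · rintro _ ⟨a, ha, rfl⟩ h
    exact hQ.toRelCone.notMem ha (by rw [Subgroup.mem_subgroupOf]; exact h)
  · intro a ha1 ha2
    rcases hQ.total ⟨a, ha1⟩ (by rw [Subgroup.mem_subgroupOf]; exact ha2) with h1 | h1
    · exact Or.inl ⟨_, h1, rfl⟩
    · exact Or.inr ⟨_, h1, rfl⟩

end basics

variable {G : Type u} [Group G] [LinearOrder G] [MulLeftMono G] [MulRightMono G]

theorem pow_conj_aux {x e : G} (he : 1 < e) (k : ℕ) :
    ∃ w, e ≤ w ∧ (e * x) ^ (k + 1) = w * x ^ (k + 1) := by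
  induction k with
  | zero => exact ⟨e, le_rfl, by simp⟩
  | succ k ih =>
    obtain ⟨w, h1, h2⟩ := ih
    refine ⟨w * (x ^ (k + 1) * e * (x ^ (k + 1))⁻¹), ?_, ?_⟩
    · have h3 : 1 < x ^ (k + 1) * e * (x ^ (k + 1))⁻¹ := by
        have := conj_lt he (x ^ (k + 1))
        simpa using this
      calc e ≤ w := h1
        _ = w * 1 := (mul_one w).symm
        _ ≤ _ := lle h3.le w
    · rw [pow_succ (e * x) (k + 1), h2, pow_succ x (k + 1)]
      group

theorem pow_conj_aux' {x e : G} (he : e < 1) (k : ℕ) :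
    ∃ w, w ≤ e ∧ (e * x) ^ (k + 1) = w * x ^ (k + 1) := by
  induction k with
  | zero => exact ⟨e, le_rfl, by simp⟩
  | succ k ih =>
    obtain ⟨w, h1, h2⟩ := ih
    refine ⟨w * (x ^ (k + 1) * e * (x ^ (k + 1))⁻¹), ?_, ?_⟩
    · have h3 : x ^ (k + 1) * e * (x ^ (k + 1))⁻¹ < 1 := by
        have := conj_lt he (x ^ (k + 1))
        simpa using this
      calc w * (x ^ (k + 1) * e * (x ^ (k + 1))⁻¹) ≤ w * 1 := lle h3.le w
        _ = w := mul_one w
        _ ≤ e := h1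
    · rw [pow_succ (e * x) (k + 1), h2, pow_succ x (k + 1)]
      group

/-- unique roots modulo a convex subgroup -/
theorem root_comm {C : Subgroup G} (hC : OrdConv C) {x g : G} {k : ℕ} (hk : k ≠ 0)
    (h : g * x ^ k * g⁻¹ * (x ^ k)⁻¹ ∈ C) : g * x * g⁻¹ * x⁻¹ ∈ C := by
  obtain ⟨k, rfl⟩ : ∃ j, k = j + 1 := ⟨k - 1, by omega⟩
  set e := g * x * g⁻¹ * x⁻¹ with he
  have e1 : g * x ^ (k + 1) * g⁻¹ = (e * x) ^ (k + 1) := by
    rw [← conj_pow]
    congr 1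
    rw [he]; group
  rw [e1] at h
  rcases lt_trichotomy e 1 with h1 | h1 | h1
  · obtain ⟨w, hw1, hw2⟩ := pow_conj_aux' (x := x) h1 k
    rw [hw2, mul_inv_cancel_right] at h
    have := hC _ (C.inv_mem h) e⁻¹ (Left.one_le_inv_iff.2 h1.le) (inv_le_inv_iff.2 hw1)
    simpa using C.inv_mem this
  · rw [h1]; exact C.one_mem
  · obtain ⟨w, hw1, hw2⟩ := pow_conj_aux (x := x) h1 k
    rw [hw2, mul_inv_cancel_right] at h
    exact hC _ h e h1.le hw1

theorem mem_HH_of_pow {C : Subgroup G} (hC : OrdConv C) (hn : C.Normal) {x z : G} {k : ℕ}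
    (hk : k ≠ 0) (hz : z ∈ Subgroup.center G) (h : x ^ k * z ∈ C) : x ∈ HH C hn := by
  intro g
  apply root_comm hC hk
  have h1 := C.mul_mem (hn.conj_mem _ h g) (C.inv_mem h)
  have hz' := (Subgroup.mem_center_iff.1 hz) g⁻¹
  have e : g * (x ^ k * z) * g⁻¹ * (x ^ k * z)⁻¹ = g * x ^ k * g⁻¹ * (x ^ k)⁻¹ := by
    calc g * (x ^ k * z) * g⁻¹ * (x ^ k * z)⁻¹ = g * x ^ k * (z * g⁻¹) * z⁻¹ * (x ^ k)⁻¹ := by group
      _ = g * x ^ k * (g⁻¹ * z) * z⁻¹ * (x ^ k)⁻¹ := by rw [hz']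
      _ = _ := by group
  rwa [e] at h1

theorem ordConv_total {C D : Subgroup G} (hC : OrdConv C) (hD : OrdConv D) :
    C ≤ D ∨ D ≤ C := by
  by_cases h : C ≤ D
  · exact Or.inl h
  · right
    rw [SetLike.not_le_iff_exists] at h
    obtain ⟨a, haC, haD⟩ := h
    have key : ∀ b : G, 1 < b → b ∈ C → b ∉ D → D ≤ C := by
      intro b hb hbC hbD
      exact (le_Em hD hb hbD).trans ((Em_le_Ep hb).trans (Ep_le hC hb hbC))
    rcases lt_trichotomy a 1 with h1 | h1 | h1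
    · exact key a⁻¹ (Left.one_lt_inv_iff.2 h1) (C.inv_mem haC)
        (fun h2 => haD (by simpa using D.inv_mem h2))
    · exact absurd (h1 ▸ D.one_mem) haD
    · exact key a h1 haC haD

theorem exists_level (hc : Ctl G) {x : G} (hx : x ∉ Subgroup.center G) :
    ∃ (C : Subgroup G) (_ : OrdConv C) (hn : C.Normal), x ∈ HH C hn ∧ x ∉ KK C hn ∧
      ∀ (D : Subgroup G) (_ : OrdConv D) (hD : D.Normal), C < D → x ∈ KK D hD := by
  set 𝒟 : Set (Subgroup G) := {C | OrdConv C ∧ C.Normal ∧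
    ∀ k : ℕ, k ≠ 0 → ∀ z ∈ Subgroup.center G, x ^ k * z ∉ C} with h𝒟
  have hbot : (⊥ : Subgroup G) ∈ 𝒟 := by
    refine ⟨?_, inferInstance, ?_⟩
    · intro a ha y h1 h2
      rw [Subgroup.mem_bot] at *
      rw [ha] at h2
      exact le_antisymm h2 h1
    · intro k hk z hz h
      apply hx
      have hconv : OrdConv (⊥ : Subgroup G) := by
        intro a ha y h1 h2
        rw [Subgroup.mem_bot] at *
        rw [ha] at h2
        exact le_antisymm h2 h1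
      have h1 := mem_HH_of_pow hconv inferInstance hk hz h
      rw [Subgroup.mem_center_iff]
      intro g
      have h2 := h1 g
      rw [Subgroup.mem_bot, mul_inv_eq_one, mul_inv_eq_iff_eq_mul] at h2
      exact h2
  have hdir : DirectedOn (· ≤ ·) 𝒟 := by
    intro C hC D hD
    rcases ordConv_total hC.1 hD.1 with h | h
    · exact ⟨D, hD, h, le_rfl⟩
    · exact ⟨C, hC, le_rfl, h⟩
  have hmem : ∀ y, y ∈ sSup 𝒟 ↔ ∃ C ∈ 𝒟, y ∈ C := fun y =>
    Subgroup.mem_sSup_of_directedOn ⟨_, hbot⟩ hdir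
  have hDconv : OrdConv (sSup 𝒟) := by
    intro a ha y h1 h2
    rw [hmem] at *
    obtain ⟨C, hC, haC⟩ := ha
    exact ⟨C, hC, hC.1 _ haC _ h1 h2⟩
  have hDn : (sSup 𝒟).Normal := by
    constructor
    intro a ha g
    rw [hmem] at *
    obtain ⟨C, hC, haC⟩ := ha
    exact ⟨C, hC, hC.2.1.conj_mem _ haC _⟩
  have hDx : ∀ k : ℕ, k ≠ 0 → ∀ z ∈ Subgroup.center G, x ^ k * z ∉ sSup 𝒟 := by
    intro k hk z hz h
    rw [hmem] at h
    obtain ⟨C, hC, h1⟩ := h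
    exact hC.2.2 k hk z hz h1
  have hup : ∀ (D : Subgroup G) (_ : OrdConv D) (hD : D.Normal), sSup 𝒟 < D → x ∈ KK D hD := by
    intro D hD1 hD2 hlt
    have hnot : D ∉ 𝒟 := fun h => absurd (le_sSup h) (not_le_of_gt hlt)
    have : ∃ k : ℕ, k ≠ 0 ∧ ∃ z ∈ Subgroup.center G, x ^ k * z ∈ D := by
      by_contra hcon
      push Not at hcon
      exact hnot ⟨hD1, hD2, hcon⟩
    obtain ⟨k, hk, z, hz, h1⟩ := this
    exact ⟨mem_HH_of_pow hD1 hD2 hk hz h1, k, hk, z, hz, h1⟩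
  refine ⟨sSup 𝒟, hDconv, hDn, ?_, ?_, hup⟩
  · intro g
    by_contra he
    set e := g * x * g⁻¹ * x⁻¹ with hedef
    have key : ∀ b : G, 1 < b → (b = e ∨ b = e⁻¹) → False := by
      intro b hb hbe
      have hbD : b ∉ sSup 𝒟 := by
        rcases hbe with rfl | rfl
        · exact he
        · exact fun h => he (by simpa using (sSup 𝒟).inv_mem h)
      have hlt : sSup 𝒟 < Ep b hb := by
        refine lt_of_le_of_ne ((le_Em hDconv hb hbD).trans (Em_le_Ep hb)) ?_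
        intro heq
        exact hbD (heq ▸ self_mem_Ep hb)
      obtain ⟨_, k, hk, z, hz, h1⟩ := hup _ (ordConv_Ep hb) (normal_Ep hc hb) hlt
      have h2 := ctl_comm_mem hc hb h1 g
      have hz' := (Subgroup.mem_center_iff.1 hz) g⁻¹
      have e' : g * (x ^ k * z) * g⁻¹ * (x ^ k * z)⁻¹ = g * x ^ k * g⁻¹ * (x ^ k)⁻¹ := by
        calc g * (x ^ k * z) * g⁻¹ * (x ^ k * z)⁻¹
            = g * x ^ k * (z * g⁻¹) * z⁻¹ * (x ^ k)⁻¹ := by group
          _ = g * x ^ k * (g⁻¹ * z) * z⁻¹ * (x ^ k)⁻¹ := by rw [hz']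
          _ = _ := by group
      rw [e'] at h2
      have h3 := root_comm (ordConv_Em hb) hk h2
      rcases hbe with hbe | hbe
      · exact self_notMem_Em hb (hbe ▸ h3)
      · apply self_notMem_Em hb
        have := (Em b hb).inv_mem h3
        rw [← hedef, ← hbe] at this
        exact this
    rcases lt_trichotomy e 1 with h1 | h1 | h1
    · exact key e⁻¹ (Left.one_lt_inv_iff.2 h1) (Or.inr rfl)
    · rw [h1] at he
      exact he (Subgroup.one_mem _)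
    · exact key e h1 (Or.inl rfl)
  · rintro ⟨_, k, hk, z, hz, h1⟩
    exact hDx k hk z hz h1

/-- The quotient by the centre of a centrally ordered group is bi-orderable. -/
theorem biRelConvex_center (hc : Ctl G) : BiRelConvex (Subgroup.center G) := by
  choose Q q1 q2 q3 q4 q5 q6 q7 using
    (fun (C : Subgroup G) (hn : C.Normal) => exists_QQ (C := C) hn)
  set P : Set G := {x | ∃ (C : Subgroup G) (_ : OrdConv C) (hn : C.Normal), x ∈ Q C hn ∧
    ∀ (D : Subgroup G) (_ : OrdConv D) (hD : D.Normal), C < D → x ∈ KK D hD} with hP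
  have tri : ∀ {C D : Subgroup G}, OrdConv C → OrdConv D → C = D ∨ C < D ∨ D < C := by
    intro C D hC hD
    rcases ordConv_total hC hD with h | h
    · rcases eq_or_lt_of_le h with h1 | h1
      · exact Or.inl h1
      · exact Or.inr (Or.inl h1)
    · rcases eq_or_lt_of_le h with h1 | h1
      · exact Or.inl h1.symm
      · exact Or.inr (Or.inr h1)
  refine ⟨P, ⟨?_, ?_, ?_, ?_, ?_⟩, ?_⟩
  · rintro a ⟨C, hC, hCn, haC, ha⟩ b ⟨D, hD, hDn, hbD, hb⟩
    rcases tri hC hD with rfl | h | h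
    · exact ⟨C, hC, hCn, q2 _ _ _ haC _ hbD, fun E hE hEn hlt =>
        Subgroup.mul_mem _ (ha E hE hEn hlt) (hb E hE hEn hlt)⟩
    · exact ⟨D, hD, hDn, q3 _ _ _ (ha D hD hDn h) _ hbD, fun E hE hEn hlt =>
        Subgroup.mul_mem _ (ha E hE hEn (h.trans hlt)) (hb E hE hEn hlt)⟩
    · exact ⟨C, hC, hCn, q4 _ _ _ (hb C hC hCn h) _ haC, fun E hE hEn hlt =>
        Subgroup.mul_mem _ (ha E hE hEn hlt) (hb E hE hEn (h.trans hlt))⟩
  · rintro c hcen a ⟨C, hC, hCn, haC, ha⟩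
    exact ⟨C, hC, hCn, q3 _ _ _ (center_le_KK hCn hcen) _ haC, fun E hE hEn hlt =>
      Subgroup.mul_mem _ (center_le_KK hEn hcen) (ha E hE hEn hlt)⟩
  · rintro c hcen a ⟨C, hC, hCn, haC, ha⟩
    exact ⟨C, hC, hCn, q4 _ _ _ (center_le_KK hCn hcen) _ haC, fun E hE hEn hlt =>
      Subgroup.mul_mem _ (ha E hE hEn hlt) (center_le_KK hEn hcen)⟩
  · rintro a ⟨C, hC, hCn, haC, ha⟩ ⟨D, hD, hDn, hbD, hb⟩
    rcases tri hC hD with rfl | h | h
    · exact q5 _ _ _ haC hbD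
    · exact q6 _ _ _ hbD (Subgroup.inv_mem _ (ha D hD hDn h))
    · exact q6 _ _ _ haC (by simpa using Subgroup.inv_mem _ (hb C hC hCn h))
  · intro a ha
    obtain ⟨C, hC, hCn, h1, h2, h3⟩ := exists_level hc ha
    rcases q7 C hCn a h1 h2 with h4 | h4
    · exact Or.inl ⟨C, hC, hCn, h4, h3⟩
    · exact Or.inr ⟨C, hC, hCn, h4, fun E hE hEn hlt => Subgroup.inv_mem _ (h3 E hE hEn hlt)⟩
  · rintro a ⟨C, hC, hCn, haC, ha⟩ g
    refine ⟨C, hC, hCn, ?_, fun E hE hEn hlt => conj_KK hEn (ha E hE hEn hlt) g⟩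
    have h1 : g * a * g⁻¹ * a⁻¹ ∈ KK C hCn := le_KK hCn ((q1 C hCn haC) g)
    have h2 := q3 _ _ _ h1 _ haC
    simpa using h2

end Pool.Agent.Lib.MP_7217b8_al
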