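import Pool.Agent.Lib.MP_7217b8_al_h23.Order

/-!
# Archimedean classes in centrally ordered groups
-/

set_option linter.unusedSectionVars false

namespace Pool.Agent.Lib.MP_7217b8_al

universe u v

variable {G : Type u} [Group G] [LinearOrder G] [MulLeftMono G] [MulRightMono G]

/-- The order is central. -/
def Ctl (G : Type u) [Group G] [LinearOrder G] : Prop :=
  ∀ f g : G, 1 < g → f * g * f⁻¹ < g ^ 2

/-- `x` is infinitely small compared with `g`. -/
def Small (g x : G) : Prop := ∀ n : ℕ, x ^ n < g ∧ x⁻¹ ^ n < g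

/-- `x` is bounded by a power of `g`. -/
def Big (g x : G) : Prop := ∃ n : ℕ, x ≤ g ^ n ∧ x⁻¹ ≤ g ^ n

theorem one_le_maxinv (x : G) : 1 ≤ max x x⁻¹ := by
  rcases le_total 1 x with h | h
  · exact le_max_of_le_left h
  · exact le_max_of_le_right (Left.one_le_inv_iff.2 h)

theorem small_iff {g x : G} : Small g x ↔ ∀ n : ℕ, (max x x⁻¹) ^ n < g := by
  constructor
  · intro h n
    rcases max_choice x x⁻¹ with e | e
    · rw [e]; exact (h n).1
    · rw [e]; exact (h n).2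
  · intro h n
    exact ⟨lt_of_le_of_lt (pow_le_pow_left' (le_max_left _ _) n) (h n),
      lt_of_le_of_lt (pow_le_pow_left' (le_max_right _ _) n) (h n)⟩

theorem small_one {g : G} (hg : 1 < g) : Small g 1 := by
  intro n
  simpa using hg

theorem small_inv {g x : G} (h : Small g x) : Small g x⁻¹ := by
  intro n
  rw [inv_inv]
  exact ⟨(h n).2, (h n).1⟩

theorem small_of_le {g x y : G} (h : Small g x) (h1 : 1 ≤ y) (h2 : y ≤ x) : Small g y := by
  intro n
  refine ⟨lt_of_le_of_lt (pow_le_pow_left' h2 n) (h n).1, ?_⟩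
  have h3 : y⁻¹ ^ n ≤ 1 := pow_le_one' (Left.inv_le_one_iff.2 h1) n
  have h4 : (1 : G) < g := by simpa using (h 0).1
  exact lt_of_le_of_lt h3 h4

theorem small_mul {g x y : G} (hx : Small g x) (hy : Small g y) : Small g (x * y) := by
  set M := max (max x x⁻¹) (max y y⁻¹) with hM
  have hMs : ∀ n : ℕ, M ^ n < g := by
    intro n
    rcases max_choice (max x x⁻¹) (max y y⁻¹) with e | e
    · rw [hM, e]; exact small_iff.1 hx n
    · rw [hM, e]; exact small_iff.1 hy n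
  have x1 : x ≤ M := (le_max_left _ _).trans (le_max_left _ _)
  have x2 : x⁻¹ ≤ M := (le_max_right _ _).trans (le_max_left _ _)
  have y1 : y ≤ M := (le_max_left _ _).trans (le_max_right _ _)
  have y2 : y⁻¹ ≤ M := (le_max_right _ _).trans (le_max_right _ _)
  intro n
  constructor
  · calc (x * y) ^ n ≤ (M * M) ^ n := pow_le_pow_left' (mul_le_mul' x1 y1) n
      _ = M ^ (2 * n) := by rw [← pow_two, ← pow_mul]
      _ < g := hMs _
  · calc (x * y)⁻¹ ^ n ≤ (M * M) ^ n := by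
          rw [mul_inv_rev]
          exact pow_le_pow_left' (mul_le_mul' y2 x2) n
      _ = M ^ (2 * n) := by rw [← pow_two, ← pow_mul]
      _ < g := hMs _

/-- the elements infinitely small compared with `g` -/
def Em (g : G) (hg : 1 < g) : Subgroup G where
  carrier := {x | Small g x}
  mul_mem' := fun ha hb => small_mul ha hb
  one_mem' := small_one hg
  inv_mem' := fun ha => small_inv ha

theorem mem_Em {g x : G} {hg : 1 < g} : x ∈ Em g hg ↔ Small g x := Iff.rfl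

theorem big_mul {g x y : G} (hg : 1 < g) (hx : Big g x) (hy : Big g y) : Big g (x * y) := by
  obtain ⟨n, h1, h2⟩ := hx
  obtain ⟨m, h3, h4⟩ := hy
  refine ⟨n + m, ?_, ?_⟩
  · rw [pow_add]; exact mul_le_mul' h1 h3
  · rw [mul_inv_rev, add_comm, pow_add]; exact mul_le_mul' h4 h2

/-- the elements bounded by powers of `g` -/
def Ep (g : G) (hg : 1 < g) : Subgroup G where
  carrier := {x | Big g x}
  mul_mem' := fun ha hb => big_mul hg ha hb
  one_mem' := ⟨0, by simp, by simp⟩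
  inv_mem' := fun {x} ha => by
    obtain ⟨n, h1, h2⟩ := ha
    exact ⟨n, h2, by rwa [inv_inv]⟩

theorem mem_Ep {g x : G} {hg : 1 < g} : x ∈ Ep g hg ↔ Big g x := Iff.rfl

/-- convex subgroups -/
def OrdConv (C : Subgroup G) : Prop := ∀ a ∈ C, ∀ x, 1 ≤ x → x ≤ a → x ∈ C

theorem ordConv_Em {g : G} (hg : 1 < g) : OrdConv (Em g hg) :=
  fun _ ha _ h1 h2 => small_of_le ha h1 h2

theorem ordConv_Ep {g : G} (hg : 1 < g) : OrdConv (Ep g hg) := by
  rintro a ⟨n, h1, _⟩ x h3 h4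
  exact ⟨n, h4.trans h1, (Left.inv_le_one_iff.2 h3).trans (one_le_pow_of_one_le' hg.le n)⟩

theorem self_mem_Ep {g : G} (hg : 1 < g) : g ∈ Ep g hg :=
  ⟨1, by simp, by simpa using (Left.inv_le_one_iff.2 hg.le).trans hg.le⟩

theorem self_notMem_Em {g : G} (hg : 1 < g) : g ∉ Em g hg := by
  intro h
  have := (h 1).1
  simp at this

theorem pow_notMem_Em {g : G} (hg : 1 < g) {n : ℕ} (hn : n ≠ 0) : g ^ n ∉ Em g hg := by
  intro h
  apply self_notMem_Em hg
  apply ordConv_Em hg _ h _ hg.le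
  calc g = g ^ 1 := (pow_one g).symm
    _ ≤ g ^ n := pow_le_pow_right' hg.le (by omega)

theorem Em_le_Ep {g : G} (hg : 1 < g) : Em g hg ≤ Ep g hg := by
  intro x hx
  have := hx 1
  simp only [pow_one] at this
  exact ⟨1, by simpa using this.1.le, by simpa using this.2.le⟩

theorem Ep_le {C : Subgroup G} (hC : OrdConv C) {g : G} (hg : 1 < g) (h : g ∈ C) :
    Ep g hg ≤ C := by
  rintro x ⟨n, h1, h2⟩
  rcases le_total 1 x with h3 | h3
  · exact hC _ (C.pow_mem h n) _ h3 h1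
  · have := hC _ (C.pow_mem h n) _ (Left.one_le_inv_iff.2 h3) h2
    simpa using C.inv_mem this

theorem le_Em {C : Subgroup G} (hC : OrdConv C) {g : G} (hg : 1 < g) (h : g ∉ C) :
    C ≤ Em g hg := by
  intro x hx n
  constructor
  · by_contra h1
    push Not at h1
    exact h (hC _ (C.pow_mem hx n) _ hg.le h1)
  · by_contra h1
    push Not at h1
    exact h (hC _ (C.pow_mem (C.inv_mem hx) n) _ hg.le h1)

theorem OrdConv.relCone {C : Subgroup G} (hC : OrdConv C) : RelCone C {x | 1 < x ∧ x ∉ C} where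
  mul := by
    rintro a ⟨h1, h2⟩ b ⟨h3, h4⟩
    have h5 : 1 < a * b := by
      calc (1 : G) < a := h1
        _ = a * 1 := (mul_one a).symm
        _ < a * b := ll h3 a
    refine ⟨h5, fun h6 => h2 (hC _ h6 _ h1.le ?_)⟩
    calc a = a * 1 := (mul_one a).symm
      _ ≤ a * b := lle h3.le a
  mul_left := by
    rintro c hc a ⟨h1, h2⟩
    refine ⟨?_, fun h3 => h2 ?_⟩
    · by_contra h3
      push Not at h3
      apply h2
      apply hC c⁻¹ (C.inv_mem hc) _ h1.le
      have := lle h3 c⁻¹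
      simpa using this
    · have := C.mul_mem (C.inv_mem hc) h3
      simpa using this
  mul_right := by
    rintro c hc a ⟨h1, h2⟩
    refine ⟨?_, fun h3 => h2 ?_⟩
    · by_contra h3
      push Not at h3
      apply h2
      apply hC c⁻¹ (C.inv_mem hc) _ h1.le
      have := rle h3 c⁻¹
      simpa using this
    · have := C.mul_mem h3 (C.inv_mem hc)
      simpa using this
  inv := by
    rintro a ⟨h1, h2⟩ ⟨h3, _⟩
    exact absurd (Left.one_lt_inv_iff.1 h3) (not_lt.2 h1.le)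
  total := by
    intro a ha
    rcases lt_trichotomy a 1 with h1 | h1 | h1
    · exact Or.inr ⟨Left.one_lt_inv_iff.2 h1, fun h2 => ha (by simpa using C.inv_mem h2)⟩
    · exact absurd (h1 ▸ C.one_mem) ha
    · exact Or.inl ⟨h1, ha⟩

theorem OrdConv.biRelConvex {C : Subgroup G} (hC : OrdConv C) (hn : C.Normal) :
    BiRelConvex C := by
  refine ⟨_, hC.relCone, ?_⟩
  rintro a ⟨h1, h2⟩ g
  refine ⟨?_, fun h3 => h2 ?_⟩
  · have := conj_lt h1 g
    simpa using this
  · have := hn.conj_mem _ h3 g⁻¹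
    have e : g⁻¹ * (g * a * g⁻¹) * g⁻¹⁻¹ = a := by group
    rwa [e] at this

/-! ### Central orders -/

theorem conj_small (hc : Ctl G) {g x : G} (h : Small g x) (f : G) :
    Small g (f * x * f⁻¹) := by
  have key : ∀ y : G, Small g y → ∀ n : ℕ, (f * y * f⁻¹) ^ n < g := by
    intro y hy n
    have h4 : (1 : G) < g := by simpa using (hy 0).1
    rw [conj_pow]
    rcases le_or_gt (y ^ n) 1 with h1 | h1
    · have h2 := conj_le h1 f
      rw [mul_one, mul_inv_cancel] at h2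
      exact lt_of_le_of_lt h2 h4
    · calc f * y ^ n * f⁻¹ < (y ^ n) ^ 2 := hc f _ h1
        _ = y ^ (n * 2) := by rw [← pow_mul]
        _ < g := (hy _).1
  intro n
  refine ⟨key x h n, ?_⟩
  have e : (f * x * f⁻¹)⁻¹ = f * x⁻¹ * f⁻¹ := by group
  rw [e]
  exact key _ (small_inv h) n

theorem normal_Em (hc : Ctl G) {g : G} (hg : 1 < g) : (Em g hg).Normal :=
  ⟨fun _ hn f => conj_small hc hn f⟩

theorem normal_Ep (hc : Ctl G) {g : G} (hg : 1 < g) : (Ep g hg).Normal := by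
  constructor
  rintro x ⟨n, h1, h2⟩ f
  have key : ∀ y : G, y ≤ g ^ n → f * y * f⁻¹ ≤ g ^ (2 * n) := by
    intro y hy
    calc f * y * f⁻¹ ≤ f * g ^ n * f⁻¹ := conj_le hy f
      _ = (f * g * f⁻¹) ^ n := by rw [conj_pow]
      _ ≤ (g ^ 2) ^ n := pow_le_pow_left' (hc f g hg).le n
      _ = g ^ (2 * n) := by rw [← pow_mul]
  refine ⟨2 * n, key x h1, ?_⟩
  have e : (f * x * f⁻¹)⁻¹ = f * x⁻¹ * f⁻¹ := by group
  rw [e]
  exact key _ h2

theorem pow_mul_pow_le {a b : G} (h : a * b ≤ b * a) (n : ℕ) : a ^ n * b ^ n ≤ (a * b) ^ n := by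
  have h1 : ∀ n : ℕ, a * b ^ n ≤ b ^ n * a := by
    intro n
    induction n with
    | zero => simp
    | succ k ih =>
      calc a * b ^ (k + 1) = (a * b ^ k) * b := by rw [pow_succ]; group
        _ ≤ (b ^ k * a) * b := rle ih b
        _ = b ^ k * (a * b) := by group
        _ ≤ b ^ k * (b * a) := lle h _
        _ = b ^ (k + 1) * a := by rw [pow_succ]; group
  induction n with
  | zero => simp
  | succ k ih =>
    calc a ^ (k + 1) * b ^ (k + 1) = a ^ k * (a * b ^ k) * b := by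
          rw [pow_succ, pow_succ]; group
      _ ≤ a ^ k * (b ^ k * a) * b := rle (lle (h1 k) _) _
      _ = (a ^ k * b ^ k) * (a * b) := by group
      _ ≤ (a * b) ^ k * (a * b) := rle ih _
      _ = (a * b) ^ (k + 1) := (pow_succ _ _).symm

theorem min_pow_le (a b : G) (n : ℕ) :
    a ^ n * b ^ n ≤ (a * b) ^ n ∨ b ^ n * a ^ n ≤ (a * b) ^ n := by
  rcases le_total (a * b) (b * a) with h | h
  · exact Or.inl (pow_mul_pow_le h n)
  · right
    exact (pow_mul_pow_le h n).trans (pow_le_pow_left' h n)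

theorem ctl_aux (hc : Ctl G) {f x : G} (hx : 1 < x) (n : ℕ) (hn : n ≠ 0)
    (h : x ^ (n + 1) ≤ f * x ^ n * f⁻¹) : False := by
  have key : ∀ k : ℕ, x ^ ((n + 1) ^ k) ≤ f ^ k * x ^ (n ^ k) * (f ^ k)⁻¹ := by
    intro k
    induction k with
    | zero => simp
    | succ k ih =>
      calc x ^ ((n + 1) ^ (k + 1)) = (x ^ ((n + 1) ^ k)) ^ (n + 1) := by
            rw [← pow_mul, pow_succ]
        _ ≤ (f ^ k * x ^ (n ^ k) * (f ^ k)⁻¹) ^ (n + 1) := pow_le_pow_left' ih _
        _ = f ^ k * (x ^ (n + 1)) ^ (n ^ k) * (f ^ k)⁻¹ := by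
            rw [conj_pow, ← pow_mul, ← pow_mul, Nat.mul_comm]
        _ ≤ f ^ k * (f * x ^ n * f⁻¹) ^ (n ^ k) * (f ^ k)⁻¹ :=
            conj_le (pow_le_pow_left' h _) _
        _ = f ^ (k + 1) * x ^ (n ^ (k + 1)) * (f ^ (k + 1))⁻¹ := by
            rw [conj_pow, ← pow_mul, ← pow_succ' n k, pow_succ f k]
            group
  obtain ⟨k, hk⟩ : ∃ k : ℕ, 2 * n ^ k ≤ (n + 1) ^ k := by
    refine ⟨n, ?_⟩
    have h1 := one_add_mul_le_pow (a := (1 : ℚ) / n) (by
      have : (0 : ℚ) < n := by exact_mod_cast Nat.pos_of_ne_zero hn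
      have : (0 : ℚ) < 1 / n := by positivity
      linarith) n
    have hn0 : (n : ℚ) ≠ 0 := by exact_mod_cast hn
    have h2 : (1 : ℚ) + n * (1 / n) = 2 := by field_simp; norm_num
    rw [h2] at h1
    have h3 : (2 : ℚ) * n ^ n ≤ (1 + 1 / n) ^ n * n ^ n := by
      apply mul_le_mul_of_nonneg_right h1
      positivity
    have h4 : ((1 : ℚ) + 1 / n) ^ n * n ^ n = (n + 1) ^ n := by
      rw [← mul_pow]
      congr 1
      field_simp
    rw [h4] at h3
    exact_mod_cast h3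
  have hy : 1 < x ^ (n ^ k) := one_lt_pow' hx (pow_ne_zero k hn)
  have h1 := hc (f ^ k) _ hy
  have h2 : (x ^ (n ^ k)) ^ 2 ≤ f ^ k * x ^ (n ^ k) * (f ^ k)⁻¹ := by
    calc (x ^ (n ^ k)) ^ 2 = x ^ (2 * n ^ k) := by rw [← pow_mul, mul_comm]
      _ ≤ x ^ ((n + 1) ^ k) := pow_le_pow_right' hx.le hk
      _ ≤ _ := key k
  exact absurd h1 (not_lt.2 h2)

theorem ctl_comm_pos (hc : Ctl G) {f x : G} (hx : 1 < x) (n : ℕ) :
    (f * x * f⁻¹ * x⁻¹) ^ n < x := by
  by_contra hcon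
  push Not at hcon
  set c := f * x * f⁻¹ * x⁻¹ with hcdef
  have hn : n ≠ 0 := by
    rintro rfl
    simp at hcon
    exact absurd hx (not_lt.2 hcon)
  apply ctl_aux hc (f := f) hx n hn
  have e : f * x * f⁻¹ = c * x := by rw [hcdef]; group
  have h1 : f * x ^ n * f⁻¹ = (c * x) ^ n := by rw [← conj_pow, e]
  rw [h1]
  rcases min_pow_le c x n with h2 | h2
  · calc x ^ (n + 1) = x * x ^ n := pow_succ' x n
      _ ≤ c ^ n * x ^ n := rle hcon _
      _ ≤ _ := h2
  · calc x ^ (n + 1) = x ^ n * x := pow_succ x n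
      _ ≤ x ^ n * c ^ n := lle hcon _
      _ ≤ _ := h2

theorem ctl_comm (hc : Ctl G) {f x : G} (hx : 1 < x) : Small x (f * x * f⁻¹ * x⁻¹) := by
  intro n
  refine ⟨ctl_comm_pos hc hx n, ?_⟩
  rcases le_or_gt 1 (f * x * f⁻¹ * x⁻¹) with h1 | h1
  · exact lt_of_le_of_lt (pow_le_one' (Left.inv_le_one_iff.2 h1) n) hx
  · have hx' : 1 < f * x * f⁻¹ := by
      have := conj_lt hx f
      simpa using this
    have h2 := ctl_comm_pos hc (f := f⁻¹) hx' n
    have e : f⁻¹ * (f * x * f⁻¹) * f⁻¹⁻¹ * (f * x * f⁻¹)⁻¹ = (f * x * f⁻¹ * x⁻¹)⁻¹ := by group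
    rw [e] at h2
    refine lt_trans h2 ?_
    have h3 := rl h1 x
    simpa using h3

theorem ctl_comm_mem (hc : Ctl G) {g : G} (hg : 1 < g) {x : G} (hx : x ∈ Ep g hg) (f : G) :
    f * x * f⁻¹ * x⁻¹ ∈ Em g hg := by
  have key : ∀ y : G, 1 < y → y ∈ Ep g hg → f * y * f⁻¹ * y⁻¹ ∈ Em g hg := by
    rintro y hy ⟨m, h1, _⟩
    have h2 := ctl_comm hc (f := f) hy
    have hm : m ≠ 0 := by
      rintro rfl
      simp at h1
      exact absurd hy (not_lt.2 h1)
    have aux : ∀ z : G, (∀ n : ℕ, z ^ n < y) → ∀ n : ℕ, z ^ n < g := by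
      intro z hz n
      by_contra h3
      push Not at h3
      have h4 := pow_le_pow_left' h3 m
      rw [← pow_mul] at h4
      exact absurd (hz (n * m)) (not_lt.2 (h1.trans h4))
    intro n
    exact ⟨aux _ (fun n => (h2 n).1) n, aux _ (fun n => (h2 n).2) n⟩
  rcases lt_trichotomy x 1 with h1 | h1 | h1
  · have h2 := key x⁻¹ (Left.one_lt_inv_iff.2 h1) ((Ep g hg).inv_mem hx)
    have h3 := (normal_Em hc hg).conj_mem _ h2 x
    have h4 := (Em g hg).inv_mem h3
    have e : (x * (f * x⁻¹ * f⁻¹ * x⁻¹⁻¹) * x⁻¹)⁻¹ = f * x * f⁻¹ * x⁻¹ := by group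
    rwa [e] at h4
  · rw [h1]
    have : f * 1 * f⁻¹ * 1⁻¹ = 1 := by group
    rw [this]
    exact (Em g hg).one_mem
  · exact key x h1 hx

end Pool.Agent.Lib.MP_7217b8_al
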