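import Pool.Agent.Lib.MP_7217b8_al_h23.Elem

/-!
# The elementary class generated by periodic and abelian groups
-/

set_option linter.unusedSectionVars false
set_option linter.style.haveILetI false

namespace Pool.Agent.Lib.MP_7217b8_al

open scoped commutatorElement

universe u v

/-- The smallest class of groups containing all periodic and all abelian groups and closed under
isomorphisms, extensions and directed unions. -/
inductive ElemClass : (H : Type u) → [Group H] → Prop
  | periodic (H : Type u) [Group H] (h : ∀ x : H, ∃ n : ℕ, n ≠ 0 ∧ x ^ n = 1) : ElemClass H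
  | abelian (H : Type u) [Group H] (h : ∀ x y : H, x * y = y * x) : ElemClass H
  | iso (H K : Type u) [Group H] [Group K] (e : H ≃* K) (h : ElemClass H) : ElemClass K
  | extension (H : Type u) [Group H] (N : Subgroup H) [N.Normal] (h1 : ElemClass N)
      (h2 : ElemClass (H ⧸ N)) : ElemClass H
  | union (H : Type u) [Group H] (L : Set H → Subgroup H)
      (hL : ∀ T : Set H, T.Finite → T ⊆ L T) (h : ∀ T : Set H, T.Finite → ElemClass (L T)) :
      ElemClass H

section union

variable {G : Type u} [Group G]

/-- The relatively convex closure is the union of the closures of the finite subsets. -/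
theorem exists_finite_of_mem_rc (A : Set G) {x : G} (hx : x ∈ rc A) :
    ∃ F : Finset A, x ∈ rc (Subtype.val '' (F : Set A)) := by
  classical
  set C : Finset A → Subgroup G := fun F => rc (Subtype.val '' (F : Set A)) with hC
  have hmono : ∀ {F F' : Finset A}, F ≤ F' → C F ≤ C F' := by
    intro F F' h
    apply rc_le (relConvex_rc _)
    refine Set.Subset.trans ?_ (subset_rc _)
    exact Set.image_mono (Finset.coe_subset.2 h)
  have hQ : ∀ F, ∃ Q, RelCone (C F) Q := fun F => relConvex_rc _
  choose Q hQ using hQ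
  let U : Ultrafilter (Finset A) := Ultrafilter.of Filter.atTop
  have hU : (U : Filter (Finset A)) ≤ Filter.atTop := Ultrafilter.of_le _
  have htail : ∀ F0 : Finset A, ∀ᶠ F in (U : Filter (Finset A)), F0 ≤ F := fun F0 =>
    hU (Filter.eventually_ge_atTop F0)
  let Cu : Subgroup G :=
    { carrier := {x | ∃ F, x ∈ C F}
      mul_mem' := by
        rintro a b ⟨F, hF⟩ ⟨F', hF'⟩
        exact ⟨F ⊔ F', (C _).mul_mem (hmono le_sup_left hF) (hmono le_sup_right hF')⟩
      one_mem' := ⟨∅, (C ∅).one_mem⟩
      inv_mem' := by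
        rintro a ⟨F, hF⟩
        exact ⟨F, (C F).inv_mem hF⟩ }
  have hCu : RelConvex Cu := by
    refine ⟨{g | ∀ᶠ F in (U : Filter (Finset A)), g ∈ Q F}, ?_, ?_, ?_, ?_, ?_⟩
    · intro a ha b hb
      simp only [Set.mem_ofPred_eq] at *
      filter_upwards [ha, hb] with F h1 h2
      exact (hQ F).mul a h1 b h2
    · rintro c ⟨F0, hc⟩ a ha
      simp only [Set.mem_ofPred_eq] at *
      filter_upwards [ha, htail F0] with F h1 h2
      exact (hQ F).mul_left c (hmono h2 hc) a h1
    · rintro c ⟨F0, hc⟩ a ha
      simp only [Set.mem_ofPred_eq] at *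
      filter_upwards [ha, htail F0] with F h1 h2
      exact (hQ F).mul_right c (hmono h2 hc) a h1
    · intro a ha ha'
      simp only [Set.mem_ofPred_eq] at *
      obtain ⟨F, h1, h2⟩ := (ha.and ha').exists
      exact (hQ F).inv a h1 h2
    · intro a ha
      simp only [Set.mem_ofPred_eq]
      have h1 : ∀ᶠ F in (U : Filter (Finset A)), a ∈ Q F ∨ a⁻¹ ∈ Q F := by
        apply Filter.Eventually.of_forall
        intro F
        exact (hQ F).total a (fun h => ha ⟨F, h⟩)
      exact Ultrafilter.eventually_or.1 h1
  have h1 : rc A ≤ Cu := by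
    apply rc_le hCu
    intro a ha
    refine ⟨{⟨a, ha⟩}, subset_rc _ ?_⟩
    exact ⟨⟨a, ha⟩, by simp, rfl⟩
  exact h1 hx

theorem exists_finite_of_subset_rc (A : Set G) {T : Set G} (hT : T.Finite)
    (hTA : T ⊆ (rc A : Set G)) : ∃ F : Set G, F.Finite ∧ F ⊆ A ∧ T ⊆ (rc F : Set G) := by
  classical
  induction T, hT using Set.Finite.induction_on with
  | empty => exact ⟨∅, Set.finite_empty, Set.empty_subset _, Set.empty_subset _⟩
  | @insert a s _ _ ih =>
    obtain ⟨F, h1, h2, h3⟩ := ih (fun t ht => hTA (Set.mem_insert_of_mem _ ht))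
    obtain ⟨F', h4⟩ := exists_finite_of_mem_rc A (hTA (Set.mem_insert a s))
    refine ⟨F ∪ Subtype.val '' (F' : Set A), h1.union ((Finset.finite_toSet F').image _), ?_, ?_⟩
    · apply Set.union_subset h2
      rintro _ ⟨x, _, rfl⟩
      exact x.2
    · rintro t (rfl | ht)
      · exact rc_le (relConvex_rc _) (Set.subset_union_right.trans (subset_rc _)) h4
      · exact rc_le (relConvex_rc _) (Set.subset_union_left.trans (subset_rc _)) (h3 ht)

end union

section LN

/-- finite subsets of `H` generate nilpotent groups -/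
def LN {E : Type u} [Group E] (H : Subgroup E) : Prop :=
  ∀ F : Set E, F.Finite → F ⊆ H → Group.IsNilpotent (Subgroup.closure F)

theorem nilpotent_of_injective {E : Type u} {E' : Type v} [Group E] [Group E'] {ψ : E →* E'}
    (hψ : Function.Injective ψ) (h : Group.IsNilpotent E') : Group.IsNilpotent E :=
  Subgroup.isNilpotent_of_ker_le_center ψ (by
    rw [(MonoidHom.ker_eq_bot_iff ψ).2 hψ]
    exact bot_le)

theorem closure_nilpotent_iff {E : Type u} {E' : Type v} [Group E] [Group E'] {ψ : E →* E'}
    (hψ : Function.Injective ψ) (F : Set E) :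
    Group.IsNilpotent (Subgroup.closure (ψ '' F)) ↔ Group.IsNilpotent (Subgroup.closure F) := by
  have e : Subgroup.closure F ≃* Subgroup.closure (ψ '' F) := by
    rw [← MonoidHom.map_closure]
    exact (Subgroup.closure F).equivMapOfInjective ψ hψ
  exact (Group.isNilpotent_congr e).symm

theorem LN.of_le {E : Type u} {E' : Type v} [Group E] [Group E'] {ψ : E →* E'}
    (hψ : Function.Injective ψ) {H : Subgroup E} {H' : Subgroup E'} (h : LN H')
    (hHH : ∀ x ∈ H, ψ x ∈ H') : LN H := by
  intro F hF hFH
  rw [← closure_nilpotent_iff hψ]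
  apply h _ (hF.image _)
  rintro _ ⟨x, hx, rfl⟩
  exact hHH x (hFH hx)

/-- If `rc` of a set is nilpotent then subsets generate nilpotent groups. -/
theorem closure_nilpotent_of_rc {G : Type u} [Group G] {A F : Set G}
    (h : Group.IsNilpotent (rc A)) (hF : F ⊆ (rc A : Set G)) :
    Group.IsNilpotent (Subgroup.closure F) := by
  have h1 : Subgroup.closure F ≤ rc A := (Subgroup.closure_le _).2 hF
  exact nilpotent_of_injective (Subgroup.inclusion_injective h1) h

theorem InX.rc_nilpotent_of_closure {G : Type u} [Group G] (hG : InX G) {F : Set G}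
    (h : Group.IsNilpotent (Subgroup.closure F)) : Group.IsNilpotent (rc F) := by
  set SF : Set (Subgroup.closure F) := Subtype.val ⁻¹' F with hSF
  obtain ⟨n, hn⟩ := comm_eq_one_of_nilpotent h SF
  have himg : (Subgroup.closure F).subtype '' SF = F := by
    ext x
    constructor
    · rintro ⟨y, hy, rfl⟩
      exact hy
    · intro hx
      exact ⟨⟨x, Subgroup.subset_closure hx⟩, hx, rfl⟩
  have h1 : ∀ t ∈ comm F n, t = 1 := by
    intro t ht
    rw [← himg, comm_map] at ht
    obtain ⟨t, ht, rfl⟩ := ht
    rw [hn t ht, map_one]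
  set SR : Set (rc F) := Subtype.val ⁻¹' F with hSR
  have himg' : (rc F).subtype '' SR = F := by
    ext x
    constructor
    · rintro ⟨y, hy, rfl⟩
      exact hy
    · intro hx
      exact ⟨⟨x, subset_rc F hx⟩, hx, rfl⟩
  apply InX.nilpotent_of_comm n _ (hG.sub (relConvex_rc F)) SR (rcGen_rc F)
  intro t ht
  apply Subtype.ext
  apply h1
  have h2 : comm ((rc F).subtype '' SR) n = comm F n := by rw [himg']
  rw [← h2, comm_map]
  exact ⟨t, ht, rfl⟩

end LN

/-- The property of `B` proved by induction over the elementary class. -/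
def PP (B : Type u) [Group B] : Prop :=
  ∀ (G : Type u) [Group G], InX G → ∀ (E : Type u) [Group E] (ι : E →* G),
    Function.Injective ι → ∀ φ : E →* B, LN φ.ker → LN (⊤ : Subgroup E)

theorem PP.iso {B C : Type u} [Group B] [Group C] (e : B ≃* C) (h : PP B) : PP C := by
  intro G _ hG E _ ι hι φ hφ
  apply h G hG E ι hι (e.symm.toMonoidHom.comp φ)
  have h1 : (e.symm.toMonoidHom.comp φ).ker = φ.ker := by
    ext x
    simp [MonoidHom.mem_ker]
  rw [h1]
  exact hφ

/-- restriction of a homomorphism to the preimage of a subgroup -/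
theorem PP.on_comap {B : Type u} [Group B] {L : Subgroup B} (h : PP L) {G : Type u} [Group G]
    (hG : InX G) {E : Type u} [Group E] {ι : E →* G} (hι : Function.Injective ι) (φ : E →* B)
    (hφ : LN φ.ker) : LN (L.comap φ) := by
  have h1 : LN (⊤ : Subgroup (L.comap φ)) := by
    apply h G hG (L.comap φ) (ι.comp (L.comap φ).subtype)
      (hι.comp (Subgroup.subtype_injective _)) (φ.subgroupComap L)
    apply hφ.of_le (ψ := (L.comap φ).subtype) (Subgroup.subtype_injective _)
    intro x hx
    rw [MonoidHom.mem_ker] at hx ⊢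
    have := congrArg Subtype.val hx
    exact this
  intro F hF hFL
  have himg : (L.comap φ).subtype '' (Subtype.val ⁻¹' F) = F := by
    ext x
    constructor
    · rintro ⟨y, hy, rfl⟩
      exact hy
    · intro hx
      exact ⟨⟨x, hFL hx⟩, hx, rfl⟩
  rw [← himg, closure_nilpotent_iff (Subgroup.subtype_injective _)]
  exact h1 _ (hF.preimage Subtype.val_injective.injOn) (fun _ _ => trivial)

theorem PP.extension {B : Type u} [Group B] {N : Subgroup B} [N.Normal] (h1 : PP N)
    (h2 : PP (B ⧸ N)) : PP B := by
  intro G _ hG E _ ι hι φ hφ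
  apply h2 G hG E ι hι ((QuotientGroup.mk' N).comp φ)
  have h3 : ((QuotientGroup.mk' N).comp φ).ker = N.comap φ := by
    rw [← MonoidHom.comap_ker, QuotientGroup.ker_mk']
  rw [h3]
  exact h1.on_comap hG hι φ hφ

theorem PP.union {B : Type u} [Group B] (h : ∀ T : Set B, T.Finite → ∃ L : Subgroup B, T ⊆ L ∧
    PP L) : PP B := by
  intro G _ hG E _ ι hι φ hφ F hF _
  obtain ⟨L, hL1, hL2⟩ := h (φ '' F) (hF.image _)
  exact hL2.on_comap hG hι φ hφ F hF (fun x hx => hL1 ⟨x, hx, rfl⟩)

theorem PP.periodic {B : Type u} [Group B] (h : ∀ x : B, ∃ n : ℕ, n ≠ 0 ∧ x ^ n = 1) : PP B := by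
  intro G _ hG E _ ι hι φ hφ F hF _
  set A : Set G := ι '' (φ.ker : Set E) with hA
  have h1 : ∀ x : E, ι x ∈ rc A := by
    intro x
    obtain ⟨n, hn, hx⟩ := h (φ x)
    apply (relConvex_rc A).isolated hn
    rw [← map_pow]
    apply subset_rc
    refine ⟨x ^ n, ?_, rfl⟩
    rw [SetLike.mem_coe, MonoidHom.mem_ker, map_pow]
    exact hx
  obtain ⟨F1, hF1, hF1A, hF1F⟩ := exists_finite_of_subset_rc A (T := ι '' F) (hF.image _) (by
    rintro _ ⟨x, _, rfl⟩
    exact h1 x)
  have h2 : Group.IsNilpotent (Subgroup.closure F1) := by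
    have himg : ι '' (ι ⁻¹' F1) = F1 := by
      rw [Set.image_preimage_eq_iff]
      intro y hy
      obtain ⟨x, _, rfl⟩ := hF1A hy
      exact ⟨x, rfl⟩
    rw [← himg, closure_nilpotent_iff hι]
    apply hφ _ (hF1.preimage hι.injOn)
    intro x hx
    obtain ⟨y, hy, he⟩ := hF1A hx
    rw [← hι he]
    exact hy
  rw [← closure_nilpotent_iff hι]
  exact closure_nilpotent_of_rc (hG.rc_nilpotent_of_closure h2) hF1F

theorem PP.abelian {B : Type u} [Group B] (h : ∀ x y : B, x * y = y * x) : PP B := by
  intro G _ hG E _ ι hι φ hφ F hF _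
  rw [← closure_nilpotent_iff hι]
  set S : Set G := ι '' F with hS
  have hSfin : S.Finite := hF.image _
  set D := rc S with hD
  set SD : Set D := Subtype.val ⁻¹' S with hSD
  have hSDfin : SD.Finite := hSfin.preimage Subtype.val_injective.injOn
  have himg : D.subtype '' SD = S := by
    ext x
    constructor
    · rintro ⟨y, hy, rfl⟩
      exact hy
    · intro hx
      exact ⟨⟨x, subset_rc S hx⟩, hx, rfl⟩
  have hDnil : Group.IsNilpotent D := by
    apply (hG.sub (relConvex_rc S)).nilpotent_of_commutator hSDfin (rcGen_rc S)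
    intro F' hF' hF'c
    rw [← closure_nilpotent_iff (ψ := D.subtype) (Subgroup.subtype_injective _)]
    -- every element of the commutator subgroup comes from the kernel of `φ`
    have h1 : ∀ x ∈ D.subtype '' F', ∃ y ∈ φ.ker, ι y = x := by
      rintro _ ⟨x, hx, rfl⟩
      have h2 : D.subtype x ∈ (⁅Subgroup.closure SD, Subgroup.closure SD⁆).map D.subtype :=
        ⟨x, hF'c hx, rfl⟩
      rw [Subgroup.map_commutator, MonoidHom.map_closure, himg, hS, ← MonoidHom.map_closure,
        ← Subgroup.map_commutator] at h2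
      obtain ⟨y, hy, he⟩ := h2
      refine ⟨y, ?_, he⟩
      have h3 : ⁅Subgroup.closure F, Subgroup.closure F⁆ ≤ φ.ker := by
        rw [Subgroup.commutator_le]
        intro a _ b _
        rw [MonoidHom.mem_ker, commutatorElement_def, map_mul, map_mul, map_mul, map_inv, map_inv,
          h (φ a) (φ b)]
        group
      exact h3 hy
    have himg2 : ι '' (ι ⁻¹' (D.subtype '' F')) = D.subtype '' F' := by
      rw [Set.image_preimage_eq_iff]
      intro y hy
      obtain ⟨x, _, rfl⟩ := h1 y hy
      exact ⟨x, rfl⟩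
    rw [← himg2, closure_nilpotent_iff hι]
    apply hφ _ ((hF'.image _).preimage hι.injOn)
    intro x hx
    obtain ⟨y, hy, he⟩ := h1 _ hx
    rw [← hι he]
    exact hy
  exact closure_nilpotent_of_rc hDnil (subset_rc S)

theorem PP_of_elemClass {B : Type u} [Group B] (h : ElemClass B) : PP B := by
  induction h with
  | periodic H h => exact PP.periodic h
  | abelian H h => exact PP.abelian h
  | iso H K e _ ih => exact PP.iso e ih
  | extension H N _ _ ih1 ih2 => exact PP.extension ih1 ih2
  | union H L hL _ ih =>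
    apply PP.union
    intro T hT
    exact ⟨L T, hL T hT, ih T hT⟩

/-- Subgroups of the elementary class in groups of the class `InX` are locally nilpotent. -/
theorem InX.locally_nilpotent {G : Type u} [Group G] (hG : InX G) {H : Subgroup G}
    (hH : ElemClass H) {F : Set G} (hF : F.Finite) (hFH : F ⊆ H) :
    Group.IsNilpotent (Subgroup.closure F) := by
  have h1 : LN (⊤ : Subgroup H) := by
    apply PP_of_elemClass hH G hG H H.subtype (Subgroup.subtype_injective _) (MonoidHom.id H)
    intro F hF hF1
    have h2 : Subgroup.closure F = ⊥ := by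
      rw [Subgroup.closure_eq_bot_iff]
      intro x hx
      exact hF1 hx
    rw [h2]
    infer_instance
  have himg : H.subtype '' (Subtype.val ⁻¹' F) = F := by
    ext x
    constructor
    · rintro ⟨y, hy, rfl⟩
      exact hy
    · intro hx
      exact ⟨⟨x, hFH hx⟩, hx, rfl⟩
  rw [← himg, closure_nilpotent_iff (Subgroup.subtype_injective _)]
  exact h1 _ (hF.preimage Subtype.val_injective.injOn) (fun _ _ => trivial)

theorem elemClass_of_derivedSeries (n : ℕ) : ∀ (H : Type u) [Group H],
    derivedSeries H n = ⊥ → ElemClass H := by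
  induction n with
  | zero =>
    intro H _ h
    apply ElemClass.abelian
    intro x y
    have h1 : ∀ z : H, z = 1 := by
      intro z
      have h2 : z ∈ derivedSeries H 0 := Subgroup.mem_top z
      rw [h] at h2
      exact Subgroup.mem_bot.1 h2
    rw [h1 x, h1 y]
  | succ n ih =>
    intro H _ h
    apply ElemClass.extension H (derivedSeries H n)
    · apply ElemClass.abelian
      intro x y
      apply Subtype.ext
      have h1 : (x : H) * (y : H) * (x : H)⁻¹ * (y : H)⁻¹ ∈ derivedSeries H (n + 1) :=
        Subgroup.commutator_mem_commutator x.2 y.2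
      rw [h, Subgroup.mem_bot, mul_inv_eq_one, mul_inv_eq_iff_eq_mul] at h1
      exact h1
    · exact ih _ (derivedSeries_quot_eq_bot le_rfl)

theorem elemClass_of_solvable (H : Type u) [Group H] [h : Group.IsSolvable H] : ElemClass H := by
  obtain ⟨n, hn⟩ := h.solvable
  exact elemClass_of_derivedSeries n H hn

end Pool.Agent.Lib.MP_7217b8_al
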