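import Pool.Agent.Lib.MP_7217b8_al_h23.Elementary

/-!
# Right orders and central extensions
-/

set_option linter.unusedSectionVars false
set_option linter.style.haveILetI false

namespace Pool.Agent.Lib.MP_7217b8_al

universe u v

/-- `lt` is a right order on the group `K`. -/
structure IsRightOrder {K : Type u} [Group K] (lt : K → K → Prop) : Prop where
  irrefl : ∀ a, ¬ lt a a
  trans : ∀ a b c, lt a b → lt b c → lt a c
  total : ∀ a b, lt a b ∨ a = b ∨ lt b a
  mul_right : ∀ a b c, lt a b → lt (a * c) (b * c)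

/-- `lt` satisfies the Conrad condition. -/
def IsConrad {K : Type u} [Group K] (lt : K → K → Prop) : Prop :=
  ∀ f g : K, lt 1 f → lt f g → ∃ m : ℕ, 0 < m ∧ lt g (f * g ^ m * f⁻¹)

/-- Every right order on `K` is a Conrad right order. -/
def RightOrdersConrad (K : Type u) [Group K] : Prop :=
  ∀ lt : K → K → Prop, IsRightOrder lt → IsConrad lt

/-- `G` admits a total order invariant under left and right multiplication. -/
def Orderable (G : Type u) [Group G] : Prop :=
  ∃ lt : G → G → Prop, IsRightOrder lt ∧ ∀ a b c, lt a b → lt (c * a) (c * b)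

theorem inX_of {G : Type u} [Group G] (h1 : Orderable G) (h2 : RightOrdersConrad G) : InX G := by
  constructor
  · obtain ⟨lt, ho, hl⟩ := h1
    refine ⟨{a | lt 1 a}, ⟨⟨?_, ?_, ?_⟩, ?_⟩⟩
    · intro a ha b hb
      have h3 := ho.mul_right 1 a b ha
      rw [one_mul] at h3
      exact ho.trans _ _ _ hb h3
    · intro a ha ha'
      have h3 := ho.mul_right 1 a⁻¹ a ha'
      rw [one_mul, inv_mul_cancel] at h3
      exact ho.irrefl _ (ho.trans _ _ _ ha h3)
    · intro a ha
      rcases ho.total 1 a with h | h | h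
      · exact Or.inl h
      · exact absurd h.symm ha
      · right
        have h3 := ho.mul_right a 1 a⁻¹ h
        rw [one_mul, mul_inv_cancel] at h3
        exact h3
    · intro a ha g
      have h3 := ho.mul_right _ _ g⁻¹ (hl 1 a g ha)
      rw [mul_one, mul_inv_cancel] at h3
      exact h3
  · intro P hP f g hf hg
    have ho : IsRightOrder (fun a b : G => b * a⁻¹ ∈ P) := by
      refine ⟨?_, ?_, ?_, ?_⟩
      · intro a h
        rw [mul_inv_cancel] at h
        exact hP.one_notMem h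
      · intro a b c hab hbc
        have h3 := hP.mul _ hbc _ hab
        have e : c * b⁻¹ * (b * a⁻¹) = c * a⁻¹ := by group
        rw [e] at h3
        exact h3
      · intro a b
        by_cases hab : b * a⁻¹ = 1
        · exact Or.inr (Or.inl (mul_inv_eq_one.1 hab).symm)
        · rcases hP.total _ hab with h | h
          · exact Or.inl h
          · right; right
            have e : (b * a⁻¹)⁻¹ = a * b⁻¹ := by group
            rwa [e] at h
      · intro a b c h
        have e : b * c * (a * c)⁻¹ = b * a⁻¹ := by group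
        show b * c * (a * c)⁻¹ ∈ P
        rwa [e]
    obtain ⟨m, hm, h3⟩ := h2 _ ho f g (by simpa using hf) hg
    exact ⟨m, hm, h3⟩

section words

variable {K : Type u} [Group K]

/-- Mal'cev words -/
def mal (a b : K) : ℕ → K × K
  | 0 => (a, b)
  | n + 1 => ((mal a b n).1 * (mal a b n).2, (mal a b n).2 * (mal a b n).1)

theorem mal_map {L : Type v} [Group L] (φ : K →* L) (a b : K) (n : ℕ) :
    mal (φ a) (φ b) n = (φ (mal a b n).1, φ (mal a b n).2) := by
  induction n with
  | zero => rfl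
  | succ n ih => simp only [mal, ih, map_mul]

theorem mal_mem (a b : K) (n : ℕ) :
    (mal a b n).1 * (mal a b n).2⁻¹ ∈ (⊤ : Subgroup K).lowerCentralSeries n := by
  induction n with
  | zero => exact Subgroup.mem_top _
  | succ n ih =>
    have h2 := Subgroup.inv_mem _ (comm_mem_lcs ih (mal a b n).2)
    have e : ((mal a b n).2 * ((mal a b n).1 * (mal a b n).2⁻¹) * (mal a b n).2⁻¹ *
        ((mal a b n).1 * (mal a b n).2⁻¹)⁻¹)⁻¹ =
        (mal a b (n + 1)).1 * (mal a b (n + 1)).2⁻¹ := by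
      simp only [mal]
      group
    rw [← e]
    exact h2

theorem exists_mal_eq (h : Group.IsNilpotent K) (a b : K) :
    ∃ n, (mal a b n).1 = (mal a b n).2 := by
  obtain ⟨n, hn⟩ := Subgroup.nilpotent_iff_lowerCentralSeries.1 h
  refine ⟨n, ?_⟩
  have h1 := mal_mem a b n
  rw [hn, Subgroup.mem_bot, mul_inv_eq_one] at h1
  exact h1

end words

theorem conrad_of_nilpotent {K : Type u} [Group K] {lt : K → K → Prop} (ho : IsRightOrder lt)
    {f g : K} (hnil : Group.IsNilpotent (Subgroup.closure ({f, g} : Set K))) (hf : lt 1 f)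
    (hfg : lt f g) : ∃ m : ℕ, 0 < m ∧ lt g (f * g ^ m * f⁻¹) := by
  by_contra hcon
  push Not at hcon
  have hg : lt 1 g := ho.trans _ _ _ hf hfg
  have hasymm : ∀ a b, lt a b → ¬ lt b a := fun a b h1 h2 => ho.irrefl _ (ho.trans _ _ _ h1 h2)
  have hle : ∀ a b c, lt a b → ¬ lt c b → lt a c := by
    intro a b c h1 h2
    rcases ho.total b c with h3 | h3 | h3
    · exact ho.trans _ _ _ h1 h3
    · rw [← h3]; exact h1
    · exact absurd h3 h2
  have hle' : ∀ a b c, ¬ lt b a → lt b c → lt a c := by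
    intro a b c h1 h2
    rcases ho.total a b with h3 | h3 | h3
    · exact ho.trans _ _ _ h3 h2
    · rw [h3]; exact h2
    · exact absurd h3 h1
  have hgpow : ∀ m : ℕ, lt (g ^ m) (g ^ (m + 1)) := by
    intro m
    have := ho.mul_right _ _ (g ^ m) hg
    rw [one_mul, ← pow_succ'] at this
    exact this
  -- the basic inequality
  have hbase : ∀ m : ℕ, 0 < m → lt (g ^ m) (g * f) := by
    intro m hm
    have h1 : lt (g ^ m) (f * g ^ m) := by
      have := ho.mul_right _ _ (g ^ m) hf
      rwa [one_mul] at this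
    have h2 : ¬ lt (g * f) (f * g ^ m) := by
      intro h3
      have h4 := ho.mul_right _ _ f⁻¹ h3
      rw [mul_inv_cancel_right] at h4
      exact hcon m hm h4
    exact hle _ _ _ h1 h2
  set Y : K → Prop := fun x => ¬ lt x f ∧ ∃ m : ℕ, lt x (g ^ m) with hY
  set I : ℕ → K → Prop := fun j y => ¬ lt y (g ^ j) ∧ lt y (g ^ (j + 1)) with hI
  have hIY : ∀ j, 0 < j → ∀ y, I j y → Y y := by
    rintro j hj y ⟨h1, h2⟩
    refine ⟨?_, j + 1, h2⟩
    intro h3
    have h4 : ∀ j : ℕ, 0 < j → ¬ lt (g ^ j) g := by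
      intro j hj
      induction j with
      | zero => omega
      | succ j ih =>
        by_cases h0 : j = 0
        · subst h0; simpa using ho.irrefl g
        · intro h5
          exact ih (by omega) (ho.trans _ _ _ (hgpow j) h5)
    have h5 : lt y g := ho.trans _ _ _ h3 hfg
    exact h1 (hle _ _ _ h5 (h4 j hj))
  have hmap : ∀ j, 0 < j → ∀ x, Y x → I j (x * (f⁻¹ * g ^ j)) := by
    rintro j hj x ⟨h1, m, h2⟩
    constructor
    · intro h3
      have h4 := ho.mul_right _ _ ((g ^ j)⁻¹ * f) h3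
      have e1 : x * (f⁻¹ * g ^ j) * ((g ^ j)⁻¹ * f) = x := by group
      have e2 : g ^ j * ((g ^ j)⁻¹ * f) = f := by group
      rw [e1, e2] at h4
      exact h1 h4
    · have h3 : lt x (g * f) := by
        rcases Nat.eq_zero_or_pos m with h0 | h0
        · exfalso
          rw [h0, pow_zero] at h2
          exact h1 (ho.trans _ _ _ h2 hf)
        · exact ho.trans _ _ _ h2 (hbase m h0)
      have h4 := ho.mul_right _ _ (f⁻¹ * g ^ j) h3
      have e1 : g * f * (f⁻¹ * g ^ j) = g ^ (j + 1) := by rw [pow_succ']; group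
      rw [e1] at h4
      exact h4
  have hwords : ∀ n, (∀ x, Y x → I 1 (x * (mal (f⁻¹ * g ^ 1) (f⁻¹ * g ^ 2) n).1) ∧
      I 2 (x * (mal (f⁻¹ * g ^ 1) (f⁻¹ * g ^ 2) n).2)) ∨
      (∀ x, Y x → I 2 (x * (mal (f⁻¹ * g ^ 1) (f⁻¹ * g ^ 2) n).1) ∧
      I 1 (x * (mal (f⁻¹ * g ^ 1) (f⁻¹ * g ^ 2) n).2)) := by
    intro n
    induction n with
    | zero =>
      left
      intro x hx
      exact ⟨hmap 1 (by norm_num) x hx, hmap 2 (by norm_num) x hx⟩
    | succ n ih =>
      rcases ih with ih | ih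
      · right
        intro x hx
        obtain ⟨h1, h2⟩ := ih x hx
        constructor
        · have h3 := (ih _ (hIY 1 (by norm_num) _ h1)).2
          rw [mul_assoc] at h3
          exact h3
        · have h3 := (ih _ (hIY 2 (by norm_num) _ h2)).1
          rw [mul_assoc] at h3
          exact h3
      · left
        intro x hx
        obtain ⟨h1, h2⟩ := ih x hx
        constructor
        · have h3 := (ih _ (hIY 2 (by norm_num) _ h1)).2
          rw [mul_assoc] at h3
          exact h3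
        · have h3 := (ih _ (hIY 1 (by norm_num) _ h2)).1
          rw [mul_assoc] at h3
          exact h3
  have hfY : Y f := ⟨ho.irrefl f, 1, by simpa using hfg⟩
  set H := Subgroup.closure ({f, g} : Set K) with hH
  have hfH : f ∈ H := Subgroup.subset_closure (by simp)
  have hgH : g ∈ H := Subgroup.subset_closure (by simp)
  obtain ⟨n, hn⟩ := exists_mal_eq hnil ((⟨f, hfH⟩ : H)⁻¹ * ⟨g, hgH⟩ ^ 1)
    ((⟨f, hfH⟩ : H)⁻¹ * ⟨g, hgH⟩ ^ 2)
  have h1 := mal_map H.subtype ((⟨f, hfH⟩ : H)⁻¹ * ⟨g, hgH⟩ ^ 1)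
    ((⟨f, hfH⟩ : H)⁻¹ * ⟨g, hgH⟩ ^ 2) n
  have e1 : H.subtype ((⟨f, hfH⟩ : H)⁻¹ * ⟨g, hgH⟩ ^ 1) = f⁻¹ * g ^ 1 := rfl
  have e2 : H.subtype ((⟨f, hfH⟩ : H)⁻¹ * ⟨g, hgH⟩ ^ 2) = f⁻¹ * g ^ 2 := rfl
  rw [e1, e2] at h1
  have h2 : (mal (f⁻¹ * g ^ 1) (f⁻¹ * g ^ 2) n).1 = (mal (f⁻¹ * g ^ 1) (f⁻¹ * g ^ 2) n).2 := by
    rw [h1]
    simp only
    rw [hn]
  have hdisj : ∀ y, I 1 y → I 2 y → False := by
    rintro y ⟨_, h3⟩ ⟨h4, _⟩
    exact h4 h3
  rcases hwords n with h3 | h3
  · obtain ⟨h4, h5⟩ := h3 f hfY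
    rw [h2] at h4
    exact hdisj _ h4 h5
  · obtain ⟨h4, h5⟩ := h3 f hfY
    rw [h2] at h4
    exact hdisj _ h5 h4

theorem conrad_of_central {G : Type u} [Group G] {K : Type v} [Group K] (π : K →* G)
    (hπ : π.ker ≤ Subgroup.center K)
    (h : ∀ f g : G, Group.IsNilpotent (Subgroup.closure ({f, g} : Set G))) :
    RightOrdersConrad K := by
  intro lt ho f g hf hfg
  apply conrad_of_nilpotent ho _ hf hfg
  set H := Subgroup.closure ({f, g} : Set K) with hH
  set H' := Subgroup.closure ({π f, π g} : Set G) with hH'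
  haveI : Group.IsNilpotent H' := h (π f) (π g)
  have hmap : ∀ x : H, π x ∈ H' := by
    intro x
    have h1 : H.map π = H' := by
      rw [hH, MonoidHom.map_closure, Set.image_pair]
    rw [← h1]
    exact ⟨x, x.2, rfl⟩
  apply Subgroup.isNilpotent_of_ker_le_center ((π.comp H.subtype).codRestrict H' hmap)
  intro x hx
  rw [MonoidHom.mem_ker] at hx
  have h1 : π x = 1 := congrArg Subtype.val hx
  have h2 := hπ ((MonoidHom.mem_ker).2 h1)
  rw [Subgroup.mem_center_iff] at h2 ⊢
  intro y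
  exact Subtype.ext (h2 y)

end Pool.Agent.Lib.MP_7217b8_al
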