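import Pool.Agent.Lib.MP_7217b8_al_h23.Engel

/-!
# Relatively convex closures in nilpotent groups preserve the derived length
-/

set_option linter.unusedSectionVars false
set_option linter.style.haveILetI false

namespace Pool.Agent.Lib.MP_7217b8_al

universe u v

variable {G : Type u} [Group G]

/-- iterated commutator with the elements of a list -/
def itc : List G → G → G
  | [], t => t
  | x :: l, t => itc l (x * t * x⁻¹ * t⁻¹)

theorem comm_mem_lcs {j : ℕ} {t : G} (ht : t ∈ (⊤ : Subgroup G).lowerCentralSeries j) (x : G) :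
    x * t * x⁻¹ * t⁻¹ ∈ (⊤ : Subgroup G).lowerCentralSeries (j + 1) := by
  rw [Subgroup.lowerCentralSeries_succ, Subgroup.commutator_comm]
  exact Subgroup.commutator_mem_commutator (Subgroup.mem_top x) ht

theorem lcs_normal (j : ℕ) : ((⊤ : Subgroup G).lowerCentralSeries j).Normal := inferInstance

theorem itc_mem_lcs (l : List G) : ∀ {j : ℕ} {t : G},
    t ∈ (⊤ : Subgroup G).lowerCentralSeries j →
      itc l t ∈ (⊤ : Subgroup G).lowerCentralSeries (j + l.length) := by
  induction l with
  | nil => intro j t ht; exact ht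
  | cons x l ih =>
    intro j t ht
    have := ih (comm_mem_lcs ht x)
    have e : j + 1 + l.length = j + (x :: l).length := by simp; omega
    rw [← e]
    exact this

theorem itc_mul (l : List G) : ∀ {j : ℕ} {t t' : G},
    (⊤ : Subgroup G).lowerCentralSeries (j + l.length + 1) = ⊥ →
    t ∈ (⊤ : Subgroup G).lowerCentralSeries j → t' ∈ (⊤ : Subgroup G).lowerCentralSeries j →
      itc l (t * t') = itc l t * itc l t' := by
  induction l with
  | nil => intro j t t' _ _ _; rfl
  | cons x l ih =>
    intro j t t' hbot ht ht'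
    have hbot' : (⊤ : Subgroup G).lowerCentralSeries (j + 1 + l.length + 1) = ⊥ := by
      have e : j + 1 + l.length + 1 = j + (x :: l).length + 1 := by simp; omega
      rw [e]; exact hbot
    set u := x * t' * x⁻¹ * t'⁻¹ with hu
    have hu1 : u ∈ (⊤ : Subgroup G).lowerCentralSeries (j + 1) := comm_mem_lcs ht' x
    have e1 : x * (t * t') * x⁻¹ * (t * t')⁻¹ = (x * t * x⁻¹ * t⁻¹) * ((t * u * t⁻¹ * u⁻¹) * u) := by
      rw [hu]; group
    show itc l (x * (t * t') * x⁻¹ * (t * t')⁻¹) = _
    have h2 : t * u * t⁻¹ * u⁻¹ ∈ (⊤ : Subgroup G).lowerCentralSeries (j + 1 + 1) :=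
      comm_mem_lcs hu1 t
    have h3 : t * u * t⁻¹ * u⁻¹ ∈ (⊤ : Subgroup G).lowerCentralSeries (j + 1) :=
      Subgroup.lowerCentralSeries_antitone ⊤ (Nat.le_succ _) h2
    have h4 : itc l (t * u * t⁻¹ * u⁻¹) = 1 := by
      have h5 := itc_mem_lcs l h2
      have e2 : j + 1 + 1 + l.length = j + 1 + l.length + 1 := by omega
      rw [e2, hbot'] at h5
      exact Subgroup.mem_bot.1 h5
    rw [e1, ih hbot' (comm_mem_lcs ht x) (Subgroup.mul_mem _ h3 hu1), ih hbot' h3 hu1, h4,
      one_mul]
    rfl

theorem itc_mem_commutator {K : Subgroup G} (l : List G) : ∀ {t : G}, (∀ x ∈ l, x ∈ K) →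
    t ∈ ⁅K, K⁆ → itc l t ∈ ⁅K, K⁆ := by
  induction l with
  | nil => intro t _ ht; exact ht
  | cons x l ih =>
    intro t hl ht
    have htK : t ∈ K := (Subgroup.commutator_le_self K) ht
    exact ih (fun y hy => hl y (List.mem_cons_of_mem _ hy))
      (Subgroup.commutator_mem_commutator (hl x List.mem_cons_self) htK)

theorem lcs_le_of_rcGen {K N : Subgroup G} (hK : RCGen (K : Set G)) (hN : RelConvex N)
    (hKN : ⁅K, K⁆ ≤ N) {c : ℕ} (hc : (⊤ : Subgroup G).lowerCentralSeries (c + 2) = ⊥) :
    (⊤ : Subgroup G).lowerCentralSeries (c + 1) ≤ N := by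
  have hcen : ∀ z ∈ (⊤ : Subgroup G).lowerCentralSeries (c + 1), ∀ g : G, g * z = z * g := by
    intro z hz g
    have h1 := comm_mem_lcs hz g
    rw [hc, Subgroup.mem_bot, mul_inv_eq_one, mul_inv_eq_iff_eq_mul] at h1
    exact h1
  have key : ∀ j : ℕ, ∀ l : List G, j + l.length = c + 1 → (∀ x ∈ l, x ∈ K) →
      ∀ t ∈ (⊤ : Subgroup G).lowerCentralSeries j, itc l t ∈ N := by
    intro j
    induction j with
    | zero =>
      intro l hl hlK t _
      let ψ : G →* G :=
        { toFun := fun t => itc l t
          map_one' := by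
            have h1 : (1 : G) ∈ (⊤ : Subgroup G).lowerCentralSeries (0 + 1) :=
              Subgroup.one_mem _
            have h2 := itc_mem_lcs l h1
            have e : 0 + 1 + l.length = c + 2 := by omega
            rw [e, hc] at h2
            exact Subgroup.mem_bot.1 h2
          map_mul' := fun t t' => itc_mul l (j := 0) (by
            have e : 0 + l.length + 1 = c + 2 := by omega
            rw [e, hc]) (Subgroup.mem_top t) (Subgroup.mem_top t') }
      have h1 : N.comap ψ = ⊤ := by
        apply hK _ (hN.comap ψ)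
        intro t ht
        show itc l t ∈ N
        cases l with
        | nil => simp at hl
        | cons x l =>
          apply hKN
          apply itc_mem_commutator l (fun y hy => hlK y (List.mem_cons_of_mem _ hy))
          exact Subgroup.commutator_mem_commutator (hlK x List.mem_cons_self) ht
      have h2 : t ∈ N.comap ψ := h1 ▸ Subgroup.mem_top t
      exact h2
    | succ j ih =>
      intro l hl hlK t ht
      have hbot : (⊤ : Subgroup G).lowerCentralSeries (j + 1 + l.length + 1) = ⊥ := by
        have e : j + 1 + l.length + 1 = c + 2 := by omega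
        rw [e, hc]
      have h1itc : itc l 1 = 1 := by
        have h1 : (1 : G) ∈ (⊤ : Subgroup G).lowerCentralSeries (j + 2) := Subgroup.one_mem _
        have h2 := itc_mem_lcs l h1
        have e : j + 2 + l.length = c + 2 := by omega
        rw [e, hc] at h2
        exact Subgroup.mem_bot.1 h2
      have hgen : ∀ u ∈ (⊤ : Subgroup G).lowerCentralSeries j, ∀ y : G,
          itc l (y * u * y⁻¹ * u⁻¹) ∈ N := by
        intro u hu
        have hmul : ∀ y y' : G, itc l (y * y' * u * (y * y')⁻¹ * u⁻¹) =
            itc l (y * u * y⁻¹ * u⁻¹) * itc l (y' * u * y'⁻¹ * u⁻¹) := by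
          intro y y'
          set w := y' * u * y'⁻¹ * u⁻¹ with hw
          have hw1 : w ∈ (⊤ : Subgroup G).lowerCentralSeries (j + 1) := comm_mem_lcs hu y'
          have hw2 : y * w * y⁻¹ * w⁻¹ ∈ (⊤ : Subgroup G).lowerCentralSeries (j + 1 + 1) :=
            comm_mem_lcs hw1 y
          have hw3 := Subgroup.lowerCentralSeries_antitone ⊤ (Nat.le_succ _) hw2
          have hy1 : y * u * y⁻¹ * u⁻¹ ∈ (⊤ : Subgroup G).lowerCentralSeries (j + 1) :=
            comm_mem_lcs hu y
          have e1 : y * y' * u * (y * y')⁻¹ * u⁻¹ =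
              (y * w * y⁻¹ * w⁻¹) * (w * (y * u * y⁻¹ * u⁻¹)) := by
            rw [hw]; group
          have h4 : itc l (y * w * y⁻¹ * w⁻¹) = 1 := by
            have h5 := itc_mem_lcs l hw2
            have e2 : j + 1 + 1 + l.length = j + 1 + l.length + 1 := by omega
            rw [e2, hbot] at h5
            exact Subgroup.mem_bot.1 h5
          rw [e1, itc_mul l hbot hw3 (Subgroup.mul_mem _ hw1 hy1), itc_mul l hbot hw1 hy1, h4,
            one_mul]
          have h6 := itc_mem_lcs l hy1
          have e3 : j + 1 + l.length = c + 1 := by omega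
          rw [e3] at h6
          exact hcen _ h6 _
        let ψ : G →* G :=
          { toFun := fun y => itc l (y * u * y⁻¹ * u⁻¹)
            map_one' := by simpa using h1itc
            map_mul' := hmul }
        have h1 : N.comap ψ = ⊤ := by
          apply hK _ (hN.comap ψ)
          intro y hy
          show itc l (y * u * y⁻¹ * u⁻¹) ∈ N
          exact ih (y :: l) (by simp; omega) (by
            intro x hx
            rcases List.mem_cons.1 hx with rfl | hx
            · exact hy
            · exact hlK x hx) u hu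
        intro y
        have h2 : y ∈ N.comap ψ := h1 ▸ Subgroup.mem_top y
        exact h2
      rw [Subgroup.lowerCentralSeries_succ, Subgroup.commutator_comm] at ht
      have h3 : ∀ t ∈ ⁅(⊤ : Subgroup G), (⊤ : Subgroup G).lowerCentralSeries j⁆,
          t ∈ (⊤ : Subgroup G).lowerCentralSeries (j + 1) ∧ itc l t ∈ N := by
        intro t ht
        rw [Subgroup.commutator_def] at ht
        induction ht using Subgroup.closure_induction with
        | mem t ht =>
          obtain ⟨y, _, u, hu, rfl⟩ := ht
          exact ⟨comm_mem_lcs hu y, hgen u hu y⟩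
        | one => exact ⟨Subgroup.one_mem _, by rw [h1itc]; exact N.one_mem⟩
        | mul t t' _ _ h1 h2 =>
          refine ⟨Subgroup.mul_mem _ h1.1 h2.1, ?_⟩
          rw [itc_mul l hbot h1.1 h2.1]
          exact N.mul_mem h1.2 h2.2
        | inv t _ h1 =>
          refine ⟨Subgroup.inv_mem _ h1.1, ?_⟩
          have h4 : itc l (t * t⁻¹) = itc l t * itc l t⁻¹ :=
            itc_mul l hbot h1.1 (Subgroup.inv_mem _ h1.1)
          rw [mul_inv_cancel, h1itc] at h4
          rw [eq_inv_of_mul_eq_one_right h4.symm]
          exact N.inv_mem h1.2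
      exact (h3 t ht).2
  intro t ht
  exact key (c + 1) [] (by simp) (by simp) t ht

theorem exists_biCone_of_tf (h : Group.IsNilpotent G) (htf : TF G) : ∃ P : Set G, IsBiCone P :=
  exists_biCone_of_nilpotent _ G le_rfl htf

theorem tf_of_biCone {P : Set G} (hP : IsBiCone P) : TF G := by
  intro x n hn hx
  by_contra h1
  rcases hP.total x h1 with h2 | h2
  · exact hP.one_notMem (hx ▸ hP.toIsCone.pow_mem h2 hn)
  · have h3 := hP.toIsCone.pow_mem h2 hn
    rw [inv_pow, hx, inv_one] at h3
    exact hP.one_notMem h3

theorem commutator_mem_of_rcGen (c : ℕ) : ∀ (G : Type u) [Group G] (_ : TF G) (K N : Subgroup G)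
    (_ : RCGen (K : Set G)) (_ : RelConvex N) (_ : ⁅K, K⁆ ≤ N)
    (_ : (⊤ : Subgroup G).lowerCentralSeries c = ⊥) (x y : G), x * y * x⁻¹ * y⁻¹ ∈ N := by
  induction c with
  | zero =>
    intro G _ _ K N _ _ _ hc x y
    have h1 : ∀ z : G, z = 1 := by
      intro z
      have : z ∈ (⊤ : Subgroup G).lowerCentralSeries 0 := Subgroup.mem_top z
      rw [hc] at this
      exact Subgroup.mem_bot.1 this
    rw [h1 (x * y * x⁻¹ * y⁻¹)]
    exact N.one_mem
  | succ c ih =>
    intro G _ htf K N hK hN hKN hc x y
    cases c with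
    | zero =>
      have h1 : x * y * x⁻¹ * y⁻¹ ∈ (⊤ : Subgroup G).lowerCentralSeries (0 + 1) :=
        comm_mem_lcs (j := 0) (Subgroup.mem_top y) x
      rw [hc, Subgroup.mem_bot] at h1
      rw [h1]
      exact N.one_mem
    | succ c =>
      have hnil : Group.IsNilpotent G := Subgroup.nilpotent_iff_lowerCentralSeries.2 ⟨_, hc⟩
      obtain ⟨P, hP⟩ := exists_biCone_of_tf hnil htf
      have h1 := lcs_le_of_rcGen hK hN hKN hc
      set Y := rc ((⊤ : Subgroup G).lowerCentralSeries (c + 1) : Set G) with hY
      have hYN : Y ≤ N := rc_le hN h1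
      haveI hYn : Y.Normal := rc_normal (fun a ha g => (lcs_normal (c + 1)).conj_mem a ha g)
      have hYb : BiRelConvex Y := biRelConvex_of_nilpotent inferInstance
        (fun x n hn hx => (relConvex_rc _).isolated hn hx)
      have h2 := ih (G ⧸ Y) (tf_quot (fun x n hn hx => (relConvex_rc _).isolated hn hx))
        (K.map (QuotientGroup.mk' Y)) (N.map (QuotientGroup.mk' Y))
        (by
          have := hK.map (QuotientGroup.mk'_surjective Y)
          exact this)
        (hN.map _ (QuotientGroup.mk'_surjective Y) (by rw [QuotientGroup.ker_mk']; exact hYN))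
        (by
          rw [← Subgroup.map_commutator]
          exact Subgroup.map_mono hKN)
        (by
          have h3 := Subgroup.map_lowerCentralSeries (⊤ : Subgroup G) (QuotientGroup.mk' Y) (c + 1)
          rw [← MonoidHom.range_eq_map,
            MonoidHom.range_eq_top.2 (QuotientGroup.mk'_surjective Y)] at h3
          rw [← h3, eq_bot_iff]
          rintro _ ⟨t, ht, rfl⟩
          rw [Subgroup.mem_bot]
          exact (QuotientGroup.eq_one_iff t).2 (subset_rc _ ht))
        (QuotientGroup.mk' Y x) (QuotientGroup.mk' Y y)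
      obtain ⟨z, hz, he⟩ := h2
      have h3 : QuotientGroup.mk' Y (z⁻¹ * (x * y * x⁻¹ * y⁻¹)) = 1 := by
        rw [map_mul, map_inv, he, map_mul, map_mul, map_mul, map_inv, map_inv, inv_mul_cancel]
      have h4 := N.mul_mem hz (hYN ((QuotientGroup.eq_one_iff _).1 h3))
      rwa [mul_inv_cancel_left] at h4

/-- derived series of a subgroup, computed in the ambient group -/
def ds (H : Subgroup G) : ℕ → Subgroup G
  | 0 => H
  | n + 1 => ⁅ds H n, ds H n⁆

theorem derivedSeries_le_rc (hnil : Group.IsNilpotent G) (htf : TF G) {H : Subgroup G}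
    (hH : RCGen (H : Set G)) (i : ℕ) : derivedSeries G i ≤ rc (ds H i : Set G) := by
  induction i with
  | zero =>
    have h1 := hH _ (relConvex_rc (H : Set G)) (subset_rc _)
    show derivedSeries G 0 ≤ rc (H : Set G)
    rw [h1]
    exact le_top
  | succ i ih =>
    rw [derivedSeries_succ, Subgroup.commutator_le]
    intro x hx y hy
    set R := rc (ds H i : Set G) with hR
    obtain ⟨c, hc⟩ := Subgroup.nilpotent_iff_lowerCentralSeries.1
      (inferInstance : Group.IsNilpotent R)
    have h1 := commutator_mem_of_rcGen c R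
      (fun x n hn hx => Subtype.ext (htf _ n hn (by
        have := congrArg Subtype.val hx
        simpa using this)))
      ((ds H i).subgroupOf R) ((rc (ds H (i + 1) : Set G)).subgroupOf R)
      (rcGen_rc (ds H i : Set G)) ((relConvex_rc _).comap R.subtype)
      (by
        rw [Subgroup.commutator_le]
        intro a ha b hb
        rw [Subgroup.mem_subgroupOf] at ha hb ⊢
        apply subset_rc
        exact Subgroup.commutator_mem_commutator ha hb) hc ⟨x, ih hx⟩ ⟨y, ih hy⟩
    exact h1

theorem derivedSeries_eq_bot (hnil : Group.IsNilpotent G) (htf : TF G) {H : Subgroup G}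
    (hH : RCGen (H : Set G)) {i : ℕ} (hi : ds H i = ⊥) : derivedSeries G i = ⊥ := by
  rw [eq_bot_iff]
  refine (derivedSeries_le_rc hnil htf hH i).trans ?_
  obtain ⟨P, hP⟩ := exists_biCone_of_tf hnil htf
  apply rc_le ⟨_, hP.toIsCone.relCone⟩
  rw [hi]

theorem ds_map {H : Type v} [Group H] (φ : G →* H) (K : Subgroup G) (i : ℕ) :
    ds (K.map φ) i = (ds K i).map φ := by
  induction i with
  | zero => rfl
  | succ i ih =>
    show ⁅ds (K.map φ) i, ds (K.map φ) i⁆ = (⁅ds K i, ds K i⁆).map φ
    rw [ih, Subgroup.map_commutator]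

theorem ds_eq (K : Subgroup G) (i : ℕ) : ds K i = (derivedSeries K i).map K.subtype := by
  induction i with
  | zero =>
    show K = (derivedSeries K 0).map K.subtype
    rw [derivedSeries_zero, ← MonoidHom.range_eq_map, Subgroup.range_subtype]
  | succ i ih =>
    show ⁅ds K i, ds K i⁆ = _
    rw [ih, derivedSeries_succ, Subgroup.map_commutator]

end Pool.Agent.Lib.MP_7217b8_al
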