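import Pool.Agent.Lib.MP_7217b8_al_h23.Soluble

/-!
# Finitely generated groups with locally nilpotent commutator subgroup
-/

set_option linter.unusedSectionVars false
set_option linter.style.haveILetI false

namespace Pool.Agent.Lib.MP_7217b8_al

open scoped commutatorElement

universe u v

variable {G : Type u} [Group G]

theorem rcGen_of_mod (c : ℕ) : ∀ (G : Type u) [Group G] (_ : TF G) (S : Set G)
    (_ : ∀ C : Subgroup G, RelConvex C → S ⊆ C → ⁅(⊤ : Subgroup G), (⊤ : Subgroup G)⁆ ≤ C →
      C = ⊤)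
    (_ : (⊤ : Subgroup G).lowerCentralSeries c = ⊥), RCGen S := by
  induction c with
  | zero =>
    intro G _ _ S _ hc C _ _
    rw [eq_top_iff]
    intro x hx
    have h1 : x ∈ (⊤ : Subgroup G).lowerCentralSeries 0 := hx
    rw [hc, Subgroup.mem_bot] at h1
    rw [h1]
    exact C.one_mem
  | succ c ih =>
    intro G _ htf S hS hc
    cases c with
    | zero =>
      intro C hC hSC
      apply hS C hC hSC
      have h1 : ⁅(⊤ : Subgroup G), (⊤ : Subgroup G)⁆ =
        (⊤ : Subgroup G).lowerCentralSeries (0 + 1) := rfl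
      rw [h1, hc]
      exact bot_le
    | succ c =>
      have hnil : Group.IsNilpotent G := Subgroup.nilpotent_iff_lowerCentralSeries.2 ⟨_, hc⟩
      obtain ⟨P, hP⟩ := exists_biCone_of_tf hnil htf
      set Y := rc ((⊤ : Subgroup G).lowerCentralSeries (c + 1) : Set G) with hY
      haveI hYn : Y.Normal := rc_normal (fun a ha g => (lcs_normal (c + 1)).conj_mem a ha g)
      have hYb : BiRelConvex Y := biRelConvex_of_nilpotent inferInstance
        (fun x n hn hx => (relConvex_rc _).isolated hn hx)
      have hYcen : Y ≤ Subgroup.center G := by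
        apply rc_le (relConvex_center hP)
        intro z hz
        rw [SetLike.mem_coe, Subgroup.mem_center_iff]
        intro g
        have h1 := comm_mem_lcs hz g
        rw [hc, Subgroup.mem_bot, mul_inv_eq_one, mul_inv_eq_iff_eq_mul] at h1
        exact h1
      have hup : ∀ D : Subgroup G, Y ≤ D → D.map (QuotientGroup.mk' Y) = ⊤ → D = ⊤ := by
        intro D hYD hD
        rw [eq_top_iff]
        intro x _
        have h1 : QuotientGroup.mk' Y x ∈ D.map (QuotientGroup.mk' Y) :=
          hD ▸ Subgroup.mem_top _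
        obtain ⟨d, hd, he⟩ := h1
        have h2 : QuotientGroup.mk' Y (d⁻¹ * x) = 1 := by
          rw [map_mul, map_inv, he, inv_mul_cancel]
        have h3 := D.mul_mem hd (hYD ((QuotientGroup.eq_one_iff _).1 h2))
        rwa [mul_inv_cancel_left] at h3
      have hbar : RCGen (QuotientGroup.mk' Y '' S) := by
        apply ih (G ⧸ Y) (tf_quot (fun x n hn hx => (relConvex_rc _).isolated hn hx))
        · intro C hC hSC hcC
          have h1 : C.comap (QuotientGroup.mk' Y) = ⊤ := by
            apply hS _ (hC.comap _)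
            · intro s hs
              exact hSC ⟨s, hs, rfl⟩
            · rw [Subgroup.commutator_le]
              intro x _ y _
              apply hcC
              exact Subgroup.commutator_mem_commutator (Subgroup.mem_top (QuotientGroup.mk' Y x))
                (Subgroup.mem_top (QuotientGroup.mk' Y y))
          rw [eq_top_iff]
          intro x _
          obtain ⟨x, rfl⟩ := QuotientGroup.mk'_surjective Y x
          have h2 : x ∈ C.comap (QuotientGroup.mk' Y) := h1 ▸ Subgroup.mem_top x
          exact h2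
        · have h3 := Subgroup.map_lowerCentralSeries (⊤ : Subgroup G) (QuotientGroup.mk' Y) (c + 1)
          rw [← MonoidHom.range_eq_map,
            MonoidHom.range_eq_top.2 (QuotientGroup.mk'_surjective Y)] at h3
          rw [← h3, eq_bot_iff]
          rintro _ ⟨t, ht, rfl⟩
          rw [Subgroup.mem_bot]
          exact (QuotientGroup.eq_one_iff t).2 (subset_rc _ ht)
      intro C hC hSC
      have hK : RCGen ((Subgroup.closure S ⊔ Y : Subgroup G) : Set G) := by
        intro D hD hKD
        have hYD : Y ≤ D := le_trans le_sup_right hKD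
        apply hup D hYD
        apply hbar _ (hD.map _ (QuotientGroup.mk'_surjective Y)
          (by rw [QuotientGroup.ker_mk']; exact hYD))
        rintro _ ⟨s, hs, rfl⟩
        exact ⟨s, hKD ((le_sup_left : Subgroup.closure S ≤ _) (Subgroup.subset_closure hs)), rfl⟩
      have hKC : ⁅Subgroup.closure S ⊔ Y, Subgroup.closure S ⊔ Y⁆ ≤ C := by
        have hclC : Subgroup.closure S ≤ C := (Subgroup.closure_le _).2 hSC
        rw [Subgroup.commutator_le]
        intro x hx x' hx'
        obtain ⟨a, ha, y, hy, rfl⟩ := Subgroup.mem_sup_of_normal_right.1 hx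
        obtain ⟨a', ha', y', hy', rfl⟩ := Subgroup.mem_sup_of_normal_right.1 hx'
        have hyc : ∀ g, g * y = y * g := Subgroup.mem_center_iff.1 (hYcen hy)
        have hyc' : ∀ g, g * y' = y' * g := Subgroup.mem_center_iff.1 (hYcen hy')
        have e1 : a * y * (a' * y') = a * a' * (y * y') := by
          calc a * y * (a' * y') = a * (y * a') * y' := by group
            _ = a * (a' * y) * y' := by rw [hyc]
            _ = a * a' * (y * y') := by group
        have e2 : a' * y' * (a * y) = a' * a * (y * y') := by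
          calc a' * y' * (a * y) = a' * (y' * a) * y := by group
            _ = a' * (a * y') * y := by rw [hyc']
            _ = a' * a * (y' * y) := by group
            _ = a' * a * (y * y') := by rw [hyc y']
        have e3 : ⁅a * y, a' * y'⁆ = ⁅a, a'⁆ := by
          have h1 : ⁅a * y, a' * y'⁆ = (a * y * (a' * y')) * (a' * y' * (a * y))⁻¹ := by
            rw [commutatorElement_def]; group
          have h2 : ⁅a, a'⁆ = (a * a') * (a' * a)⁻¹ := by
            rw [commutatorElement_def]; group
          rw [h1, e1, e2, h2]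
          group
        rw [e3]
        exact (Subgroup.commutator_le_self C)
          (Subgroup.commutator_mem_commutator (hclC ha) (hclC ha'))
      have h1 := lcs_le_of_rcGen hK hC hKC hc
      have hYC : Y ≤ C := rc_le hC h1
      apply hup C hYC
      apply hbar _ (hC.map _ (QuotientGroup.mk'_surjective Y)
        (by rw [QuotientGroup.ker_mk']; exact hYC))
      rintro _ ⟨s, hs, rfl⟩
      exact ⟨s, hSC hs, rfl⟩

theorem TF.sub (h : TF G) (C : Subgroup G) : TF C :=
  fun x n hn hx => Subtype.ext (h _ n hn (by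
    have := congrArg Subtype.val hx
    simpa using this))

theorem ds_rc_le (hnil : Group.IsNilpotent G) (htf : TF G) (K : Subgroup G) (i : ℕ) :
    ds (rc (K : Set G)) i ≤ rc (ds K i : Set G) := by
  induction i with
  | zero => exact le_rfl
  | succ i ih =>
    show ⁅ds (rc (K : Set G)) i, ds (rc (K : Set G)) i⁆ ≤ _
    rw [Subgroup.commutator_le]
    intro x hx y hy
    set R := rc (ds K i : Set G) with hR
    obtain ⟨c, hc⟩ := Subgroup.nilpotent_iff_lowerCentralSeries.1
      (inferInstance : Group.IsNilpotent R)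
    have h1 := commutator_mem_of_rcGen c R (htf.sub R)
      ((ds K i).subgroupOf R) ((rc (ds K (i + 1) : Set G)).subgroupOf R)
      (rcGen_rc (ds K i : Set G)) ((relConvex_rc _).comap R.subtype)
      (by
        rw [Subgroup.commutator_le]
        intro a ha b hb
        rw [Subgroup.mem_subgroupOf] at ha hb ⊢
        apply subset_rc
        exact Subgroup.commutator_mem_commutator ha hb) hc ⟨x, ih hx⟩ ⟨y, ih hy⟩
    exact h1

theorem ds_mono {K L : Subgroup G} (h : K ≤ L) (i : ℕ) : ds K i ≤ ds L i := by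
  induction i with
  | zero => exact h
  | succ i ih => exact Subgroup.commutator_mono ih ih

theorem rc_le_of_mod (hnil : Group.IsNilpotent G) (htf : TF G) {A : Subgroup G}
    (hA : RelConvex A) {S : Set G} (hSA : S ⊆ A)
    (h : ∀ C : Subgroup G, RelConvex C → S ⊆ C → ⁅A, A⁆ ≤ C → A ≤ C) : A ≤ rc S := by
  obtain ⟨c, hc⟩ := Subgroup.nilpotent_iff_lowerCentralSeries.1
    (inferInstance : Group.IsNilpotent A)
  have h1 : RCGen (Subtype.val ⁻¹' S : Set A) := by
    apply rcGen_of_mod c A (htf.sub A) _ _ hc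
    intro C hC hSC hcC
    have h2 : RelConvex (C.map A.subtype) := by
      apply hA.trans
      · rintro _ ⟨x, _, rfl⟩
        exact x.2
      · have e : (C.map A.subtype).subgroupOf A = C := by
          ext x
          rw [Subgroup.mem_subgroupOf]
          constructor
          · rintro ⟨y, hy, he⟩
            have : y = x := Subtype.ext he
            rw [← this]
            exact hy
          · intro hx
            exact ⟨x, hx, rfl⟩
        rw [e]
        exact hC
    have h3 := h _ h2 (by
      intro s hs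
      exact ⟨⟨s, hSA hs⟩, hSC hs, rfl⟩) (by
      rw [Subgroup.commutator_le]
      intro x hx y hy
      exact ⟨⁅(⟨x, hx⟩ : A), ⟨y, hy⟩⁆, hcC (Subgroup.commutator_mem_commutator
        (Subgroup.mem_top _) (Subgroup.mem_top _)), rfl⟩)
    rw [eq_top_iff]
    intro x _
    obtain ⟨y, hy, he⟩ := h3 x.2
    have : y = x := Subtype.ext he
    rw [← this]
    exact hy
  have h4 := h1 ((rc S).subgroupOf A) ((relConvex_rc S).comap A.subtype)
    (fun x hx => subset_rc S hx)
  intro x hx
  have h5 : (⟨x, hx⟩ : A) ∈ (rc S).subgroupOf A := h4 ▸ Subgroup.mem_top _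
  exact h5

/-- iterated commutators of elements of `R` with elements of `T` -/
def itS (T R : Set G) : ℕ → Set G
  | 0 => R
  | n + 1 => {x | ∃ s ∈ T, ∃ t ∈ itS T R n, x = s * t * s⁻¹ * t⁻¹}

theorem itS_finite {T R : Set G} (hT : T.Finite) (hR : R.Finite) (n : ℕ) :
    (itS T R n).Finite := by
  induction n with
  | zero => exact hR
  | succ k ih =>
    have : itS T R (k + 1) =
        (fun p : G × G => p.1 * p.2 * p.1⁻¹ * p.2⁻¹) '' (T ×ˢ itS T R k) := by
      ext x
      constructor
      · rintro ⟨s, hs, t, ht, rfl⟩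
        exact ⟨(s, t), ⟨hs, ht⟩, rfl⟩
      · rintro ⟨⟨s, t⟩, ⟨hs, ht⟩, rfl⟩
        exact ⟨s, hs, t, ht, rfl⟩
    rw [this]
    exact (hT.prod ih).image _

theorem itS_mem_lcs {T R : Set G} (n : ℕ) :
    ∀ t ∈ itS T R n, t ∈ (⊤ : Subgroup G).lowerCentralSeries n := by
  induction n with
  | zero => intro x _; trivial
  | succ k ih =>
    rintro _ ⟨s, hs, t, ht, rfl⟩
    exact comm_mem_lcs (ih t ht) s

/-- In a group generated by `S`, modulo a normal subgroup with nilpotent quotient the commutator
subgroup is generated by finitely many elements. -/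
theorem exists_gen_commutator {S : Set G} (hfin : S.Finite) {W : Subgroup G} [hW : W.Normal]
    {n : ℕ} (hn : (⊤ : Subgroup G).lowerCentralSeries n ≤ W) :
    ∃ L0 : Set G, L0.Finite ∧
      L0 ⊆ ((⁅Subgroup.closure S, Subgroup.closure S⁆ : Subgroup G) : Set G) ∧
      ⁅Subgroup.closure S, Subgroup.closure S⁆ ≤ Subgroup.closure L0 ⊔ W := by
  set T : Set G := S ∪ (fun x => x⁻¹) '' S with hT
  have hTfin : T.Finite := hfin.union (hfin.image _)
  set H := Subgroup.closure S with hH
  have hTH : ∀ s ∈ T, s ∈ H := by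
    rintro s (hs | ⟨s, hs, rfl⟩)
    · exact Subgroup.subset_closure hs
    · exact H.inv_mem (Subgroup.subset_closure hs)
  have hBL : ∀ k, ∀ t ∈ itS T (comm S 1) k, t ∈ ⁅H, H⁆ := by
    intro k
    induction k with
    | zero =>
      rintro _ ⟨s, hs, t, ht, rfl⟩
      exact Subgroup.commutator_mem_commutator (Subgroup.subset_closure hs)
        (Subgroup.subset_closure ht)
    | succ k ih =>
      rintro _ ⟨s, hs, t, ht, rfl⟩
      exact Subgroup.commutator_mem_commutator (hTH s hs)
        (Subgroup.commutator_le_self H (ih t ht))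
  set L0 : Set G := ⋃ k ∈ Finset.range n, itS T (comm S 1) k with hL0
  have hmemL0 : ∀ k, k < n → ∀ t ∈ itS T (comm S 1) k, t ∈ L0 := by
    intro k hk t ht
    rw [hL0]
    simp only [Set.mem_iUnion]
    exact ⟨k, Finset.mem_range.2 hk, ht⟩
  set M := Subgroup.closure L0 ⊔ W with hM
  have hinM : ∀ k, ∀ t ∈ itS T (comm S 1) k, t ∈ M := by
    intro k t ht
    by_cases hk : k < n
    · exact (le_sup_left : Subgroup.closure L0 ≤ M)
        (Subgroup.subset_closure (hmemL0 k hk t ht))
    · exact (le_sup_right : W ≤ M) (hn (Subgroup.lowerCentralSeries_antitone ⊤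
        (not_lt.1 hk) (itS_mem_lcs k t ht)))
  have hconj : ∀ s ∈ T, ∀ u ∈ M, s * u * s⁻¹ ∈ M := by
    intro s hs
    have h1 : M ≤ M.comap (MulAut.conj s).toMonoidHom := by
      apply sup_le
      · rw [Subgroup.closure_le]
        intro u hu
        rw [hL0] at hu
        simp only [Set.mem_iUnion] at hu
        obtain ⟨k, hk, hu⟩ := hu
        show s * u * s⁻¹ ∈ M
        have h2 := hinM (k + 1) (s * u * s⁻¹ * u⁻¹) ⟨s, hs, u, hu, rfl⟩
        have h3 := M.mul_mem h2 (hinM k u hu)
        rwa [inv_mul_cancel_right] at h3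
      · intro w hw
        exact (le_sup_right : W ≤ M) (hW.conj_mem w hw s)
    intro u hu
    exact h1 hu
  have hconjH : ∀ h ∈ H, ∀ u ∈ M, h * u * h⁻¹ ∈ M := by
    have h1 : ∀ h ∈ H, (∀ u ∈ M, h * u * h⁻¹ ∈ M) ∧ (∀ u ∈ M, h⁻¹ * u * h⁻¹⁻¹ ∈ M) := by
      intro h hh
      induction hh using Subgroup.closure_induction with
      | mem s hs =>
        exact ⟨hconj s (Or.inl hs), hconj s⁻¹ (Or.inr ⟨s, hs, rfl⟩)⟩
      | one => exact ⟨fun u hu => by simpa using hu, fun u hu => by simpa using hu⟩
      | mul x y _ _ hx hy =>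
        constructor
        · intro u hu
          have e : x * y * u * (x * y)⁻¹ = x * (y * u * y⁻¹) * x⁻¹ := by group
          rw [e]
          exact hx.1 _ (hy.1 u hu)
        · intro u hu
          have e : (x * y)⁻¹ * u * (x * y)⁻¹⁻¹ = y⁻¹ * (x⁻¹ * u * x⁻¹⁻¹) * y⁻¹⁻¹ := by group
          rw [e]
          exact hy.2 _ (hx.2 u hu)
      | inv x _ hx =>
        refine ⟨hx.2, ?_⟩
        rw [inv_inv]
        exact hx.1
    exact fun h hh => (h1 h hh).1
  refine ⟨L0, ?_, ?_, ?_⟩
  · rw [hL0]
    apply Set.Finite.biUnion (Finset.finite_toSet _)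
    intro k _
    exact itS_finite hTfin (comm_finite hfin 1) k
  · intro u hu
    rw [hL0] at hu
    simp only [Set.mem_iUnion] at hu
    obtain ⟨k, hk, hu⟩ := hu
    exact hBL k u hu
  · rw [Subgroup.commutator_le]
    intro x hx y hy
    show x * y * x⁻¹ * y⁻¹ ∈ M
    induction hx, hy using Subgroup.closure_induction₂ with
    | mem x y hx hy => exact hinM 0 _ ⟨x, hx, y, hy, rfl⟩
    | one_left x hx => simp
    | one_right x hx => simp
    | mul_left x y z hx hy hz h1 h2 =>
      have e : x * y * z * (x * y)⁻¹ * z⁻¹ =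
        x * (y * z * y⁻¹ * z⁻¹) * x⁻¹ * (x * z * x⁻¹ * z⁻¹) := by group
      rw [e]
      exact M.mul_mem (hconjH x hx _ h2) h1
    | mul_right y z x hy hz hx h1 h2 =>
      have e : x * (y * z) * x⁻¹ * (y * z)⁻¹ =
        (x * y * x⁻¹ * y⁻¹) * (y * (x * z * x⁻¹ * z⁻¹) * y⁻¹) := by group
      rw [e]
      exact M.mul_mem h1 (hconjH y hy _ h2)
    | inv_left x y hx hy h1 =>
      have e : x⁻¹ * y * x⁻¹⁻¹ * y⁻¹ = x⁻¹ * (x * y * x⁻¹ * y⁻¹)⁻¹ * x⁻¹⁻¹ := by group
      rw [e]
      exact hconjH x⁻¹ (H.inv_mem hx) _ (M.inv_mem h1)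
    | inv_right x y hx hy h1 =>
      have e : x * y⁻¹ * x⁻¹ * y⁻¹⁻¹ = y⁻¹ * (x * y * x⁻¹ * y⁻¹)⁻¹ * y⁻¹⁻¹ := by group
      rw [e]
      exact hconjH y⁻¹ (H.inv_mem hy) _ (M.inv_mem h1)

/-- Theorem E. -/
theorem InX.nilpotent_of_commutator (hG : InX G) {S : Set G} (hfin : S.Finite) (hS : RCGen S)
    (hL : ∀ F : Set G, F.Finite →
      F ⊆ ((⁅Subgroup.closure S, Subgroup.closure S⁆ : Subgroup G) : Set G) →
      Group.IsNilpotent (Subgroup.closure F)) : Group.IsNilpotent G := by
  set H := Subgroup.closure S with hH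
  have key : ∀ N : NilK G, ∃ b : Subgroup G, BiRelConvex b ∧ derivedSeries G 2 ≤ b ∧
      ∃ _ : (N : Subgroup G).Normal,
        b = (rc (derivedSeries (G ⧸ (N : Subgroup G)) 2 : Set (G ⧸ (N : Subgroup G)))).comap
          (QuotientGroup.mk' (N : Subgroup G)) := by
    rintro ⟨N, hN, hNb, hNn⟩
    set D := derivedSeries (G ⧸ N) 2 with hD
    haveI hrn : (rc (D : Set (G ⧸ N))).Normal :=
      rc_normal (fun a ha g => (inferInstance : D.Normal).conj_mem a ha g)
    have hrb : BiRelConvex (rc (D : Set (G ⧸ N))) := biRelConvex_of_nilpotent inferInstance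
      (fun x n hn hx => (relConvex_rc _).isolated hn hx)
    refine ⟨_, hrb.comap _, ?_, hN, rfl⟩
    intro x hx
    apply subset_rc
    show QuotientGroup.mk' N x ∈ D
    rw [hD, ← map_derivedSeries_eq (QuotientGroup.mk'_surjective N)]
    exact ⟨x, hx, rfl⟩
  choose b hb1 hb2 hb3 hb4 using key
  set W : Subgroup G := ⨅ N, b N with hWdef
  have hWb : BiRelConvex W := biRelConvex_iInf hb1
  haveI hWn : W.Normal := hWb.normal
  have hsW : derivedSeries G 2 ≤ W := le_iInf hb2
  have hnilW : Group.IsNilpotent (G ⧸ W) := theoremS 2 (G ⧸ W) (hG.quot hWb)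
    (derivedSeries_quot_eq_bot hsW) _ (hfin.image _) (hS.map (QuotientGroup.mk'_surjective W))
  obtain ⟨n, hn⟩ : ∃ n, (⊤ : Subgroup G).lowerCentralSeries n ≤ W := by
    obtain ⟨n, hn⟩ := Subgroup.nilpotent_iff_lowerCentralSeries.1 hnilW
    refine ⟨n, ?_⟩
    have h3 := Subgroup.map_lowerCentralSeries (⊤ : Subgroup G) (QuotientGroup.mk' W) n
    rw [← MonoidHom.range_eq_map,
      MonoidHom.range_eq_top.2 (QuotientGroup.mk'_surjective W), hn] at h3
    intro x hx
    have h4 : QuotientGroup.mk' W x ∈
        ((⊤ : Subgroup G).lowerCentralSeries n).map (QuotientGroup.mk' W) := ⟨x, hx, rfl⟩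
    rw [h3, Subgroup.mem_bot] at h4
    exact (QuotientGroup.eq_one_iff x).1 h4
  obtain ⟨L0, hL0f, hL0L, hL0M⟩ := exists_gen_commutator hfin hn
  have hΛ : Group.IsNilpotent (Subgroup.closure L0) := hL L0 hL0f hL0L
  obtain ⟨c, hc⟩ : ∃ c, ds (Subgroup.closure L0) c = ⊥ := by
    obtain ⟨c, hc⟩ := (inferInstance : Group.IsSolvable (Subgroup.closure L0)).solvable
    exact ⟨c, by rw [ds_eq, hc, Subgroup.map_bot]⟩
  have hmain : ∀ N : NilK G, derivedSeries G (c + 1) ≤ (N : Subgroup G) := by
    intro N
    haveI hNn : (N : Subgroup G).Normal := hb3 N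
    have hbN := hb4 N
    obtain ⟨N, _, hNb, hNnil⟩ := N
    simp only at hNn hbN ⊢
    obtain ⟨P, hP⟩ := hNb.exists_quotient
    have htf : TF (G ⧸ N) := tf_of_biCone hP
    set π := QuotientGroup.mk' N with hπ
    have hsurj : Function.Surjective π := QuotientGroup.mk'_surjective N
    have hHgen : RCGen ((H.map π : Subgroup (G ⧸ N)) : Set (G ⧸ N)) := by
      apply (hS.map hsurj).mono
      rintro _ ⟨s, hs, rfl⟩
      exact ⟨s, Subgroup.subset_closure hs, rfl⟩
    set Lb : Subgroup (G ⧸ N) := (⁅H, H⁆).map π with hLb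
    set R1 := rc (Lb : Set (G ⧸ N)) with hR1
    have hD1 : derivedSeries (G ⧸ N) 1 ≤ R1 := by
      have h1 := derivedSeries_le_rc hNnil htf hHgen 1
      have h2 : ds (H.map π) 1 = Lb := by
        rw [ds_map]; rfl
      rw [h2] at h1
      exact h1
    have hR1le : R1 ≤ rc (π '' L0) := by
      apply rc_le_of_mod hNnil htf (relConvex_rc _)
      · rintro _ ⟨x, hx, rfl⟩
        exact subset_rc _ ⟨x, hL0L hx, rfl⟩
      · intro C hC hL0C hRC
        apply rc_le hC
        rintro _ ⟨x, hx, rfl⟩
        obtain ⟨a, ha, w, hw, rfl⟩ := Subgroup.mem_sup_of_normal_right.1 (hL0M hx)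
        rw [SetLike.mem_coe, map_mul]
        apply C.mul_mem
        · have h1 : Subgroup.closure L0 ≤ C.comap π := by
            rw [Subgroup.closure_le]
            intro y hy
            exact hL0C ⟨y, hy, rfl⟩
          exact h1 ha
        · have h1 : w ∈ b ⟨N, _, hNb, hNnil⟩ := Subgroup.mem_iInf.1 hw _
          rw [hbN] at h1
          have h2 : rc (derivedSeries (G ⧸ N) 2 : Set (G ⧸ N)) ≤ C := by
            apply rc_le hC
            have h3 : derivedSeries (G ⧸ N) 2 = ⁅derivedSeries (G ⧸ N) 1,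
              derivedSeries (G ⧸ N) 1⁆ := rfl
            rw [h3]
            exact (Subgroup.commutator_mono hD1 hD1).trans hRC
          exact h2 h1
    have hds : ds R1 c = ⊥ := by
      rw [eq_bot_iff]
      have h1 : R1 ≤ rc (((Subgroup.closure L0).map π : Subgroup (G ⧸ N)) : Set (G ⧸ N)) := by
        apply hR1le.trans
        apply rc_le (relConvex_rc _)
        rintro _ ⟨x, hx, rfl⟩
        exact subset_rc _ ⟨x, Subgroup.subset_closure hx, rfl⟩
      refine (ds_mono h1 c).trans ((ds_rc_le hNnil htf _ c).trans ?_)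
      rw [ds_map, hc, Subgroup.map_bot]
      exact rc_le ⟨_, hP.toIsCone.relCone⟩ (le_refl _)
    have h4 : ∀ k, derivedSeries (G ⧸ N) (k + 1) ≤ ds R1 k := by
      intro k
      induction k with
      | zero => exact hD1
      | succ k ih =>
        rw [derivedSeries_succ]
        exact Subgroup.commutator_mono ih ih
    apply derivedSeries_le_of_quot
    rw [eq_bot_iff, ← hds]
    exact h4 c
  apply hG.nilpotent_of_Jr hfin hS
  apply theoremS (c + 1) (G ⧸ Jr G) (hG.quot biRelConvex_Jr) _ _ (hfin.image _)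
    (hS.map (QuotientGroup.mk'_surjective _))
  apply derivedSeries_quot_eq_bot
  rw [Jr]
  apply le_sInf
  intro N hN
  exact hmain ⟨N, hN⟩

end Pool.Agent.Lib.MP_7217b8_al
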