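import Pool.Agent.Lib.MP_7217b8_al_h23.Cls

/-!
# The elementary class with subgroups and quotients
-/

set_option linter.unusedSectionVars false
set_option linter.style.haveILetI false

namespace Pool.Agent.Lib.MP_7217b8_al

universe u v

/-- The smallest class of groups which contains all abelian groups and all periodic groups and is
closed under isomorphisms, subgroups, quotients, extensions and directed unions. -/
inductive Elementary : (H : Type u) → [Group H] → Prop
  | periodic (H : Type u) [Group H] (h : ∀ x : H, ∃ n : ℕ, n ≠ 0 ∧ x ^ n = 1) : Elementary H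
  | abelian (H : Type u) [Group H] (h : ∀ x y : H, x * y = y * x) : Elementary H
  | iso (H K : Type u) [Group H] [Group K] (e : H ≃* K) (h : Elementary H) : Elementary K
  | sub (H : Type u) [Group H] (L : Subgroup H) (h : Elementary H) : Elementary L
  | quotient (H : Type u) [Group H] (N : Subgroup H) [N.Normal] (h : Elementary H) :
      Elementary (H ⧸ N)
  | extension (H : Type u) [Group H] (N : Subgroup H) [N.Normal] (h1 : Elementary N)
      (h2 : Elementary (H ⧸ N)) : Elementary H
  | union (H : Type u) [Group H] (L : Set H → Subgroup H)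
      (hL : ∀ T : Set H, T.Finite → T ⊆ L T) (h : ∀ T : Set H, T.Finite → Elementary (L T)) :
      Elementary H

theorem ElemClass.of_injective {H : Type u} [Group H] (h : ElemClass H) :
    ∀ (K : Type u) [Group K] (φ : K →* H), Function.Injective φ → ElemClass K := by
  induction h with
  | periodic H h =>
    intro K _ φ hφ
    apply ElemClass.periodic
    intro x
    obtain ⟨n, hn, hx⟩ := h (φ x)
    exact ⟨n, hn, hφ (by rw [map_pow, hx, map_one])⟩
  | abelian H h =>
    intro K _ φ hφ
    apply ElemClass.abelian
    intro x y
    exact hφ (by rw [map_mul, map_mul, h])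
  | iso H H' e _ ih =>
    intro K _ φ hφ
    exact ih K (e.symm.toMonoidHom.comp φ) (e.symm.injective.comp hφ)
  | extension H N _ _ ih1 ih2 =>
    intro K _ φ hφ
    apply ElemClass.extension K (N.comap φ)
    · apply ih1 _ (φ.subgroupComap N)
      intro x y hxy
      have h1 := congrArg Subtype.val hxy
      exact Subtype.ext (hφ h1)
    · apply ih2 _ (QuotientGroup.map (N.comap φ) N φ le_rfl)
      rw [injective_iff_map_eq_one]
      intro x hx
      obtain ⟨x, rfl⟩ := QuotientGroup.mk'_surjective _ x
      have h1 : (QuotientGroup.mk' N) (φ x) = 1 := hx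
      have h2 : φ x ∈ N := (QuotientGroup.eq_one_iff _).1 h1
      exact (QuotientGroup.eq_one_iff _).2 h2
  | union H L hL _ ih =>
    intro K _ φ hφ
    apply ElemClass.union K (fun T => (L (φ '' T)).comap φ)
    · intro T hT x hx
      exact hL _ (hT.image _) ⟨x, hx, rfl⟩
    · intro T hT
      apply ih (φ '' T) (hT.image _) _ (φ.subgroupComap _)
      intro x y hxy
      have h1 := congrArg Subtype.val hxy
      exact Subtype.ext (hφ h1)

theorem ElemClass.of_surjective {H : Type u} [Group H] (h : ElemClass H) :
    ∀ (K : Type u) [Group K] (φ : H →* K), Function.Surjective φ → ElemClass K := by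
  induction h with
  | periodic H h =>
    intro K _ φ hφ
    apply ElemClass.periodic
    intro x
    obtain ⟨x, rfl⟩ := hφ x
    obtain ⟨n, hn, hx⟩ := h x
    exact ⟨n, hn, by rw [← map_pow, hx, map_one]⟩
  | abelian H h =>
    intro K _ φ hφ
    apply ElemClass.abelian
    intro x y
    obtain ⟨x, rfl⟩ := hφ x
    obtain ⟨y, rfl⟩ := hφ y
    rw [← map_mul, h, map_mul]
  | iso H H' e _ ih =>
    intro K _ φ hφ
    exact ih K (φ.comp e.toMonoidHom) (hφ.comp e.surjective)
  | extension H N _ _ ih1 ih2 =>
    intro K _ φ hφ
    haveI : (N.map φ).Normal := Subgroup.Normal.map inferInstance φ hφ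
    apply ElemClass.extension K (N.map φ)
    · exact ih1 _ (φ.subgroupMap N) (φ.subgroupMap_surjective N)
    · apply ih2 _ (QuotientGroup.map N (N.map φ) φ (Subgroup.le_comap_map φ N))
      intro x
      obtain ⟨x, rfl⟩ := QuotientGroup.mk'_surjective _ x
      obtain ⟨x, rfl⟩ := hφ x
      exact ⟨QuotientGroup.mk' N x, rfl⟩
  | union H L hL _ ih =>
    intro K _ φ hφ
    choose g hg using hφ
    apply ElemClass.union K (fun T => (L (g '' T)).map φ)
    · intro T hT x hx
      exact ⟨g x, hL _ (hT.image _) ⟨x, hx, rfl⟩, hg x⟩
    · intro T hT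
      exact ih (g '' T) (hT.image _) _ (φ.subgroupMap _) (φ.subgroupMap_surjective _)

theorem elemClass_of_elementary {H : Type u} [Group H] (h : Elementary H) : ElemClass H := by
  induction h with
  | periodic H h => exact ElemClass.periodic H h
  | abelian H h => exact ElemClass.abelian H h
  | iso H K e _ ih => exact ElemClass.iso H K e ih
  | sub H L _ ih => exact ih.of_injective L L.subtype (Subgroup.subtype_injective L)
  | quotient H N _ ih =>
    exact ih.of_surjective (H ⧸ N) (QuotientGroup.mk' N) (QuotientGroup.mk'_surjective N)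
  | extension H N _ _ ih1 ih2 => exact ElemClass.extension H N ih1 ih2
  | union H L hL _ ih => exact ElemClass.union H L hL ih

theorem elementary_of_derivedSeries (n : ℕ) : ∀ (H : Type u) [Group H],
    derivedSeries H n = ⊥ → Elementary H := by
  induction n with
  | zero =>
    intro H _ h
    apply Elementary.abelian
    intro x y
    have h1 : ∀ z : H, z = 1 := by
      intro z
      have h2 : z ∈ derivedSeries H 0 := Subgroup.mem_top z
      rw [h] at h2
      exact Subgroup.mem_bot.1 h2
    rw [h1 x, h1 y]
  | succ n ih =>
    intro H _ h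
    apply Elementary.extension H (derivedSeries H n)
    · apply Elementary.abelian
      intro x y
      apply Subtype.ext
      have h1 : (x : H) * (y : H) * (x : H)⁻¹ * (y : H)⁻¹ ∈ derivedSeries H (n + 1) :=
        Subgroup.commutator_mem_commutator x.2 y.2
      rw [h, Subgroup.mem_bot, mul_inv_eq_one, mul_inv_eq_iff_eq_mul] at h1
      exact h1
    · exact ih _ (derivedSeries_quot_eq_bot le_rfl)

theorem elementary_of_solvable (H : Type u) [Group H] [h : Group.IsSolvable H] :
    Elementary H := by
  obtain ⟨n, hn⟩ := h.solvable
  exact elementary_of_derivedSeries n H hn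

end Pool.Agent.Lib.MP_7217b8_al
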