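import Pool.Agent.Lib.MP_7217b8_al_h23.Pair

/-!
# Finitely generated abelian-by-nilpotent groups with an Engel condition
-/

set_option linter.unusedSectionVars false
set_option linter.style.haveILetI false

namespace Pool.Agent.Lib.MP_7217b8_al

universe u v

variable {G : Type u} [Group G]

theorem pair (hG : InX G) {A : Subgroup G} (hA : A.Normal)
    (hAc : ∀ a ∈ A, ∀ b ∈ A, a * b = b * a) {a : G} (ha : a ∈ A) (f : G) :
    ∃ n, eng f a n = 1 := by
  set D := rc ({a, f} : Set G) with hD
  have haD : a ∈ D := subset_rc _ (by simp)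
  have hfD : f ∈ D := subset_rc _ (by simp)
  haveI := hA
  obtain ⟨n, hn⟩ := pair_aux (hG.sub (relConvex_rc ({a, f} : Set G))) (A := A.subgroupOf D)
    inferInstance (fun x hx y hy => Subtype.ext (hAc _ hx _ hy)) (a := ⟨a, haD⟩) ha ⟨f, hfD⟩
    (by
      apply (rcGen_rc ({a, f} : Set G)).mono
      rintro ⟨x, hx'⟩ hx
      rcases hx with hx | hx
      · left; exact Subtype.ext hx
      · right; exact Subtype.ext hx)
  refine ⟨n, ?_⟩
  have h1 := congrArg D.subtype hn
  rw [← eng_map, map_one] at h1
  exact h1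

section engel

variable {S : Set G}

/-- normal closure of the commutators of weight `k + 1` -/
def NC (S : Set G) (k : ℕ) : Subgroup G := Subgroup.normalClosure (comm S k)

instance (S : Set G) (k : ℕ) : (NC S k).Normal := Subgroup.normalClosure_normal

theorem comm_subset_NC (S : Set G) (k : ℕ) : comm S k ⊆ NC S k := Subgroup.subset_normalClosure

theorem NC_zero (hS : Subgroup.closure S = ⊤) : NC S 0 = ⊤ := by
  rw [eq_top_iff, ← hS, Subgroup.closure_le]
  exact comm_subset_NC S 0

theorem NC_comm (hS : Subgroup.closure S = ⊤) (k : ℕ) :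
    ∀ t ∈ NC S k, ∀ g, g * t * g⁻¹ * t⁻¹ ∈ NC S (k + 1) := by
  have h1 : ∀ t ∈ comm S k, t ∈ (Subgroup.center (G ⧸ NC S (k + 1))).comap
      (QuotientGroup.mk' (NC S (k + 1))) := by
    intro t ht
    have h2 : (Subgroup.centralizer {QuotientGroup.mk' (NC S (k + 1)) t}).comap
        (QuotientGroup.mk' (NC S (k + 1))) = ⊤ := by
      rw [eq_top_iff, ← hS, Subgroup.closure_le]
      intro s hs
      rw [SetLike.mem_coe, Subgroup.mem_comap, Subgroup.mem_centralizer_singleton_iff]
      have h3 : QuotientGroup.mk' (NC S (k + 1)) (s * t * s⁻¹ * t⁻¹) = 1 :=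
        (QuotientGroup.eq_one_iff _).2 (comm_subset_NC S (k + 1) ⟨s, hs, t, ht, rfl⟩)
      rwa [map_mul, map_mul, map_mul, map_inv, map_inv, mul_inv_eq_one,
        mul_inv_eq_iff_eq_mul] at h3
    rw [Subgroup.mem_comap, Subgroup.mem_center_iff]
    intro g
    obtain ⟨g, rfl⟩ := QuotientGroup.mk'_surjective _ g
    have h3 : g ∈ (Subgroup.centralizer {QuotientGroup.mk' (NC S (k + 1)) t}).comap
        (QuotientGroup.mk' (NC S (k + 1))) := h2 ▸ Subgroup.mem_top g
    rw [Subgroup.mem_comap, Subgroup.mem_centralizer_singleton_iff] at h3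
    exact h3
  haveI : ((Subgroup.center (G ⧸ NC S (k + 1))).comap
      (QuotientGroup.mk' (NC S (k + 1)))).Normal := Subgroup.Normal.comap inferInstance _
  have h4 : NC S k ≤ (Subgroup.center (G ⧸ NC S (k + 1))).comap
      (QuotientGroup.mk' (NC S (k + 1))) := Subgroup.normalClosure_le_normal h1
  intro t ht g
  have h5 := h4 ht
  rw [Subgroup.mem_comap, Subgroup.mem_center_iff] at h5
  have h6 := h5 (QuotientGroup.mk' _ g)
  rw [← QuotientGroup.eq_one_iff]
  show QuotientGroup.mk' (NC S (k + 1)) (g * t * g⁻¹ * t⁻¹) = 1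
  rw [map_mul, map_mul, map_mul, map_inv, map_inv, mul_inv_eq_one, mul_inv_eq_iff_eq_mul]
  exact h6

theorem NC_succ_le (k : ℕ) : NC S (k + 1) ≤ NC S k := by
  apply Subgroup.normalClosure_le_normal
  rintro _ ⟨s, hs, t, ht, rfl⟩
  have h1 := comm_subset_NC S k ht
  exact (NC S k).mul_mem ((inferInstance : (NC S k).Normal).conj_mem _ h1 s)
    ((NC S k).inv_mem h1)

theorem NC_le_closure (hS : Subgroup.closure S = ⊤) (k : ℕ) :
    NC S k ≤ Subgroup.closure (comm S k ∪ (NC S (k + 1) : Set G)) := by
  set M := Subgroup.closure (comm S k ∪ (NC S (k + 1) : Set G)) with hM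
  have h1 : M ≤ NC S k := by
    rw [hM, Subgroup.closure_le]
    apply Set.union_subset (comm_subset_NC S k)
    exact NC_succ_le k
  haveI : M.Normal := by
    constructor
    intro x hx g
    have h2 : g * x * g⁻¹ * x⁻¹ ∈ M :=
      Subgroup.subset_closure (Or.inr (NC_comm hS k x (h1 hx) g))
    have h3 := M.mul_mem h2 hx
    simpa using h3
  exact Subgroup.normalClosure_le_normal (fun t ht => Subgroup.subset_closure (Or.inl ht))

theorem engel_aux (hfin : S.Finite) (hS : Subgroup.closure S = ⊤) {A : Subgroup G}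
    (hA : A.Normal) (hAc : ∀ a ∈ A, ∀ b ∈ A, a * b = b * a) {m : ℕ}
    (hm : ∀ t ∈ comm S m, t ∈ A) (heng : ∀ a ∈ A, ∀ x, ∃ n, eng x a n = 1)
    (hZ : ∀ a ∈ A, a ∈ Subgroup.center G → a = 1) : ∀ a ∈ A, a = 1 := by
  classical
  by_contra hcon
  push Not at hcon
  obtain ⟨a, ha, ha1⟩ := hcon
  have key : ∀ d k : ℕ, k + d = m → ∃ v ∈ A, v ≠ 1 ∧ ∀ x ∈ NC S k, v * x = x * v := by
    intro d
    induction d with
    | zero =>
      intro k hk
      have hk' : k = m := by omega
      subst hk'
      have h1 : NC S k ≤ A := Subgroup.normalClosure_le_normal hm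
      exact ⟨a, ha, ha1, fun x hx => hAc a ha x (h1 hx)⟩
    | succ d ih =>
      intro k hk
      obtain ⟨v, hv, hv1, hvc⟩ := ih (k + 1) (by omega)
      have inner : ∀ T : Finset G, (∀ x ∈ T, x ∈ NC S k) → ∃ v ∈ A, v ≠ 1 ∧
          (∀ x ∈ NC S (k + 1), v * x = x * v) ∧ ∀ x ∈ T, v * x = x * v := by
        intro T
        induction T using Finset.induction_on with
        | empty => exact fun _ => ⟨v, hv, hv1, hvc, by simp⟩
        | insert y T _ ihT =>
          intro hT
          obtain ⟨w, hw, hw1, hwc, hwT⟩ := ihT (fun x hx => hT x (Finset.mem_insert_of_mem hx))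
          have hex := heng w hw y
          have hn1 := Nat.find_spec hex
          have hn2 : ∀ j, j < Nat.find hex → eng y w j ≠ 1 := fun j hj => Nat.find_min hex hj
          set n := Nat.find hex with hn
          have hn0 : n ≠ 0 := by
            intro h0
            rw [h0] at hn1
            exact hw1 hn1
          obtain ⟨j, hj⟩ := Nat.exists_eq_succ_of_ne_zero hn0
          have hprop : ∀ i, (∀ x ∈ NC S (k + 1), eng y w i * x = x * eng y w i) ∧
              ∀ x ∈ T, eng y w i * x = x * eng y w i := by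
            intro i
            induction i with
            | zero => exact ⟨hwc, hwT⟩
            | succ i ihi =>
              obtain ⟨h1, h2⟩ := ihi
              set u := eng y w i with hu
              have h3 : ∀ x ∈ NC S (k + 1), Commute (y * u * y⁻¹) x := by
                intro x hx
                have hx' : y⁻¹ * x * y ∈ NC S (k + 1) := by
                  have := (inferInstance : (NC S (k + 1)).Normal).conj_mem _ hx y⁻¹
                  simpa using this
                have h4 := h1 _ hx'
                show y * u * y⁻¹ * x = x * (y * u * y⁻¹)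
                calc y * u * y⁻¹ * x = y * (u * (y⁻¹ * x * y)) * y⁻¹ := by group
                  _ = y * ((y⁻¹ * x * y) * u) * y⁻¹ := by rw [h4]
                  _ = x * (y * u * y⁻¹) := by group
              constructor
              · intro x hx
                have h5 : Commute u x := h1 x hx
                have h6 : Commute (y * u * y⁻¹ * u⁻¹) x := (h3 x hx).mul_left h5.inv_left
                exact h6.eq
              · intro x hx
                have h5 : Commute u x := h2 x hx
                have hy : y ∈ NC S k := hT y (Finset.mem_insert_self _ _)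
                have hxk : x ∈ NC S k := hT x (Finset.mem_insert_of_mem hx)
                have hc : x * y * x⁻¹ * y⁻¹ ∈ NC S (k + 1) := NC_comm hS k y hy x
                set c := x * y * x⁻¹ * y⁻¹ with hcdef
                have h7 : Commute (y * u * y⁻¹) x := by
                  have h8 : x * (y * u * y⁻¹) * x⁻¹ = y * u * y⁻¹ := by
                    have h9 : c * (y * u * y⁻¹) * c⁻¹ = y * u * y⁻¹ := by
                      rw [← (h3 c hc).eq]; group
                    have h10 : x * u * x⁻¹ = u := by rw [← h5.eq]; group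
                    have h11 : x * y = c * (y * x) := by rw [hcdef]; group
                    calc x * (y * u * y⁻¹) * x⁻¹ = (x * y) * u * (x * y)⁻¹ := by group
                      _ = (c * (y * x)) * u * (c * (y * x))⁻¹ := by rw [h11]
                      _ = c * (y * (x * u * x⁻¹) * y⁻¹) * c⁻¹ := by group
                      _ = c * (y * u * y⁻¹) * c⁻¹ := by rw [h10]
                      _ = y * u * y⁻¹ := h9
                  show y * u * y⁻¹ * x = x * (y * u * y⁻¹)
                  conv_lhs => rw [← h8]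
                  group
                have h6 : Commute (y * u * y⁻¹ * u⁻¹) x := h7.mul_left h5.inv_left
                exact h6.eq
          refine ⟨eng y w j, eng_mem hA hw y j, hn2 j (by omega), (hprop j).1, ?_⟩
          intro x hx
          rcases Finset.mem_insert.1 hx with rfl | hx
          · rw [hj] at hn1
            have h1 : x * eng x w j * x⁻¹ * (eng x w j)⁻¹ = 1 := hn1
            rw [mul_inv_eq_one, mul_inv_eq_iff_eq_mul] at h1
            exact h1.symm
          · exact (hprop j).2 x hx
      obtain ⟨w, hw, hw1, hwc, hwT⟩ := inner (comm_finite hfin k).toFinset (by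
        intro x hx
        rw [Set.Finite.mem_toFinset] at hx
        exact comm_subset_NC S k hx)
      refine ⟨w, hw, hw1, ?_⟩
      have h1 : NC S k ≤ Subgroup.centralizer {w} := by
        apply (NC_le_closure hS k).trans
        rw [Subgroup.closure_le]
        rintro x (hx | hx)
        · rw [SetLike.mem_coe, Subgroup.mem_centralizer_singleton_iff]
          exact (hwT x ((Set.Finite.mem_toFinset _).2 hx)).symm
        · rw [SetLike.mem_coe, Subgroup.mem_centralizer_singleton_iff]
          exact (hwc x hx).symm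
      intro x hx
      have := h1 hx
      rw [Subgroup.mem_centralizer_singleton_iff] at this
      exact this.symm
  obtain ⟨v, hv, hv1, hvc⟩ := key m 0 (by omega)
  apply hv1
  apply hZ v hv
  rw [Subgroup.mem_center_iff]
  intro g
  exact (hvc g (by rw [NC_zero hS]; exact Subgroup.mem_top g)).symm

/-- the union of the upper central series -/
def Zo (G : Type u) [Group G] : Subgroup G where
  carrier := {x | ∃ k, x ∈ Subgroup.upperCentralSeries G k}
  mul_mem' := by
    rintro x y ⟨k, hk⟩ ⟨l, hl⟩
    exact ⟨max k l, Subgroup.mul_mem _ (Subgroup.upperCentralSeries_mono G (le_max_left _ _) hk)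
      (Subgroup.upperCentralSeries_mono G (le_max_right _ _) hl)⟩
  one_mem' := ⟨0, Subgroup.one_mem _⟩
  inv_mem' := by
    rintro x ⟨k, hk⟩
    exact ⟨k, Subgroup.inv_mem _ hk⟩

theorem mem_Zo {x : G} : x ∈ Zo G ↔ ∃ k, x ∈ Subgroup.upperCentralSeries G k := Iff.rfl

instance : (Zo G).Normal := by
  constructor
  rintro x ⟨k, hk⟩ g
  exact ⟨k, (inferInstance : (Subgroup.upperCentralSeries G k).Normal).conj_mem _ hk g⟩

theorem exists_common {T : Set G} (hT : T.Finite) (h : ∀ t ∈ T, t ∈ Zo G) :
    ∃ K, ∀ t ∈ T, t ∈ Subgroup.upperCentralSeries G K := by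
  induction T, hT using Set.Finite.induction_on with
  | empty => exact ⟨0, by simp⟩
  | insert _ _ ih =>
    obtain ⟨K, hK⟩ := ih (fun t ht => h t (Set.mem_insert_of_mem _ ht))
    obtain ⟨L, hL⟩ := h _ (Set.mem_insert _ _)
    refine ⟨max K L, ?_⟩
    intro t ht
    rcases ht with rfl | ht
    · exact Subgroup.upperCentralSeries_mono G (le_max_right _ _) hL
    · exact Subgroup.upperCentralSeries_mono G (le_max_left _ _) (hK t ht)

theorem mem_Zo_of_gen (hfin : S.Finite) (hS : Subgroup.closure S = ⊤) {v : G}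
    (h : ∀ s ∈ S, v * s * v⁻¹ * s⁻¹ ∈ Zo G) : v ∈ Zo G := by
  obtain ⟨K, hK⟩ := exists_common (T := (fun s => v * s * v⁻¹ * s⁻¹) '' S) (hfin.image _) (by
    rintro _ ⟨s, hs, rfl⟩
    exact h s hs)
  refine ⟨K + 1, ?_⟩
  rw [Subgroup.mem_upperCentralSeries_succ_iff]
  have h2 : (Subgroup.centralizer {QuotientGroup.mk' (Subgroup.upperCentralSeries G K) v}).comap
      (QuotientGroup.mk' (Subgroup.upperCentralSeries G K)) = ⊤ := by
    rw [eq_top_iff, ← hS, Subgroup.closure_le]
    intro s hs
    rw [SetLike.mem_coe, Subgroup.mem_comap, Subgroup.mem_centralizer_singleton_iff]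
    have h3 : QuotientGroup.mk' (Subgroup.upperCentralSeries G K) (v * s * v⁻¹ * s⁻¹) = 1 :=
      (QuotientGroup.eq_one_iff _).2 (hK _ ⟨s, hs, rfl⟩)
    rw [map_mul, map_mul, map_mul, map_inv, map_inv, mul_inv_eq_one,
      mul_inv_eq_iff_eq_mul] at h3
    exact h3.symm
  intro y
  have h3 : y ∈ (Subgroup.centralizer
      {QuotientGroup.mk' (Subgroup.upperCentralSeries G K) v}).comap
      (QuotientGroup.mk' (Subgroup.upperCentralSeries G K)) := h2 ▸ Subgroup.mem_top y
  rw [Subgroup.mem_comap, Subgroup.mem_centralizer_singleton_iff] at h3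
  rw [← QuotientGroup.eq_one_iff]
  show QuotientGroup.mk' (Subgroup.upperCentralSeries G K) (v * y * v⁻¹ * y⁻¹) = 1
  rw [map_mul, map_mul, map_mul, map_inv, map_inv, mul_inv_eq_one, mul_inv_eq_iff_eq_mul]
  exact h3.symm

theorem engel (hfin : S.Finite) (hS : Subgroup.closure S = ⊤) {A : Subgroup G}
    (hA : A.Normal) (hAc : ∀ a ∈ A, ∀ b ∈ A, a * b = b * a) {m : ℕ}
    (hm : ∀ t ∈ comm S m, t ∈ A) (heng : ∀ a ∈ A, ∀ x, ∃ n, eng x a n = 1) :
    Group.IsNilpotent G := by
  have hcen : ∀ v : G, QuotientGroup.mk' (Zo G) v ∈ Subgroup.center (G ⧸ Zo G) →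
      QuotientGroup.mk' (Zo G) v = 1 := by
    intro v hv
    apply (QuotientGroup.eq_one_iff v).2
    apply mem_Zo_of_gen hfin hS
    intro s _
    rw [Subgroup.mem_center_iff] at hv
    have h1 := hv (QuotientGroup.mk' (Zo G) s)
    rw [← QuotientGroup.eq_one_iff]
    show QuotientGroup.mk' (Zo G) (v * s * v⁻¹ * s⁻¹) = 1
    rw [map_mul, map_mul, map_mul, map_inv, map_inv, mul_inv_eq_one, mul_inv_eq_iff_eq_mul]
    exact h1.symm
  have hclos : Subgroup.closure (QuotientGroup.mk' (Zo G) '' S) = ⊤ := by
    rw [← MonoidHom.map_closure, hS, ← MonoidHom.range_eq_map, MonoidHom.range_eq_top]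
    exact QuotientGroup.mk'_surjective _
  have h1 := engel_aux (G := G ⧸ Zo G) (S := QuotientGroup.mk' (Zo G) '' S) (hfin.image _)
    hclos (A := A.map (QuotientGroup.mk' (Zo G))) (hA.map _ (QuotientGroup.mk'_surjective _))
    (by
      rintro _ ⟨x, hx, rfl⟩ _ ⟨y, hy, rfl⟩
      rw [← map_mul, hAc x hx y hy, map_mul]) (m := m)
    (by
      intro t ht
      rw [comm_map] at ht
      obtain ⟨t, ht, rfl⟩ := ht
      exact ⟨t, hm t ht, rfl⟩)
    (by
      rintro _ ⟨a, ha, rfl⟩ x
      obtain ⟨x, rfl⟩ := QuotientGroup.mk'_surjective _ x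
      obtain ⟨n, hn⟩ := heng a ha x
      exact ⟨n, by rw [eng_map, hn, map_one]⟩)
    (by
      rintro _ ⟨a, ha, rfl⟩ hc
      exact hcen a hc)
  have h2 : Group.IsNilpotent (G ⧸ Zo G) := by
    apply nilpotent_of_comm m _ _ hclos
    intro t ht
    rw [comm_map] at ht
    obtain ⟨t, ht, rfl⟩ := ht
    exact h1 _ ⟨t, hm t ht, rfl⟩
  have h3 : Subsingleton (G ⧸ Zo G) := by
    by_contra hns
    rw [not_subsingleton_iff_nontrivial] at hns
    apply Group.IsNilpotent.center_ne_bot (G := G ⧸ Zo G)
    rw [eq_bot_iff]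
    intro x hx
    obtain ⟨x, rfl⟩ := QuotientGroup.mk'_surjective _ x
    exact hcen x hx
  obtain ⟨K, hK⟩ := exists_common hfin (fun s _ => by
    have : QuotientGroup.mk' (Zo G) s = 1 := Subsingleton.elim _ _
    exact (QuotientGroup.eq_one_iff s).1 this)
  refine ⟨K, ?_⟩
  rw [eq_top_iff, ← hS, Subgroup.closure_le]
  exact hK

end engel

end Pool.Agent.Lib.MP_7217b8_al
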