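import Pool.Agent.Lib.MP_7217b8_al_h23.Center

/-!
# Nilpotency criteria

Groups in the class `InX` generated, as relatively convex subgroups, by a set whose long
commutators vanish are nilpotent.
-/

set_option linter.unusedSectionVars false
set_option linter.style.haveILetI false

namespace Pool.Agent.Lib.MP_7217b8_al

universe u v

variable {G : Type u} [Group G]

theorem InX.biRelConvex_center (h : InX G) : BiRelConvex (Subgroup.center G) := by
  obtain ⟨P, hP⟩ := h.bi
  letI := hP.linearOrder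
  haveI := hP.mulLeftMono
  haveI := hP.mulRightMono
  exact Pool.Agent.Lib.MP_7217b8_al.biRelConvex_center
    (fun f g hg => conj_lt_sq h.conrad f g hg)

theorem InX.quot_center (h : InX G) : InX (G ⧸ Subgroup.center G) :=
  h.quot h.biRelConvex_center

/-- left-normed commutators of weight `n + 1` in the elements of `S` -/
def comm (S : Set G) : ℕ → Set G
  | 0 => S
  | n + 1 => {x | ∃ s ∈ S, ∃ t ∈ comm S n, x = s * t * s⁻¹ * t⁻¹}

theorem comm_finite {S : Set G} (hS : S.Finite) (n : ℕ) : (comm S n).Finite := by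
  induction n with
  | zero => exact hS
  | succ k ih =>
    have : comm S (k + 1) =
        (fun p : G × G => p.1 * p.2 * p.1⁻¹ * p.2⁻¹) '' (S ×ˢ comm S k) := by
      ext x
      constructor
      · rintro ⟨s, hs, t, ht, rfl⟩
        exact ⟨(s, t), ⟨hs, ht⟩, rfl⟩
      · rintro ⟨⟨s, t⟩, ⟨hs, ht⟩, rfl⟩
        exact ⟨s, hs, t, ht, rfl⟩
    rw [this]
    exact (hS.prod ih).image _

theorem comm_map {H : Type v} [Group H] (φ : G →* H) (S : Set G) (n : ℕ) :
    comm (φ '' S) n = φ '' comm S n := by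
  induction n with
  | zero => rfl
  | succ k ih =>
    ext x
    constructor
    · rintro ⟨_, ⟨s, hs, rfl⟩, t, ht, rfl⟩
      rw [ih] at ht
      obtain ⟨t, ht, rfl⟩ := ht
      exact ⟨_, ⟨s, hs, t, ht, rfl⟩, by simp⟩
    · rintro ⟨_, ⟨s, hs, t, ht, rfl⟩, rfl⟩
      exact ⟨φ s, ⟨s, hs, rfl⟩, φ t, by rw [ih]; exact ⟨t, ht, rfl⟩, by simp⟩

theorem comm_subset_lcs (S : Set G) (n : ℕ) :
    comm S n ⊆ (⊤ : Subgroup G).lowerCentralSeries n := by
  induction n with
  | zero => intro x _; trivial
  | succ k ih =>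
    rintro _ ⟨s, hs, t, ht, rfl⟩
    rw [Subgroup.lowerCentralSeries_succ, Subgroup.commutator_comm]
    exact Subgroup.commutator_mem_commutator (Subgroup.mem_top s) (ih ht)

theorem comm_eq_one_of_nilpotent (h : Group.IsNilpotent G) (S : Set G) :
    ∃ n, ∀ t ∈ comm S n, t = 1 := by
  obtain ⟨n, hn⟩ := Subgroup.nilpotent_iff_lowerCentralSeries.1 h
  refine ⟨n, fun t ht => ?_⟩
  have := comm_subset_lcs S n ht
  rw [hn] at this
  exact Subgroup.mem_bot.1 this

theorem comm_mem_of_nilpotent {N : Subgroup G} [N.Normal] (h : Group.IsNilpotent (G ⧸ N))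
    (S : Set G) : ∃ n, ∀ t ∈ comm S n, t ∈ N := by
  obtain ⟨n, hn⟩ := comm_eq_one_of_nilpotent h (QuotientGroup.mk' N '' S)
  refine ⟨n, fun t ht => ?_⟩
  rw [← QuotientGroup.eq_one_iff]
  apply hn
  rw [comm_map]
  exact ⟨t, ht, rfl⟩

theorem comm_succ_of_trivial {S : Set G} {n : ℕ} (h : ∀ t ∈ comm S n, t = 1) :
    ∀ t ∈ comm S (n + 1), t = 1 := by
  rintro _ ⟨s, hs, t, ht, rfl⟩
  rw [h t ht]
  simp

theorem comm_trivial_of_le {S : Set G} {n m : ℕ} (hnm : n ≤ m) (h : ∀ t ∈ comm S n, t = 1) :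
    ∀ t ∈ comm S m, t = 1 := by
  induction m, hnm using Nat.le_induction with
  | base => exact h
  | succ m _ ih => exact comm_succ_of_trivial ih

/-- auxiliary: the last nontrivial commutators commute with the generators -/
theorem comm_commute {S : Set G} {n : ℕ} (h : ∀ t ∈ comm S (n + 1), t = 1) {t : G}
    (ht : t ∈ comm S n) {s : G} (hs : s ∈ S) : s * t = t * s := by
  have := h _ ⟨s, hs, t, ht, rfl⟩
  rwa [mul_inv_eq_one, mul_inv_eq_iff_eq_mul] at this

theorem image_mk_trivial {S : Set G} {n : ℕ} {N : Subgroup G} [N.Normal]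
    (h : ∀ t ∈ comm S n, t ∈ N) : ∀ t ∈ comm (QuotientGroup.mk' N '' S) n, t = 1 := by
  intro t ht
  rw [comm_map] at ht
  obtain ⟨t, ht, rfl⟩ := ht
  exact (QuotientGroup.eq_one_iff _).2 (h t ht)

/-- Lemma A: an `InX` group generated as a relatively convex subgroup by a set whose long
commutators vanish is nilpotent. -/
theorem InX.nilpotent_of_comm (n : ℕ) : ∀ (G : Type u) [Group G] (_ : InX G) (S : Set G)
    (_ : RCGen S) (_ : ∀ t ∈ comm S n, t = 1), Group.IsNilpotent G := by
  induction n with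
  | zero =>
    intro G _ hG S hS h
    obtain ⟨P, hP⟩ := hG.bi
    have h1 : (⊥ : Subgroup G) = ⊤ := by
      apply hS _ ⟨_, hP.toIsCone.relCone⟩
      intro s hs
      exact h s hs
    haveI : Subsingleton G := (Subgroup.subsingleton_iff).1 (subsingleton_of_bot_eq_top h1)
    infer_instance
  | succ n ih =>
    intro G _ hG S hS h
    obtain ⟨P, hP⟩ := hG.bi
    have h1 : ∀ t ∈ comm S n, t ∈ Subgroup.center G := by
      intro t ht
      have h2 : Subgroup.centralizer {t} = ⊤ := by
        apply hS _ (relConvex_centralizer hP _)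
        intro s hs
        rw [SetLike.mem_coe, Subgroup.mem_centralizer_singleton_iff]
        exact comm_commute h ht hs
      rw [Subgroup.mem_center_iff]
      intro g
      have h3 : g ∈ Subgroup.centralizer {t} := h2 ▸ Subgroup.mem_top g
      rw [Subgroup.mem_centralizer_singleton_iff] at h3
      exact h3
    apply Group.of_quotient_center_nilpotent
    exact ih _ hG.quot_center _ (hS.map (QuotientGroup.mk'_surjective _)) (image_mk_trivial h1)

/-- The same for ordinary generation. -/
theorem nilpotent_of_comm (n : ℕ) : ∀ (G : Type u) [Group G] (S : Set G)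
    (_ : Subgroup.closure S = ⊤) (_ : ∀ t ∈ comm S n, t = 1), Group.IsNilpotent G := by
  induction n with
  | zero =>
    intro G _ S hS h
    have h1 : (⊥ : Subgroup G) = ⊤ := by
      rw [← hS, eq_comm, Subgroup.closure_eq_bot_iff]
      intro s hs
      exact h s hs
    haveI : Subsingleton G := (Subgroup.subsingleton_iff).1 (subsingleton_of_bot_eq_top h1)
    infer_instance
  | succ n ih =>
    intro G _ S hS h
    have h1 : ∀ t ∈ comm S n, t ∈ Subgroup.center G := by
      intro t ht
      have h2 : Subgroup.centralizer {t} = ⊤ := by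
        rw [eq_top_iff, ← hS, Subgroup.closure_le]
        intro s hs
        rw [SetLike.mem_coe, Subgroup.mem_centralizer_singleton_iff]
        exact comm_commute h ht hs
      rw [Subgroup.mem_center_iff]
      intro g
      have h3 : g ∈ Subgroup.centralizer {t} := h2 ▸ Subgroup.mem_top g
      rw [Subgroup.mem_centralizer_singleton_iff] at h3
      exact h3
    apply Group.of_quotient_center_nilpotent
    refine ih _ (QuotientGroup.mk' _ '' S) ?_ (image_mk_trivial h1)
    rw [← MonoidHom.map_closure, hS, ← MonoidHom.range_eq_map, MonoidHom.range_eq_top]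
    exact QuotientGroup.mk'_surjective _

theorem InX.nilpotent_quot (h : InX G) {S : Set G} (hS : RCGen S) {N : Subgroup G} [N.Normal]
    (hN : BiRelConvex N) {n : ℕ} (hn : ∀ t ∈ comm S n, t ∈ N) : Group.IsNilpotent (G ⧸ N) :=
  InX.nilpotent_of_comm n _ (h.quot hN) _ (hS.map (QuotientGroup.mk'_surjective _))
    (image_mk_trivial hn)

/-- quotients by larger and larger subgroups with central factor -/
theorem nilpotent_of_central_factor {M N : Subgroup G} [M.Normal] [N.Normal] (hMN : M ≤ N)
    (hc : ∀ x ∈ N, ∀ g, g * x * g⁻¹ * x⁻¹ ∈ M) (h : Group.IsNilpotent (G ⧸ N)) :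
    Group.IsNilpotent (G ⧸ M) := by
  have key : ∀ x : G, x ∈ N → (QuotientGroup.mk x : G ⧸ M) ∈ Subgroup.center (G ⧸ M) := by
    intro x hx
    rw [Subgroup.mem_center_iff]
    intro g
    obtain ⟨g, rfl⟩ := QuotientGroup.mk'_surjective M g
    have h1 := (QuotientGroup.eq_one_iff (N := M) _).2 (hc x hx g)
    rw [QuotientGroup.mk_mul, QuotientGroup.mk_mul, QuotientGroup.mk_mul, QuotientGroup.mk_inv,
      QuotientGroup.mk_inv, mul_inv_eq_one, mul_inv_eq_iff_eq_mul] at h1
    exact h1
  apply Subgroup.isNilpotent_of_ker_le_center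
    (QuotientGroup.map M N (MonoidHom.id G) (by simpa using hMN))
  intro x hx
  obtain ⟨x, rfl⟩ := QuotientGroup.mk'_surjective M x
  apply key
  rw [MonoidHom.mem_ker] at hx
  exact (QuotientGroup.eq_one_iff (N := N) _).1 hx

/-- Theorem B. -/
theorem InX.theoremB (h : InX G) {S : Set G} (hfin : S.Finite) (hS : RCGen S) (n : ℕ)
    (hn : ∀ (N : Subgroup G) [N.Normal], BiRelConvex N → Group.IsNilpotent (G ⧸ N) →
      ∀ t ∈ comm S n, t ∈ N) : Group.IsNilpotent G := by
  obtain ⟨P, hP⟩ := h.bi
  letI := hP.linearOrder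
  haveI := hP.mulLeftMono
  haveI := hP.mulRightMono
  have hctl : Ctl G := fun f g hg => conj_lt_sq h.conrad f g hg
  by_cases htriv : ∀ t ∈ comm S n, t = 1
  · exact InX.nilpotent_of_comm n _ h S hS htriv
  exfalso
  push Not at htriv
  obtain ⟨t1, ht1, ht1'⟩ := htriv
  obtain ⟨t0, ht0, hmax⟩ := Set.exists_max_image (comm S n) (fun t => max t t⁻¹)
    (comm_finite hfin n) ⟨t1, ht1⟩
  have hpos : ∀ t : G, t ≠ 1 → 1 < max t t⁻¹ := by
    intro t ht
    rcases lt_trichotomy t 1 with h1 | h1 | h1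
    · exact lt_max_of_lt_right (Left.one_lt_inv_iff.2 h1)
    · exact absurd h1 ht
    · exact lt_max_of_lt_left h1
  have hg : 1 < max t0 t0⁻¹ := (hpos t1 ht1').trans_le (hmax t1 ht1)
  set g := max t0 t0⁻¹ with hgdef
  haveI := normal_Ep hctl hg
  haveI := normal_Em hctl hg
  have h1 : ∀ t ∈ comm S n, t ∈ Ep g hg := by
    intro t ht
    have := hmax t ht
    exact ⟨1, by rw [pow_one]; exact (le_max_left _ _).trans this,
      by rw [pow_one]; exact (le_max_right _ _).trans this⟩
  have h2 : Group.IsNilpotent (G ⧸ Ep g hg) :=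
    h.nilpotent_quot hS ((ordConv_Ep hg).biRelConvex inferInstance) h1
  have h3 : Group.IsNilpotent (G ⧸ Em g hg) :=
    nilpotent_of_central_factor (Em_le_Ep hg) (fun x hx f => ctl_comm_mem hctl hg hx f) h2
  have h4 := hn (Em g hg) ((ordConv_Em hg).biRelConvex inferInstance) h3 t0 ht0
  have h6 : ∀ y : G, y = t0 → y ∈ Em g hg := fun y hy => by rw [hy]; exact h4
  have h7 : ∀ y : G, y = t0⁻¹ → y ∈ Em g hg := fun y hy => by
    rw [hy]; exact (Em g hg).inv_mem h4
  apply self_notMem_Em hg
  rcases max_choice t0 t0⁻¹ with h5 | h5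
  · exact h6 _ h5
  · exact h7 _ h5

end Pool.Agent.Lib.MP_7217b8_al
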