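import Pool.Agent.Lib.MP_7217b8_al_h23.Basic

/-!
# Two-sided orders as instances; all two-sided orders are central
-/

set_option linter.unusedSectionVars false
set_option linter.style.haveILetI false

namespace Pool.Agent.Lib.MP_7217b8_al

universe u v

variable {G : Type u} [Group G]

set_option warn.classDefReducibility false in
open Classical in
/-- The linear order defined by a two-sided cone. -/
noncomputable def IsBiCone.linearOrder {P : Set G} (h : IsBiCone P) : LinearOrder G where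
  le a b := a = b ∨ b * a⁻¹ ∈ P
  lt a b := b * a⁻¹ ∈ P
  le_refl a := Or.inl rfl
  le_trans a b c := by
    rintro (rfl | h1) (rfl | h2)
    · exact Or.inl rfl
    · exact Or.inr h2
    · exact Or.inr h1
    · right
      have := h.mul _ h2 _ h1
      simpa [mul_assoc] using this
  lt_iff_le_not_ge a b := by
    constructor
    · intro h1
      refine ⟨Or.inr h1, ?_⟩
      rintro (rfl | h2)
      · rw [mul_inv_cancel] at h1
        exact h.toIsCone.one_notMem h1
      · apply h.inv _ h1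
        simpa using h2
    · rintro ⟨rfl | h1, h2⟩
      · exact absurd (Or.inl rfl) h2
      · exact h1
  le_antisymm a b := by
    rintro (rfl | h1) (h2 | h2)
    · rfl
    · rfl
    · exact h2.symm
    · exfalso
      apply h.inv _ h1
      simpa using h2
  le_total a b := by
    by_cases hab : a = b
    · exact Or.inl (Or.inl hab)
    · have hne : b * a⁻¹ ≠ 1 := fun h1 => hab (mul_inv_eq_one.1 h1).symm
      rcases h.total _ hne with h1 | h1
      · exact Or.inl (Or.inr h1)
      · exact Or.inr (Or.inr (by simpa using h1))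
  toDecidableLE := fun _ _ => Classical.propDecidable _

theorem IsBiCone.mulLeftMono {P : Set G} (h : IsBiCone P) :
    @MulLeftMono G _ h.linearOrder.toLE := by
  constructor
  rintro a b c (rfl | h1)
  · exact Or.inl rfl
  · right
    have := h.conj _ h1 a
    have e : a * (c * b⁻¹) * a⁻¹ = a * c * (a * b)⁻¹ := by group
    rwa [e] at this

theorem IsBiCone.mulRightMono {P : Set G} (h : IsBiCone P) :
    @MulRightMono G _ h.linearOrder.toLE := by
  constructor
  rintro a b c (rfl | h1)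
  · exact Or.inl rfl
  · right
    have e : c * b⁻¹ = c * a * (b * a)⁻¹ := by group
    rw [e] at h1
    exact h1

theorem IsBiCone.one_lt_iff {P : Set G} (h : IsBiCone P) (a : G) :
    h.linearOrder.lt 1 a ↔ a ∈ P := by
  show a * 1⁻¹ ∈ P ↔ a ∈ P
  simp

section ordered

variable [LinearOrder G] [MulLeftMono G] [MulRightMono G]

theorem isBiCone_pos : IsBiCone {g : G | 1 < g} where
  mul := fun a ha b hb => by
    simp only [Set.mem_ofPred_eq] at *
    calc (1 : G) < a := ha
      _ = a * 1 := (mul_one a).symm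
      _ < a * b := by
        apply mul_lt_mul_right
        exact hb
  inv := fun a ha hb => by
    simp only [Set.mem_ofPred_eq] at *
    exact absurd (Left.one_lt_inv_iff.1 hb) (not_lt.2 ha.le)
  total := fun a ha => by
    rcases lt_trichotomy a 1 with h1 | h1 | h1
    · exact Or.inr (Left.one_lt_inv_iff.2 h1)
    · exact absurd h1 ha
    · exact Or.inl h1
  conj := fun a ha g => by
    simp only [Set.mem_ofPred_eq] at *
    calc (1 : G) = g * 1 * g⁻¹ := by group
      _ < g * a * g⁻¹ := by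
        apply mul_lt_mul_left
        apply mul_lt_mul_right
        exact ha

theorem conj_lt {a b : G} (h : a < b) (g : G) : g * a * g⁻¹ < g * b * g⁻¹ := by
  apply mul_lt_mul_left
  apply mul_lt_mul_right
  exact h

theorem conj_le {a b : G} (h : a ≤ b) (g : G) : g * a * g⁻¹ ≤ g * b * g⁻¹ := by
  apply mul_le_mul_left
  apply mul_le_mul_right
  exact h

theorem rl {a b : G} (h : a < b) (c : G) : a * c < b * c := by
  apply mul_lt_mul_left
  exact h

theorem ll {a b : G} (h : a < b) (c : G) : c * a < c * b := by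
  apply mul_lt_mul_right
  exact h

theorem rle {a b : G} (h : a ≤ b) (c : G) : a * c ≤ b * c := by
  apply mul_le_mul_left
  exact h

theorem lle {a b : G} (h : a ≤ b) (c : G) : c * a ≤ c * b := by
  apply mul_le_mul_right
  exact h

theorem lt_of_pow4 {a b : G} (ha : 1 < a) (h : a ^ 4 ≤ b) : a < b := by
  calc a = a * 1 := (mul_one a).symm
    _ < a * a := ll ha a
    _ = a ^ 2 := (pow_two a).symm
    _ ≤ a ^ 4 := pow_le_pow_right' ha.le (by norm_num)
    _ ≤ b := h

theorem sq_le_of_pow4 {a b : G} (ha : 1 < a) (h : a ^ 4 ≤ b) : a * a ≤ b := by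
  calc a * a = a ^ 2 := (pow_two a).symm
    _ ≤ a ^ 4 := pow_le_pow_right' ha.le (by norm_num)
    _ ≤ b := h

/-- auxiliary sequence -/
def hseq (F g g2 : G) : ℕ → G
  | 0 => g2
  | n + 1 => F * (hseq F g g2 n * g) * F⁻¹

/-- The conjugation order: an element with `g ^ 4 ≤ F⁻¹ * g * F` contradicts the Conrad
property. -/
theorem no_expanding (h : AllConrad G) {F g : G} (hg : 1 < g) : ¬ g ^ 4 ≤ F⁻¹ * g * F := by
  intro key
  set gm := F⁻¹ * g * F with hgm
  set g1 := F * g * F⁻¹ with hg1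
  set g2 := F * g1 * F⁻¹ with hg2
  set g3 := F * g2 * F⁻¹ with hg3
  have conj1 : ∀ x : G, 1 < x → 1 < F * x * F⁻¹ := by
    intro x hx
    have := conj_lt hx F
    simpa using this
  have p1 : 1 < g1 := conj1 _ hg
  have p2 : 1 < g2 := conj1 _ p1
  have p3 : 1 < g3 := conj1 _ p2
  have k1 : g1 ^ 4 ≤ g := by
    have := conj_le key F
    rw [hgm] at this
    have e1 : F * (F⁻¹ * g * F) * F⁻¹ = g := by group
    rw [e1, ← conj_pow] at this
    exact this
  have k2 : g2 ^ 4 ≤ g1 := by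
    have := conj_le k1 F
    rw [← conj_pow] at this
    exact this
  have k3 : g3 ^ 4 ≤ g2 := by
    have := conj_le k2 F
    rw [← conj_pow] at this
    exact this
  -- the cone
  have hbi : IsBiCone {x : G | 1 < x} := isBiCone_pos
  have hQ := relCone_centralizer hbi F
  have memQ : ∀ d : G, d ∈ {d : G | d * F * d⁻¹ * F⁻¹ ∈ {x : G | 1 < x}} ↔ d < F⁻¹ * d * F := by
    intro d
    simp only [Set.mem_ofPred_eq]
    constructor
    · intro h1
      have h2 := ll (rl h1 (F * d)) F⁻¹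
      have e1 : F⁻¹ * (1 * (F * d)) = d := by group
      have e2 : F⁻¹ * (d * F * d⁻¹ * F⁻¹ * (F * d)) = F⁻¹ * d * F := by group
      rwa [e1, e2] at h2
    · intro h1
      have h2 := rl (ll h1 F) (d⁻¹ * F⁻¹)
      have e1 : F * d * (d⁻¹ * F⁻¹) = 1 := by group
      have e2 : F * (F⁻¹ * d * F) * (d⁻¹ * F⁻¹) = d * F * d⁻¹ * F⁻¹ := by group
      rwa [e1, e2] at h2
  have hcone := hQ.cone_union (hbi.toIsCone.restrict _)
  set a := g3 * F with ha
  set b := g * F⁻¹ with hb
  have haQ : a < F⁻¹ * a * F := by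
    have e : F⁻¹ * a * F = g2 * F := by rw [ha, hg3]; group
    rw [e, ha]
    exact rl (lt_of_pow4 p3 k3) F
  have hbaQ : b * a⁻¹ < F⁻¹ * (b * a⁻¹) * F := by
    have e1 : b * a⁻¹ = g * g1⁻¹ * (F⁻¹ * F⁻¹) := by rw [ha, hb, hg3, hg2]; group
    have e2 : F⁻¹ * (b * a⁻¹) * F = gm * g⁻¹ * (F⁻¹ * F⁻¹) := by
      rw [e1, hgm, hg1]; group
    rw [e2, e1]
    apply rl
    have s1 : g * g1⁻¹ < g := by
      calc g * g1⁻¹ < g * 1 := ll (Left.inv_lt_one_iff.2 p1) g
        _ = g := mul_one g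
    have s2 : g ≤ gm * g⁻¹ := by
      calc g ≤ g ^ 3 := by
            calc g = g ^ 1 := (pow_one g).symm
              _ ≤ g ^ 3 := pow_le_pow_right' hg.le (by norm_num)
        _ = g ^ 4 * g⁻¹ := by group
        _ ≤ gm * g⁻¹ := rle key _
    exact lt_of_lt_of_le s1 s2
  obtain ⟨m, hm, h1⟩ := h _ hcone a b (Or.inl ((memQ a).2 haQ)) (Or.inl ((memQ _).2 hbaQ))
  obtain ⟨n, rfl⟩ : ∃ n, m = n + 1 := ⟨m - 1, by omega⟩
  -- the sequence
  have hseq_eq : ∀ k : ℕ, F ^ k * (a * b ^ k) = F * hseq F g g2 k := by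
    intro k
    induction k with
    | zero =>
      simp only [pow_zero, one_mul, mul_one, hseq]
      rw [ha, hg3]
      group
    | succ k ih =>
      calc F ^ (k + 1) * (a * b ^ (k + 1)) = F * (F ^ k * (a * b ^ k)) * b := by
            rw [pow_succ', pow_succ]; group
        _ = F * (F * hseq F g g2 k) * b := by rw [ih]
        _ = F * hseq F g g2 (k + 1) := by rw [hseq, hb]; group
  have hbd : ∀ k : ℕ, 1 < hseq F g g2 k ∧ hseq F g g2 k ≤ g1 * g1 := by
    intro k
    induction k with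
    | zero =>
      refine ⟨p2, ?_⟩
      calc g2 ≤ g1 := (lt_of_pow4 p2 k2).le
        _ = g1 * 1 := (mul_one _).symm
        _ ≤ g1 * g1 := lle p1.le _
    | succ k ih =>
      obtain ⟨i1, i2⟩ := ih
      constructor
      · rw [hseq]
        apply conj1
        calc (1 : G) < hseq F g g2 k := i1
          _ = hseq F g g2 k * 1 := (mul_one _).symm
          _ < hseq F g g2 k * g := ll hg _
      · rw [hseq]
        calc F * (hseq F g g2 k * g) * F⁻¹ ≤ F * (g1 * g1 * g) * F⁻¹ := conj_le (rle i2 g) F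
          _ = g2 * g2 * g1 := by rw [hg2, hg1]; group
          _ ≤ g1 * g1 := rle (sq_le_of_pow4 p2 k2) g1
  -- contradiction
  have hw : (a * b ^ (n + 1) * a⁻¹ * b⁻¹)⁻¹ = g * g2 * (hseq F g g2 (n + 1))⁻¹ * F ^ n := by
    have e1 : a * b ^ (n + 1) = (F ^ n)⁻¹ * hseq F g g2 (n + 1) := by
      have := hseq_eq (n + 1)
      rw [pow_succ', mul_assoc] at this
      have h2 := mul_left_cancel this
      rw [← h2]
      group
    have e2 : b * a = g * g2 := by rw [ha, hb, hg3]; group
    calc (a * b ^ (n + 1) * a⁻¹ * b⁻¹)⁻¹ = (b * a) * (a * b ^ (n + 1))⁻¹ := by group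
      _ = _ := by rw [e1, e2]; group
  apply hcone.inv _ h1
  left
  rw [memQ, hw]
  have e3 : F⁻¹ * (g * g2 * (hseq F g g2 (n + 1))⁻¹ * F ^ n) * F
      = gm * g1 * (hseq F g g2 n * g)⁻¹ * F ^ n := by
    have hc : F⁻¹ * F ^ n * F = F ^ n := by
      have : Commute (F ^ n) F := (Commute.refl F).pow_left n
      rw [mul_assoc, this.eq]
      group
    calc F⁻¹ * (g * g2 * (hseq F g g2 (n + 1))⁻¹ * F ^ n) * F
        = gm * g1 * (hseq F g g2 n * g)⁻¹ * (F⁻¹ * F ^ n * F) := by
          rw [hseq, hgm, hg2]; group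
      _ = _ := by rw [hc]
  rw [e3]
  apply rl
  obtain ⟨i1, _⟩ := hbd (n + 1)
  obtain ⟨_, j2⟩ := hbd n
  have s1 : g * g2 * (hseq F g g2 (n + 1))⁻¹ < g * g := by
    calc g * g2 * (hseq F g g2 (n + 1))⁻¹ < g * g2 * 1 := ll (Left.inv_lt_one_iff.2 i1) _
      _ = g * g2 := mul_one _
      _ ≤ g * g := lle ((lt_of_pow4 p2 k2).le.trans (lt_of_pow4 p1 k1).le) _
  have s2 : g * g ≤ gm * g1 * (hseq F g g2 n * g)⁻¹ := by
    have hle : hseq F g g2 n ≤ g := j2.trans (sq_le_of_pow4 p1 k1)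
    calc g * g = g ^ 2 := (pow_two g).symm
      _ = g ^ 4 * 1 * (g * g)⁻¹ := by group
      _ ≤ gm * g1 * (g * g)⁻¹ := rle (mul_le_mul' key p1.le) _
      _ ≤ gm * g1 * (hseq F g g2 n * g)⁻¹ := lle (inv_le_inv_iff.2 (rle hle g)) _
  exact lt_of_lt_of_le s1 s2

/-- In a bi-ordered group all of whose right orders are Conrad, conjugates are bounded by
squares. -/
theorem conj_lt_sq (h : AllConrad G) (f g : G) (hg : 1 < g) : f * g * f⁻¹ < g ^ 2 := by
  by_contra hcon
  push Not at hcon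
  apply no_expanding h (F := (f * f)⁻¹) hg
  have h1 : (g ^ 2) ^ 2 ≤ (f * g * f⁻¹) ^ 2 := pow_le_pow_left' hcon 2
  have h2 : (f * g * f⁻¹) ^ 2 = f * g ^ 2 * f⁻¹ := conj_pow
  have h3 : f * g ^ 2 * f⁻¹ ≤ f * (f * g * f⁻¹) * f⁻¹ := conj_le hcon f
  calc g ^ 4 = (g ^ 2) ^ 2 := by rw [← pow_mul]
    _ ≤ f * g ^ 2 * f⁻¹ := by rw [← h2]; exact h1
    _ ≤ f * (f * g * f⁻¹) * f⁻¹ := h3
    _ = ((f * f)⁻¹)⁻¹ * g * (f * f)⁻¹ := by
      rw [inv_inv, mul_inv_rev]
      simp only [mul_assoc]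

end ordered

/-- Cone version. -/
theorem IsBiCone.conj_lt_sq {P : Set G} (hP : IsBiCone P) (h : AllConrad G) (f g : G)
    (hg : g ∈ P) : f * g * f⁻¹ * (g * g)⁻¹ ∉ P := by
  letI := hP.linearOrder
  haveI := hP.mulLeftMono
  haveI := hP.mulRightMono
  intro h1
  have h2 : 1 < f * g * f⁻¹ * (g * g)⁻¹ := (hP.one_lt_iff _).2 h1
  have h3 : 1 < g := (hP.one_lt_iff _).2 hg
  have h4 := Pool.Agent.Lib.MP_7217b8_al.conj_lt_sq h f g h3
  have h5 := rl h2 (g * g)
  have e : f * g * f⁻¹ * (g * g)⁻¹ * (g * g) = f * g * f⁻¹ := by group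
  rw [e, one_mul, ← pow_two] at h5
  exact absurd h4 (not_lt.2 h5.le)

end Pool.Agent.Lib.MP_7217b8_al
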