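import Pool.Agent.Lib.MP_7217b8_al_h23.TwoStep

/-!
# The Engel condition for elements of abelian normal subgroups
-/

set_option linter.unusedSectionVars false
set_option linter.style.haveILetI false

namespace Pool.Agent.Lib.MP_7217b8_al

universe u v

variable {G : Type u} [Group G]

/-- iterated commutators `[f, [f, ..., [f, a]]]` -/
def eng (f a : G) : ℕ → G
  | 0 => a
  | n + 1 => f * eng f a n * f⁻¹ * (eng f a n)⁻¹

theorem eng_map {H : Type v} [Group H] (φ : G →* H) (f a : G) (n : ℕ) :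
    eng (φ f) (φ a) n = φ (eng f a n) := by
  induction n with
  | zero => rfl
  | succ n ih => simp only [eng, ih, map_mul, map_inv]

theorem eng_mem {A : Subgroup G} (hA : A.Normal) {a : G} (ha : a ∈ A) (f : G) (n : ℕ) :
    eng f a n ∈ A := by
  induction n with
  | zero => exact ha
  | succ n ih => exact A.mul_mem (hA.conj_mem _ ih f) (A.inv_mem ih)

section lemmaM

variable {B : Subgroup G} [B.Normal]

/-- conjugation on an abelian normal subgroup -/
def conjEnd (B : Subgroup G) [hB : B.Normal] : G →* AddMonoid.End (Additive B) where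
  toFun x :=
    { toFun := fun v => Additive.ofMul
        (⟨x * (Additive.toMul v).1 * x⁻¹, hB.conj_mem _ (Additive.toMul v).2 x⟩ : B)
      map_zero' := by
        apply Additive.toMul.injective
        apply Subtype.ext
        simp
      map_add' := by
        intro v w
        apply Additive.toMul.injective
        apply Subtype.ext
        simp }
  map_one' := by
    refine DFunLike.ext _ _ (fun v => ?_)
    apply Additive.toMul.injective
    apply Subtype.ext
    show 1 * (Additive.toMul v).1 * 1⁻¹ = (Additive.toMul v).1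
    simp
  map_mul' := by
    intro x y
    refine DFunLike.ext _ _ (fun v => ?_)
    apply Additive.toMul.injective
    apply Subtype.ext
    show x * y * (Additive.toMul v).1 * (x * y)⁻¹ = x * (y * (Additive.toMul v).1 * y⁻¹) * x⁻¹
    group

theorem conjEnd_val (x : G) (v : Additive B) :
    (Additive.toMul (conjEnd B x v)).1 = x * (Additive.toMul v).1 * x⁻¹ := rfl

theorem lemmaM (hX : InX G) (hBc : ∀ a ∈ B, ∀ b ∈ B, a * b = b * a)
    (hBi : ∀ (x : G) (n : ℕ), n ≠ 0 → x ^ n ∈ B → x ∈ B)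
    (hcomm : ∀ x y : G, x * y * x⁻¹ * y⁻¹ ∈ B) {f : G}
    (hr : ∀ x : G, ∃ k : ℕ, k ≠ 0 ∧ ∃ i : ℤ, x ^ k * (f ^ i)⁻¹ ∈ B) {a : G} (ha : a ∈ B) :
    ∃ n, eng f a n = 1 := by
  letI iΓ : CommGroup (G ⧸ B) := { (inferInstance : Group (G ⧸ B)) with
    mul_comm := by
      intro x y
      obtain ⟨x, rfl⟩ := QuotientGroup.mk'_surjective B x
      obtain ⟨y, rfl⟩ := QuotientGroup.mk'_surjective B y
      have h1 := (QuotientGroup.eq_one_iff (N := B) _).2 (hcomm x y)
      rw [QuotientGroup.mk_mul, QuotientGroup.mk_mul, QuotientGroup.mk_mul,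
        QuotientGroup.mk_inv, QuotientGroup.mk_inv, mul_inv_eq_one, mul_inv_eq_iff_eq_mul] at h1
      exact h1 }
  letI iB : CommGroup B := { (inferInstance : Group B) with
    mul_comm := fun x y => Subtype.ext (hBc _ x.2 _ y.2) }
  have hker : ∀ b ∈ B, conjEnd B b = 1 := by
    intro b hb
    refine DFunLike.ext _ _ (fun v => ?_)
    apply Additive.toMul.injective
    apply Subtype.ext
    rw [conjEnd_val, hBc b hb _ (Additive.toMul v).2, mul_inv_cancel_right]
    rfl
  let X : Ext G (G ⧸ B) (Additive B) :=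
    { π := QuotientGroup.mk' B
      surj := QuotientGroup.mk'_surjective B
      j := fun v => (Additive.toMul v).1
      j_add := fun v w => rfl
      j_inj := fun v w h => Additive.toMul.injective (Subtype.ext h)
      j_ker := fun v => (QuotientGroup.eq_one_iff _).2 (Additive.toMul v).2
      ker_j := fun h hh => ⟨Additive.ofMul ⟨h, (QuotientGroup.eq_one_iff h).1 hh⟩, rfl⟩
      τ := QuotientGroup.lift B (conjEnd B) hker
      act := fun h v => rfl }
  obtain ⟨m, hm⟩ := X.main hX (by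
      intro x n hn hx
      obtain ⟨x, rfl⟩ := QuotientGroup.mk'_surjective B x
      rw [← map_pow] at hx
      exact (QuotientGroup.eq_one_iff _).2 (hBi x n hn ((QuotientGroup.eq_one_iff _).1 hx)))
    (f := f) (by
      intro x
      obtain ⟨x, rfl⟩ := QuotientGroup.mk'_surjective B x
      obtain ⟨k, hk, i, hi⟩ := hr x
      refine ⟨k, hk, i, ?_⟩
      have h1 : QuotientGroup.mk' B (x ^ k * (f ^ i)⁻¹) = 1 := (QuotientGroup.eq_one_iff _).2 hi
      rw [map_mul, map_inv, mul_inv_eq_one, map_pow, map_zpow] at h1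
      exact h1) (Additive.ofMul ⟨a, ha⟩)
  refine ⟨m, ?_⟩
  have key : ∀ n, X.j (((X.τ (X.π f) - 1) ^ n) (Additive.ofMul ⟨a, ha⟩)) = eng f a n := by
    intro n
    induction n with
    | zero => rfl
    | succ n ih =>
      rw [pow_succ']
      show X.j ((X.τ (X.π f) - 1) (((X.τ (X.π f) - 1) ^ n) (Additive.ofMul ⟨a, ha⟩))) = _
      rw [X.j_sub_one, ih]
      rfl
  rw [← key m, hm, X.j_zero]

end lemmaM

theorem comm_pair {A : Subgroup G} (hA : A.Normal) (hAc : ∀ a ∈ A, ∀ b ∈ A, a * b = b * a)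
    {a : G} (ha : a ∈ A) (f : G) (n : ℕ) :
    ∀ t ∈ comm ({a, f} : Set G) (n + 1),
      t = 1 ∨ t = eng f a (n + 1) ∨ t = (eng f a (n + 1))⁻¹ := by
  induction n with
  | zero =>
    rintro _ ⟨s, hs, t, ht, rfl⟩
    simp only [Set.mem_insert_iff, Set.mem_singleton_iff, comm] at hs ht
    rcases hs with rfl | rfl <;> rcases ht with rfl | rfl
    · left; simp
    · right; right
      show _ = (t * s * t⁻¹ * s⁻¹)⁻¹
      group
    · right; left; rfl
    · left; simp
  | succ n ih =>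
    rintro _ ⟨s, hs, t, ht, rfl⟩
    have htA : t ∈ A := by
      rcases ih t ht with rfl | rfl | rfl
      · exact A.one_mem
      · exact eng_mem hA ha f _
      · exact A.inv_mem (eng_mem hA ha f _)
    simp only [Set.mem_insert_iff, Set.mem_singleton_iff] at hs
    rcases hs with rfl | rfl
    · left
      rw [hAc s ha t htA]
      simp
    · rcases ih t ht with rfl | rfl | rfl
      · left; simp
      · right; left; rfl
      · right; right
        set e := eng s a (n + 1) with he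
        have heA : e ∈ A := eng_mem hA ha s _
        show s * e⁻¹ * s⁻¹ * e⁻¹⁻¹ = (s * e * s⁻¹ * e⁻¹)⁻¹
        have h1 := hAc e heA (s * e * s⁻¹)⁻¹ (A.inv_mem (hA.conj_mem _ heA s))
        have e1 : (s * e * s⁻¹ * e⁻¹)⁻¹ = e * (s * e * s⁻¹)⁻¹ := by group
        rw [e1, h1]
        group

/-- elements with a power in the subgroup generated by `f`, modulo a normal subgroup with
commutative quotient -/
theorem rank_one {B : Subgroup G} [B.Normal] (hcomm : ∀ x y : G, x * y * x⁻¹ * y⁻¹ ∈ B)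
    {a f : G} (ha : a ∈ B) (hgen : RCGen ({a, f} : Set G)) :
    ∀ x : G, ∃ k : ℕ, k ≠ 0 ∧ ∃ i : ℤ, x ^ k * (f ^ i)⁻¹ ∈ B := by
  letI iΓ : CommGroup (G ⧸ B) := { (inferInstance : Group (G ⧸ B)) with
    mul_comm := by
      intro x y
      obtain ⟨x, rfl⟩ := QuotientGroup.mk'_surjective B x
      obtain ⟨y, rfl⟩ := QuotientGroup.mk'_surjective B y
      have h1 := (QuotientGroup.eq_one_iff (N := B) _).2 (hcomm x y)
      rw [QuotientGroup.mk_mul, QuotientGroup.mk_mul, QuotientGroup.mk_mul,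
        QuotientGroup.mk_inv, QuotientGroup.mk_inv, mul_inv_eq_one, mul_inv_eq_iff_eq_mul] at h1
      exact h1 }
  let R0 : Subgroup (G ⧸ B) :=
    { carrier := {x | ∃ k : ℕ, k ≠ 0 ∧ ∃ i : ℤ, x ^ k = (QuotientGroup.mk' B f) ^ i}
      mul_mem' := by
        rintro x y ⟨k, hk, i, hi⟩ ⟨l, hl, j, hj⟩
        refine ⟨k * l, mul_ne_zero hk hl, i * l + j * k, ?_⟩
        rw [mul_pow, pow_mul, hi, mul_comm k l, pow_mul, hj, zpow_add, zpow_mul, zpow_mul]
        simp only [zpow_natCast]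
      one_mem' := ⟨1, one_ne_zero, 0, by simp⟩
      inv_mem' := by
        rintro x ⟨k, hk, i, hi⟩
        exact ⟨k, hk, -i, by rw [inv_pow, hi, zpow_neg]⟩ }
  set R : Subgroup G := R0.comap (QuotientGroup.mk' B) with hR
  have hmem : ∀ x, x ∈ R ↔ ∃ k : ℕ, k ≠ 0 ∧ ∃ i : ℤ, x ^ k * (f ^ i)⁻¹ ∈ B := by
    intro x
    constructor
    · rintro ⟨k, hk, i, hi⟩
      refine ⟨k, hk, i, ?_⟩
      rw [← QuotientGroup.eq_one_iff]
      have h2 : QuotientGroup.mk' B (x ^ k * (f ^ i)⁻¹) = 1 := by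
        rw [map_mul, map_inv, mul_inv_eq_one, map_pow, map_zpow]
        exact hi
      exact h2
    · rintro ⟨k, hk, i, hi⟩
      refine ⟨k, hk, i, ?_⟩
      have h2 : QuotientGroup.mk' B (x ^ k * (f ^ i)⁻¹) = 1 := (QuotientGroup.eq_one_iff _).2 hi
      rw [map_mul, map_inv, mul_inv_eq_one, map_pow, map_zpow] at h2
      exact h2
  have hBR : B ≤ R := by
    intro x hx
    rw [hmem]
    exact ⟨1, one_ne_zero, 0, by simpa using hx⟩
  haveI : R.Normal := by
    constructor
    intro x hx g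
    have h1 := R.mul_mem (hBR (hcomm g x)) hx
    simpa using h1
  have h1 : BiRelConvex R := biRelConvex_of_abelian (fun x y => hBR (hcomm x y)) (by
    rintro x n hn ⟨k, hk, i, hi⟩
    refine ⟨n * k, mul_ne_zero hn hk, i, ?_⟩
    rw [pow_mul, ← map_pow]
    exact hi)
  have h2 : R = ⊤ := by
    apply hgen R h1.relConvex
    intro x hx
    rcases hx with rfl | hx
    · exact hBR ha
    · rw [Set.mem_singleton_iff] at hx
      rw [hx, SetLike.mem_coe, hmem]
      exact ⟨1, one_ne_zero, 1, by simp⟩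
  intro x
  rw [← hmem, h2]
  exact Subgroup.mem_top x

theorem pair_aux (hG : InX G) {A : Subgroup G} (hA : A.Normal)
    (hAc : ∀ a ∈ A, ∀ b ∈ A, a * b = b * a) {a : G} (ha : a ∈ A) (f : G)
    (hgen : RCGen ({a, f} : Set G)) : ∃ n, eng f a n = 1 := by
  by_contra hcon
  push Not at hcon
  obtain ⟨P, hP⟩ := hG.bi
  letI := hP.linearOrder
  haveI := hP.mulLeftMono
  haveI := hP.mulRightMono
  have hctl : Ctl G := fun f g hg => conj_lt_sq hG.conrad f g hg
  have hpos : ∀ t : G, t ≠ 1 → 1 < max t t⁻¹ := by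
    intro t ht
    rcases lt_trichotomy t 1 with h1 | h1 | h1
    · exact lt_max_of_lt_right (Left.one_lt_inv_iff.2 h1)
    · exact absurd h1 ht
    · exact lt_max_of_lt_left h1
  have hcase : ∀ (C : Subgroup G) (t : G), max t t⁻¹ ∈ C ↔ t ∈ C := by
    intro C t
    rcases max_choice t t⁻¹ with h | h
    · rw [h]
    · rw [h]; exact C.inv_mem_iff
  set g : ℕ → G := fun n => max (eng f a (n + 1)) (eng f a (n + 1))⁻¹ with hgdef
  have hg : ∀ n, 1 < g n := fun n => hpos _ (hcon _)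
  set E : ℕ → Subgroup G := fun n => Ep (g n) (hg n) with hE
  haveI hEn : ∀ n, (E n).Normal := fun n => normal_Ep hctl (hg n)
  have hEc : ∀ n, BiRelConvex (E n) := fun n => (ordConv_Ep (hg n)).biRelConvex (hEn n)
  have hmemE : ∀ n, eng f a (n + 1) ∈ E n := fun n => (hcase _ _).1 (self_mem_Ep (hg n))
  have hnot : ∀ n, eng f a (n + 1) ∉ E (n + 1) := by
    intro n h1
    have h2 : eng f a (n + 2) ∈ Em (g n) (hg n) := ctl_comm_mem hctl (hg n) (hmemE n) f
    have h3 : g (n + 1) ∈ Em (g n) (hg n) := (hcase _ _).2 h2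
    have h4 : E (n + 1) ≤ Em (g n) (hg n) := Ep_le (ordConv_Em (hg n)) (hg (n + 1)) h3
    exact self_notMem_Em (hg n) ((hcase _ _).2 (h4 h1))
  have hcommE : ∀ n, ∀ t ∈ comm ({a, f} : Set G) (n + 1), t ∈ E n := by
    intro n t ht
    rcases comm_pair hA hAc ha f n t ht with rfl | rfl | rfl
    · exact (E n).one_mem
    · exact hmemE n
    · exact (E n).inv_mem (hmemE n)
  have hnil : ∀ n, Group.IsNilpotent (G ⧸ E n) := fun n =>
    hG.nilpotent_quot hgen (hEc n) (hcommE n)
  have hN : ∀ n, (rc ((A.map (QuotientGroup.mk' (E n)) : Subgroup (G ⧸ E n)) :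
      Set (G ⧸ E n))).Normal ∧
      (∀ x ∈ rc ((A.map (QuotientGroup.mk' (E n)) : Subgroup (G ⧸ E n)) : Set (G ⧸ E n)),
        ∀ y ∈ rc ((A.map (QuotientGroup.mk' (E n)) : Subgroup (G ⧸ E n)) : Set (G ⧸ E n)),
          x * y = y * x) ∧
      ∀ x y : G ⧸ E n, x * y * x⁻¹ * y⁻¹ ∈
        rc ((A.map (QuotientGroup.mk' (E n)) : Subgroup (G ⧸ E n)) : Set (G ⧸ E n)) := by
    intro n
    refine (hG.quot (hEc n)).lemmaN (hnil n) (f := QuotientGroup.mk' (E n) f) ?_ ?_ ?_
    · exact hA.map _ (QuotientGroup.mk'_surjective _)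
    · rintro _ ⟨x, hx, rfl⟩ _ ⟨y, hy, rfl⟩
      rw [← map_mul, hAc x hx y hy, map_mul]
    · apply (hgen.map (QuotientGroup.mk'_surjective (E n))).mono
      rintro _ ⟨x, hx, rfl⟩
      rcases hx with rfl | hx
      · exact Or.inl ⟨x, ha, rfl⟩
      · rw [Set.mem_singleton_iff] at hx
        rw [hx]
        exact Or.inr rfl
  set Bn : ℕ → Subgroup G := fun n =>
    (rc ((A.map (QuotientGroup.mk' (E n)) : Subgroup (G ⧸ E n)) : Set (G ⧸ E n))).comap
      (QuotientGroup.mk' (E n)) with hBn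
  have hBconv : ∀ n, RelConvex (Bn n) := fun n => (relConvex_rc _).comap _
  have hBnor : ∀ n, (Bn n).Normal := fun n => (hN n).1.comap _
  have hAB : ∀ n, A ≤ Bn n := fun n x hx => subset_rc _ ⟨x, hx, rfl⟩
  have hEB : ∀ n, E n ≤ Bn n := by
    intro n x hx
    have h1 : QuotientGroup.mk' (E n) x = 1 := (QuotientGroup.eq_one_iff _).2 hx
    refine Subgroup.mem_comap.2 ?_
    rw [h1]
    exact Subgroup.one_mem _
  have hBcomm : ∀ n, ∀ x ∈ Bn n, ∀ y ∈ Bn n, x * y * x⁻¹ * y⁻¹ ∈ E n := by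
    intro n x hx y hy
    have h1 := (hN n).2.1 _ hx _ hy
    rw [← QuotientGroup.eq_one_iff, QuotientGroup.mk_mul, QuotientGroup.mk_mul,
      QuotientGroup.mk_mul, QuotientGroup.mk_inv, QuotientGroup.mk_inv, mul_inv_eq_one,
      mul_inv_eq_iff_eq_mul]
    exact h1
  have hGcomm : ∀ n, ∀ x y : G, x * y * x⁻¹ * y⁻¹ ∈ Bn n := by
    intro n x y
    exact (hN n).2.2 (QuotientGroup.mk' _ x) (QuotientGroup.mk' _ y)
  set B : Subgroup G := ⨅ n, Bn n with hB
  set Eo : Subgroup G := ⨅ n, E n with hEo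
  have hBc : RelConvex B := relConvex_iInf hBconv
  haveI hBno : B.Normal := Subgroup.normal_iInf_normal hBnor
  have hEoc : BiRelConvex Eo := biRelConvex_iInf hEc
  haveI hEno : Eo.Normal := hEoc.normal
  have hEoB : Eo ≤ B := iInf_mono hEB
  have hGB : ∀ x y : G, x * y * x⁻¹ * y⁻¹ ∈ B := fun x y =>
    Subgroup.mem_iInf.2 (fun n => hGcomm n x y)
  have haB : a ∈ B := Subgroup.mem_iInf.2 (fun n => hAB n ha)
  have hmapB : ∀ x : G, QuotientGroup.mk' Eo x ∈ B.map (QuotientGroup.mk' Eo) → x ∈ B := by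
    rintro x ⟨y, hy, he⟩
    have h1 : QuotientGroup.mk' Eo (y⁻¹ * x) = 1 := by
      rw [map_mul, map_inv, he, inv_mul_cancel]
    have h2 : y⁻¹ * x ∈ Eo := (QuotientGroup.eq_one_iff _).1 h1
    have h3 := B.mul_mem hy (hEoB h2)
    simpa using h3
  haveI : (B.map (QuotientGroup.mk' Eo)).Normal :=
    hBno.map _ (QuotientGroup.mk'_surjective _)
  have hfin := lemmaM (hG.quot hEoc) (B := B.map (QuotientGroup.mk' Eo))
    (f := QuotientGroup.mk' Eo f) (a := QuotientGroup.mk' Eo a) (by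
      rintro _ ⟨x, hx, rfl⟩ _ ⟨y, hy, rfl⟩
      have h1 : x * y * x⁻¹ * y⁻¹ ∈ Eo := Subgroup.mem_iInf.2 (fun n =>
        hBcomm n x (Subgroup.mem_iInf.1 hx n) y (Subgroup.mem_iInf.1 hy n))
      have h2 : QuotientGroup.mk' Eo (x * y * x⁻¹ * y⁻¹) = 1 := (QuotientGroup.eq_one_iff _).2 h1
      rw [map_mul, map_mul, map_mul, map_inv, map_inv, mul_inv_eq_one,
        mul_inv_eq_iff_eq_mul] at h2
      exact h2) (by
      intro x n hn hx
      obtain ⟨x, rfl⟩ := QuotientGroup.mk'_surjective Eo x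
      rw [← map_pow] at hx
      exact ⟨x, hBc.isolated hn (hmapB _ hx), rfl⟩) (by
      intro x y
      obtain ⟨x, rfl⟩ := QuotientGroup.mk'_surjective Eo x
      obtain ⟨y, rfl⟩ := QuotientGroup.mk'_surjective Eo y
      exact ⟨_, hGB x y, by simp⟩) (by
      intro x
      obtain ⟨x, rfl⟩ := QuotientGroup.mk'_surjective Eo x
      obtain ⟨k, hk, i, hi⟩ := rank_one hGB haB hgen x
      exact ⟨k, hk, i, ⟨_, hi, by simp⟩⟩) ⟨a, haB, rfl⟩
  obtain ⟨n, hn⟩ := hfin
  rw [eng_map] at hn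
  have h1 : eng f a n ∈ Eo := (QuotientGroup.eq_one_iff _).1 hn
  have h2 : eng f a (n + 1) ∈ Eo := Eo.mul_mem (hEno.conj_mem _ h1 f) (Eo.inv_mem h1)
  exact hnot n (Subgroup.mem_iInf.1 h2 (n + 1))

end Pool.Agent.Lib.MP_7217b8_al
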