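import Pool.Agent.Lib.MP_7217b8_al_h23.Derived

/-!
# The soluble case
-/

set_option linter.unusedSectionVars false
set_option linter.style.haveILetI false

namespace Pool.Agent.Lib.MP_7217b8_al

universe u v

/-- kernels of homomorphisms onto nilpotent bi-orderable groups -/
def NilK (G : Type u) [Group G] : Set (Subgroup G) :=
  {N | ∃ _ : N.Normal, BiRelConvex N ∧ Group.IsNilpotent (G ⧸ N)}

/-- the nilpotent residual -/
def Jr (G : Type u) [Group G] : Subgroup G := sInf (NilK G)

variable {G : Type u} [Group G]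

theorem biRelConvex_Jr : BiRelConvex (Jr G) := by
  apply biRelConvex_sInf
  rintro N ⟨_, h, _⟩
  exact h

instance : (Jr G).Normal := biRelConvex_Jr.normal

theorem Jr_le {N : Subgroup G} (h : N ∈ NilK G) : Jr G ≤ N := sInf_le h

theorem InX.nilpotent_of_Jr (hG : InX G) {S : Set G} (hfin : S.Finite) (hS : RCGen S)
    (h : Group.IsNilpotent (G ⧸ Jr G)) : Group.IsNilpotent G := by
  obtain ⟨n, hn⟩ := comm_mem_of_nilpotent h S
  exact hG.theoremB hfin hS n (fun N hN h1 h2 t ht => Jr_le ⟨hN, h1, h2⟩ (hn t ht))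

theorem derivedSeries_quot_eq_bot {N : Subgroup G} [N.Normal] {s : ℕ}
    (h : derivedSeries G s ≤ N) : derivedSeries (G ⧸ N) s = ⊥ := by
  rw [← map_derivedSeries_eq (QuotientGroup.mk'_surjective N), eq_bot_iff]
  rintro _ ⟨x, hx, rfl⟩
  rw [Subgroup.mem_bot]
  exact (QuotientGroup.eq_one_iff x).2 (h hx)

theorem derivedSeries_le_of_quot {N : Subgroup G} [N.Normal] {s : ℕ}
    (h : derivedSeries (G ⧸ N) s = ⊥) : derivedSeries G s ≤ N := by
  rw [← map_derivedSeries_eq (QuotientGroup.mk'_surjective N), eq_bot_iff] at h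
  intro x hx
  exact (QuotientGroup.eq_one_iff x).1 (Subgroup.mem_bot.1 (h ⟨x, hx, rfl⟩))

/-- Theorem S. -/
theorem theoremS (s : ℕ) : ∀ (G : Type u) [Group G] (_ : InX G) (_ : derivedSeries G s = ⊥)
    (S : Set G) (_ : S.Finite) (_ : RCGen S), Group.IsNilpotent G := by
  induction s with
  | zero =>
    intro G _ _ hs S _ _
    rw [derivedSeries_zero] at hs
    haveI : Subsingleton G := (Subgroup.subsingleton_iff).1 (subsingleton_of_bot_eq_top hs.symm)
    infer_instance
  | succ s ih =>
    intro G _ hG hs S hfin hS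
    apply hG.nilpotent_of_Jr hfin hS
    have key : ∀ N : NilK G, ∃ b : Subgroup G, BiRelConvex b ∧ derivedSeries G s ≤ b ∧
        ∀ x ∈ b, ∀ y ∈ b, x * y * x⁻¹ * y⁻¹ ∈ (N : Subgroup G) := by
      rintro ⟨N, hN, hNb, hNn⟩
      obtain ⟨P, hP⟩ := hNb.exists_quotient
      set D := derivedSeries (G ⧸ N) s with hD
      have hDc : ∀ a ∈ (D : Set (G ⧸ N)), ∀ b ∈ (D : Set (G ⧸ N)), a * b = b * a := by
        intro a ha b hb
        have h1 : a * b * a⁻¹ * b⁻¹ ∈ derivedSeries (G ⧸ N) (s + 1) :=
          Subgroup.commutator_mem_commutator ha hb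
        rw [derivedSeries_quot_eq_bot (N := N) (by rw [hs]; exact bot_le), Subgroup.mem_bot,
          mul_inv_eq_one, mul_inv_eq_iff_eq_mul] at h1
        exact h1
      haveI hrn : (rc (D : Set (G ⧸ N))).Normal :=
        rc_normal (fun a ha g => (inferInstance : D.Normal).conj_mem a ha g)
      have hrb : BiRelConvex (rc (D : Set (G ⧸ N))) := biRelConvex_of_nilpotent inferInstance
        (fun x n hn hx => (relConvex_rc _).isolated hn hx)
      refine ⟨(rc (D : Set (G ⧸ N))).comap (QuotientGroup.mk' N), hrb.comap _, ?_, ?_⟩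
      · intro x hx
        apply subset_rc
        show QuotientGroup.mk' N x ∈ D
        rw [hD, ← map_derivedSeries_eq (QuotientGroup.mk'_surjective N)]
        exact ⟨x, hx, rfl⟩
      · intro x hx y hy
        have h1 := rc_comm hP hDc _ hx _ hy
        rw [← QuotientGroup.eq_one_iff]
        show QuotientGroup.mk' N (x * y * x⁻¹ * y⁻¹) = 1
        rw [map_mul, map_mul, map_mul, map_inv, map_inv, mul_inv_eq_one, mul_inv_eq_iff_eq_mul]
        exact h1
    choose b hb1 hb2 hb3 using key
    set β : Subgroup G := ⨅ N, b N with hβ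
    have hβb : BiRelConvex β := biRelConvex_iInf hb1
    haveI hβn : β.Normal := hβb.normal
    have hsβ : derivedSeries G s ≤ β := le_iInf hb2
    have hnilβ : Group.IsNilpotent (G ⧸ β) := ih (G ⧸ β) (hG.quot hβb)
      (derivedSeries_quot_eq_bot hsβ) _ (hfin.image _) (hS.map (QuotientGroup.mk'_surjective β))
    obtain ⟨m, hm⟩ := comm_mem_of_nilpotent hnilβ S
    -- work in `G ⧸ J`
    have hQ : InX (G ⧸ Jr G) := hG.quot biRelConvex_Jr
    set A : Subgroup (G ⧸ Jr G) := β.map (QuotientGroup.mk' (Jr G)) with hA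
    have hAn : A.Normal := hβn.map _ (QuotientGroup.mk'_surjective _)
    have hAc : ∀ a ∈ A, ∀ b ∈ A, a * b = b * a := by
      rintro _ ⟨x, hx, rfl⟩ _ ⟨y, hy, rfl⟩
      have h1 : x * y * x⁻¹ * y⁻¹ ∈ Jr G := by
        rw [Jr, Subgroup.mem_sInf]
        intro N hN
        exact hb3 ⟨N, hN⟩ x (Subgroup.mem_iInf.1 hx _) y (Subgroup.mem_iInf.1 hy _)
      have h2 : QuotientGroup.mk' (Jr G) (x * y * x⁻¹ * y⁻¹) = 1 :=
        (QuotientGroup.eq_one_iff _).2 h1
      rw [map_mul, map_mul, map_mul, map_inv, map_inv, mul_inv_eq_one,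
        mul_inv_eq_iff_eq_mul] at h2
      exact h2
    set S' : Set (G ⧸ Jr G) := QuotientGroup.mk' (Jr G) '' S with hS'
    have hfin' : S'.Finite := hfin.image _
    have hS'g : RCGen S' := hS.map (QuotientGroup.mk'_surjective _)
    have hmA : ∀ t ∈ comm S' m, t ∈ A := by
      intro t ht
      rw [hS', comm_map] at ht
      obtain ⟨t, ht, rfl⟩ := ht
      exact ⟨t, hm t ht, rfl⟩
    set H : Subgroup (G ⧸ Jr G) := Subgroup.closure S' with hH
    set SH : Set H := Subtype.val ⁻¹' S' with hSH
    have himg : H.subtype '' SH = S' := by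
      ext x
      constructor
      · rintro ⟨y, hy, rfl⟩
        exact hy
      · intro hx
        exact ⟨⟨x, Subgroup.subset_closure hx⟩, hx, rfl⟩
    haveI := hAn
    have hHnil : Group.IsNilpotent H := by
      apply engel (S := SH) (A := A.subgroupOf H) (m := m)
      · exact hfin'.preimage (Subtype.val_injective.injOn)
      · exact Subgroup.closure_closure_coe_preimage
      · infer_instance
      · intro x hx y hy
        exact Subtype.ext (hAc _ hx _ hy)
      · intro t ht
        rw [Subgroup.mem_subgroupOf]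
        apply hmA
        rw [← himg, comm_map]
        exact ⟨t, ht, rfl⟩
      · intro a ha x
        obtain ⟨n, hn⟩ := pair hQ hAn hAc (a := (a : G ⧸ Jr G)) ha x
        refine ⟨n, ?_⟩
        apply Subtype.ext
        show H.subtype (eng x a n) = H.subtype 1
        rw [← eng_map, map_one]
        exact hn
    obtain ⟨n, hn⟩ := comm_eq_one_of_nilpotent hHnil SH
    apply InX.nilpotent_of_comm n _ hQ S' hS'g
    intro t ht
    rw [← himg, comm_map] at ht
    obtain ⟨t, ht, rfl⟩ := ht
    rw [hn t ht, map_one]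

end Pool.Agent.Lib.MP_7217b8_al
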