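import Pool.Agent.Lib.MP_7217b8_al_h23.Nil

/-!
# Torsion-free nilpotent groups are bi-orderable
-/

set_option linter.unusedSectionVars false
set_option linter.style.haveILetI false

namespace Pool.Agent.Lib.MP_7217b8_al

universe u v

variable {G : Type u} [Group G]

/-- torsion-free -/
def TF (G : Type u) [Group G] : Prop := ∀ (x : G) (n : ℕ), n ≠ 0 → x ^ n = 1 → x = 1

theorem root_comm_nilp (htf : TF G) (i : ℕ) :
    ∀ y ∈ Subgroup.upperCentralSeries G i, ∀ (x : G) (n : ℕ), n ≠ 0 →
      x ^ n * y = y * x ^ n → x * y = y * x := by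
  induction i with
  | zero =>
    intro y hy x n _ _
    rw [Subgroup.upperCentralSeries_zero, Subgroup.mem_bot] at hy
    simp [hy]
  | succ i ih =>
    intro y hy x n hn h
    rw [Subgroup.mem_upperCentralSeries_succ_iff] at hy
    set c := x * y * x⁻¹ * y⁻¹ with hc
    have hci : c ∈ Subgroup.upperCentralSeries G i := by
      have hy' : ∀ g, y * g * y⁻¹ * g⁻¹ ∈ Subgroup.upperCentralSeries G i := hy
      have h1 := Subgroup.inv_mem _ (hy' x)
      have e : (y * x * y⁻¹ * x⁻¹)⁻¹ = c := by rw [hc]; group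
      rwa [e] at h1
    have h1 : Commute (x ^ n) c := by
      have h2 : Commute (x ^ n) y := h
      have h3 : Commute (x ^ n) x := (Commute.refl x).pow_left n
      rw [hc]
      exact ((h3.mul_right h2).mul_right h3.inv_right).mul_right h2.inv_right
    have h2 : x * c = c * x := ih c hci x n hn h1
    have h3 : x * y = c * y * x := by rw [hc]; group
    have h4 : ∀ k : ℕ, x ^ k * y = c ^ k * y * x ^ k := by
      intro k
      induction k with
      | zero => simp
      | succ k ihk =>
        have h5 : Commute x (c ^ k) := (show Commute x c from h2).pow_right k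
        calc x ^ (k + 1) * y = x * (x ^ k * y) := by rw [pow_succ']; group
          _ = x * (c ^ k * y * x ^ k) := by rw [ihk]
          _ = (x * c ^ k) * y * x ^ k := by group
          _ = (c ^ k * x) * y * x ^ k := by rw [h5.eq]
          _ = c ^ k * (x * y) * x ^ k := by group
          _ = c ^ k * (c * y * x) * x ^ k := by rw [h3]
          _ = c ^ (k + 1) * y * x ^ (k + 1) := by rw [pow_succ, pow_succ']; group
    have h5 := h4 n
    rw [h] at h5
    have h6 : c ^ n = 1 := by
      have : y = c ^ n * y := by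
        have h7 := mul_right_cancel h5
        exact h7
      exact (mul_eq_right (b := y)).1 this.symm
    have h7 : c = 1 := htf c n hn h6
    rw [h3, h7, one_mul]

theorem center_isolated (htf : TF G) (h : Group.IsNilpotent G) {x : G} {n : ℕ} (hn : n ≠ 0)
    (hx : x ^ n ∈ Subgroup.center G) : x ∈ Subgroup.center G := by
  obtain ⟨i, hi⟩ := Group.IsNilpotent.nilpotent G
  rw [Subgroup.mem_center_iff] at hx ⊢
  intro y
  exact (root_comm_nilp htf i y (hi ▸ Subgroup.mem_top y) x n hn (hx y).symm).symm

theorem tf_quot {N : Subgroup G} [N.Normal] (h : ∀ (x : G) (n : ℕ), n ≠ 0 → x ^ n ∈ N → x ∈ N) :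
    TF (G ⧸ N) := by
  intro x n hn hx
  obtain ⟨x, rfl⟩ := QuotientGroup.mk'_surjective N x
  rw [← map_pow] at hx
  exact (QuotientGroup.eq_one_iff _).2 (h x n hn ((QuotientGroup.eq_one_iff _).1 hx))

theorem exists_biCone_of_center {P : Set (G ⧸ Subgroup.center G)} (hP : IsBiCone P) (htf : TF G) :
    ∃ R : Set G, IsBiCone R := by
  obtain ⟨R, hR⟩ := exists_biCone_of_comm (A := Subgroup.center G)
    (fun x y => Subtype.ext ((Subgroup.mem_center_iff.1 y.2) x.1))
    (fun x n hn hx => Subtype.ext (htf _ n hn (by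
      have := congrArg Subtype.val hx
      simpa using this)))
  have h1 : BiRelCone (Subgroup.center G) (QuotientGroup.mk' (Subgroup.center G) ⁻¹' P) := by
    have := hP.biRelCone.comap (QuotientGroup.mk' (Subgroup.center G))
    rwa [comap_mk_bot] at this
  refine ⟨_, ⟨h1.toRelCone.cone_union hR.toIsCone, ?_⟩⟩
  rintro a (ha | ⟨z, hz, rfl⟩) g
  · exact Or.inl (h1.conj a ha g)
  · right
    have : g * z * g⁻¹ = z := by
      rw [(Subgroup.mem_center_iff.1 z.2) g]; group
    rw [this]
    exact ⟨z, hz, rfl⟩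

theorem exists_biCone_of_nilpotent (n : ℕ) : ∀ (G : Type u) [Group G] [Group.IsNilpotent G]
    (_ : Group.nilpotencyClass G ≤ n) (_ : TF G), ∃ R : Set G, IsBiCone R := by
  induction n with
  | zero =>
    intro G _ _ h0 _
    have h1 := Group.nilpotencyClass_zero_iff_subsingleton.1 (Nat.le_zero.1 h0)
    exact ⟨∅, ⟨⟨by simp, by simp, fun a ha => absurd (Subsingleton.elim a 1) ha⟩, by simp⟩⟩
  | succ n ih =>
    intro G _ hG h0 htf
    obtain ⟨P, hP⟩ := ih (G ⧸ Subgroup.center G) (by
      rw [Group.nilpotencyClass_quotient_center]; omega)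
      (tf_quot (fun x n hn hx => center_isolated htf hG hn hx))
    exact exists_biCone_of_center hP htf

/-- In a nilpotent group normal isolated subgroups are kernels of homomorphisms onto
bi-orderable groups. -/
theorem biRelConvex_of_nilpotent {N : Subgroup G} [N.Normal] (h : Group.IsNilpotent (G ⧸ N))
    (hN : ∀ (x : G) (n : ℕ), n ≠ 0 → x ^ n ∈ N → x ∈ N) : BiRelConvex N := by
  obtain ⟨R, hR⟩ := exists_biCone_of_nilpotent _ (G ⧸ N) le_rfl (tf_quot hN)
  exact BiRelConvex.of_quotient hR

theorem RelConvex.conj {C : Subgroup G} (h : RelConvex C) (g : G) :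
    RelConvex (C.comap (MulAut.conj g).toMonoidHom) := h.comap _

/-- the relatively convex closure of a conjugation invariant set is normal -/
theorem rc_normal {A : Set G} (hA : ∀ a ∈ A, ∀ g, g * a * g⁻¹ ∈ A) : (rc A).Normal := by
  constructor
  intro x hx g
  have h1 : rc A ≤ (rc A).comap (MulAut.conj g).toMonoidHom := by
    apply rc_le ((relConvex_rc A).conj g)
    intro a ha
    show g * a * g⁻¹ ∈ rc A
    exact subset_rc A (hA a ha g)
  exact h1 hx

/-- the relatively convex closure of a commutative set is commutative -/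
theorem rc_comm {P : Set G} (hP : IsBiCone P) {A : Set G} (hA : ∀ a ∈ A, ∀ b ∈ A, a * b = b * a) :
    ∀ a ∈ rc A, ∀ b ∈ rc A, a * b = b * a := by
  have h1 : rc A ≤ Subgroup.centralizer A := by
    apply rc_le (relConvex_centralizer hP A)
    intro a ha
    rw [SetLike.mem_coe, Subgroup.mem_centralizer_iff]
    intro b hb
    exact hA b hb a ha
  have h2 : rc A ≤ Subgroup.centralizer (rc A : Set G) := by
    apply rc_le (relConvex_centralizer hP _)
    intro a ha
    rw [SetLike.mem_coe, Subgroup.mem_centralizer_iff]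
    intro b hb
    exact ((Subgroup.mem_centralizer_iff.1 (h1 hb)) a ha).symm
  intro a ha b hb
  exact (Subgroup.mem_centralizer_iff.1 (h2 hb)) a ha

/-- a bi-orderable group which is the relatively convex closure of one element is abelian -/
theorem comm_of_rcGen {P : Set G} (hP : IsBiCone P) {S : Set G} (hS : RCGen S)
    (h : ∀ a ∈ S, ∀ b ∈ S, a * b = b * a) : ∀ a b : G, a * b = b * a := by
  have h1 : rc S = ⊤ := hS _ (relConvex_rc S) (subset_rc S)
  intro a b
  exact rc_comm hP h a (h1 ▸ Subgroup.mem_top a) b (h1 ▸ Subgroup.mem_top b)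

/-- Lemma N1. -/
theorem InX.lemmaN (h : InX G) (hn : Group.IsNilpotent G) {A : Subgroup G} (hA : A.Normal)
    (hAc : ∀ a ∈ A, ∀ b ∈ A, a * b = b * a) {f : G} (hgen : RCGen ((A : Set G) ∪ {f})) :
    (rc (A : Set G)).Normal ∧ (∀ a ∈ rc (A : Set G), ∀ b ∈ rc (A : Set G), a * b = b * a) ∧
      ∀ x y : G, x * y * x⁻¹ * y⁻¹ ∈ rc (A : Set G) := by
  obtain ⟨P, hP⟩ := h.bi
  have hnor : (rc (A : Set G)).Normal := rc_normal (fun a ha g => hA.conj_mem a ha g)
  refine ⟨hnor, rc_comm hP hAc, ?_⟩
  have h1 : BiRelConvex (rc (A : Set G)) :=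
    biRelConvex_of_nilpotent inferInstance (fun x n hn hx => (relConvex_rc _).isolated hn hx)
  obtain ⟨R, hR⟩ := h1.exists_quotient
  have h2 := hgen.map (QuotientGroup.mk'_surjective (rc (A : Set G)))
  have h3 := comm_of_rcGen hR h2 (by
    have key : ∀ a ∈ QuotientGroup.mk' (rc (A : Set G)) '' ((A : Set G) ∪ {f}),
        a = 1 ∨ a = QuotientGroup.mk' (rc (A : Set G)) f := by
      rintro _ ⟨x, hx | hx, rfl⟩
      · left
        exact (QuotientGroup.eq_one_iff _).2 (subset_rc _ hx)
      · right
        rw [Set.mem_singleton_iff] at hx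
        rw [hx]
    intro a ha b hb
    rcases key a ha with rfl | rfl <;> rcases key b hb with rfl | rfl <;> simp)
  intro x y
  rw [← QuotientGroup.eq_one_iff]
  have h4 := h3 (QuotientGroup.mk' _ x) (QuotientGroup.mk' _ y)
  rw [QuotientGroup.mk_mul, QuotientGroup.mk_mul, QuotientGroup.mk_mul, QuotientGroup.mk_inv,
      QuotientGroup.mk_inv, mul_inv_eq_one, mul_inv_eq_iff_eq_mul]
  exact h4

end Pool.Agent.Lib.MP_7217b8_al
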