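import Pool.Agent.Lib.MP_7217b8_al_h23.Zorn

/-!
# Modules over group rings of rank one groups

A vector killed by a nonzero element of the group ring of a torsion-free abelian group of rank
one containing `f` is killed by a power of `f - 1`, as soon as the module carries a suitable
filtration with trivial action on the factors.
-/

set_option linter.unusedSectionVars false

namespace Pool.Agent.Lib.MP_7217b8_al

universe u v

section poly

variable {V : Type u} [AddCommGroup V]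

/-- A pair of subgroups around `b` with trivial `T`-action on the factor. -/
def Levels (T : AddMonoid.End V) : Prop :=
  ∀ b : V, b ≠ 0 → ∃ E F : AddSubgroup V, E ≤ F ∧ b ∈ F ∧ (∀ n : ℤ, n ≠ 0 → n • b ∉ E) ∧
    ∀ x ∈ F, (T - 1) x ∈ E

theorem Levels.poly {T : AddMonoid.End V} (h : Levels T) (P : Polynomial ℤ) (hP : P ≠ 0) {a : V}
    (ha : (Polynomial.aeval T P) a = 0) : ∃ m : ℕ, ((T - 1) ^ m) a = 0 := by
  obtain ⟨R, hR, hR1⟩ := P.exists_eq_pow_rootMultiplicity_mul_and_not_dvd hP 1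
  set m := P.rootMultiplicity 1 with hm
  refine ⟨m, ?_⟩
  by_contra hb
  set b := ((T - 1) ^ m) a with hbdef
  have h1 : (Polynomial.aeval T R) b = 0 := by
    have h2 : Polynomial.aeval T P = Polynomial.aeval T R * (T - 1) ^ m := by
      rw [hR, mul_comm, map_mul, map_pow, map_sub, Polynomial.aeval_X]
      simp
    rw [h2] at ha
    exact ha
  have hr : R.eval 1 ≠ 0 := by
    intro h0
    exact hR1 (Polynomial.dvd_iff_isRoot.2 h0)
  obtain ⟨S, hS⟩ := Polynomial.X_sub_C_dvd_sub_C_eval (a := (1 : ℤ)) (p := R)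
  obtain ⟨E, F, hEF, hbF, hbE, hTF⟩ := h b hb
  have hTF' : ∀ x ∈ F, T x ∈ F := by
    intro x hx
    have h2 := F.add_mem (hEF (hTF x hx)) hx
    have h3 : (T - 1) x + x = T x := by
      have h4 := end_add (T - 1) 1 x
      rw [sub_add_cancel] at h4
      exact h4.symm
    rwa [h3] at h2
  have hSF : ∀ S : Polynomial ℤ, ∀ x ∈ F, Polynomial.aeval T S x ∈ F := by
    intro S
    induction S using Polynomial.induction_on' with
    | add p q hp hq =>
      intro x hx
      rw [map_add, end_add]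
      exact F.add_mem (hp x hx) (hq x hx)
    | monomial n c =>
      intro x hx
      rw [Polynomial.aeval_monomial]
      have h4 : ∀ n : ℕ, (T ^ n) x ∈ F := by
        intro n
        induction n with
        | zero => simpa using hx
        | succ k ih =>
          rw [pow_succ']
          exact hTF' _ ih
      have h5 : (algebraMap ℤ (AddMonoid.End V) c * T ^ n) x = c • (T ^ n) x := by
        simp
      rw [h5]
      exact F.zsmul_mem (h4 n) c
  have h6 : (R.eval 1) • b = - (T - 1) (Polynomial.aeval T S b) := by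
    have h7 : R = (Polynomial.X - Polynomial.C 1) * S + Polynomial.C (R.eval 1) := by
      rw [← hS]; ring
    have h8 : Polynomial.aeval T R = (T - 1) * Polynomial.aeval T S +
        algebraMap ℤ (AddMonoid.End V) (R.eval 1) := by
      conv_lhs => rw [h7]
      rw [map_add, map_mul, map_sub, Polynomial.aeval_X, Polynomial.aeval_C, Polynomial.aeval_C]
      simp
    rw [h8, end_add] at h1
    have h9 : (algebraMap ℤ (AddMonoid.End V) (R.eval 1)) b = (R.eval 1) • b := by simp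
    rw [h9] at h1
    exact (eq_neg_of_add_eq_zero_right h1)
  apply hbE _ hr
  rw [h6]
  exact E.neg_mem (hTF _ (hSF S b hbF))

end poly

section root

variable {Γ : Type u} [CommGroup Γ]

theorem common_root_aux (htf : ∀ (x : Γ) (n : ℕ), n ≠ 0 → x ^ n = 1 → x = 1) {t x : Γ} {k : ℕ}
    (hk : k ≠ 0) {j : ℤ} (h : x ^ k = t ^ j) :
    ∃ s : Γ, (∃ i : ℤ, t = s ^ i) ∧ ∃ i : ℤ, x = s ^ i := by
  set d := Int.gcd k j with hd
  have hd0 : d ≠ 0 := by
    intro h0
    rw [hd, Int.gcd_eq_zero_iff] at h0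
    exact hk (by exact_mod_cast h0.1)
  obtain ⟨k', hk'⟩ : (d : ℤ) ∣ k := Int.gcd_dvd_left ..
  obtain ⟨j', hj'⟩ : (d : ℤ) ∣ j := Int.gcd_dvd_right ..
  have hb := Int.gcd_eq_gcd_ab k j
  rw [← hd] at hb
  set u := Int.gcdA k j
  set v := Int.gcdB k j
  have h1 : k' * u + j' * v = 1 := by
    have : (d : ℤ) * (k' * u + j' * v) = d * 1 := by
      rw [mul_one]
      conv_rhs => rw [hb]
      conv_rhs => rw [hk', hj']
      ring
    exact mul_left_cancel₀ (by exact_mod_cast hd0) this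
  have h2 : x ^ k' = t ^ j' := by
    have h3 : (x ^ k' * (t ^ j')⁻¹) ^ d = 1 := by
      rw [mul_pow, inv_pow, ← zpow_natCast, ← zpow_natCast, ← zpow_mul, ← zpow_mul, mul_comm k',
        mul_comm j', ← hk', ← hj', zpow_natCast, h, mul_inv_cancel]
    exact mul_inv_eq_one.1 (htf _ _ hd0 h3)
  refine ⟨t ^ u * x ^ v, ⟨k', ?_⟩, ⟨j', ?_⟩⟩
  · rw [mul_zpow, ← zpow_mul, ← zpow_mul, mul_comm v k', zpow_mul x, h2, ← zpow_mul, ← zpow_add]
    have : u * k' + j' * v = 1 := by rw [mul_comm u]; exact h1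
    rw [this, zpow_one]
  · rw [mul_zpow, ← zpow_mul, ← zpow_mul, mul_comm u j', zpow_mul t, ← h2, ← zpow_mul, ← zpow_add]
    have : k' * u + v * j' = 1 := by rw [mul_comm v]; exact h1
    rw [this, zpow_one]

theorem common_root (htf : ∀ (x : Γ) (n : ℕ), n ≠ 0 → x ^ n = 1 → x = 1) {f : Γ}
    (hr : ∀ x : Γ, ∃ k : ℕ, k ≠ 0 ∧ ∃ i : ℤ, x ^ k = f ^ i) (s : Finset Γ) :
    ∃ t : Γ, (∃ i : ℤ, f = t ^ i) ∧ ∀ x ∈ s, ∃ i : ℤ, x = t ^ i := by
  classical
  induction s using Finset.induction_on with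
  | empty => exact ⟨f, ⟨1, by simp⟩, by simp⟩
  | insert x s _ ih =>
    obtain ⟨t, ⟨i0, h0⟩, h1⟩ := ih
    obtain ⟨k, hk, i, h2⟩ := hr x
    rw [h0, ← zpow_mul] at h2
    obtain ⟨r, ⟨i1, h3⟩, ⟨i2, h4⟩⟩ := common_root_aux htf hk h2
    refine ⟨r, ⟨i1 * i0, by rw [zpow_mul, ← h3, ← h0]⟩, ?_⟩
    intro y hy
    rcases Finset.mem_insert.1 hy with rfl | hy
    · exact ⟨i2, h4⟩
    · obtain ⟨j, hj⟩ := h1 y hy
      exact ⟨i1 * j, by rw [zpow_mul, ← h3, ← hj]⟩

theorem common_root' (htf : ∀ (x : Γ) (n : ℕ), n ≠ 0 → x ^ n = 1 → x = 1) {f : Γ}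
    (hr : ∀ x : Γ, ∃ k : ℕ, k ≠ 0 ∧ ∃ i : ℤ, x ^ k = f ^ i) (s : Finset Γ) :
    ∃ t : Γ, (∃ i : ℕ, f = t ^ i) ∧ ∀ x ∈ s, ∃ i : ℤ, x = t ^ i := by
  obtain ⟨t, ⟨i0, h0⟩, h1⟩ := common_root htf hr s
  rcases Int.natAbs_eq i0 with h2 | h2
  · exact ⟨t, ⟨i0.natAbs, by rw [← zpow_natCast, ← h2, h0]⟩, h1⟩
  · refine ⟨t⁻¹, ⟨i0.natAbs, ?_⟩, ?_⟩
    · rw [inv_pow, ← zpow_natCast, ← zpow_neg, ← h2, h0]
    · intro x hx
      obtain ⟨i, hi⟩ := h1 x hx
      exact ⟨-i, by rw [inv_zpow', neg_neg, hi]⟩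

/-- A positive character which is injective and takes the value 3 at `f`. -/
theorem exists_char (htf : ∀ (x : Γ) (n : ℕ), n ≠ 0 → x ^ n = 1 → x = 1) {f : Γ} (hf : f ≠ 1)
    (hr : ∀ x : Γ, ∃ k : ℕ, k ≠ 0 ∧ ∃ i : ℤ, x ^ k = f ^ i) :
    ∃ χ : Γ →* ℝ, (∀ x, 0 < χ x) ∧ χ f = 3 ∧ ∀ x, χ x = 1 → x = 1 := by
  choose k hk i hi using hr
  have hinj : ∀ i j : ℤ, f ^ i = f ^ j → i = j := by
    intro i j hij
    by_contra hne
    have h1 : f ^ (i - j) = 1 := by rw [zpow_sub, hij, mul_inv_cancel]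
    have h2 : f ^ (i - j).natAbs = 1 := by
      rcases Int.natAbs_eq (i - j) with h3 | h3
      · rw [← zpow_natCast, ← h3, h1]
      · rw [h3, zpow_neg, zpow_natCast, inv_eq_one] at h1
        exact h1
    exact hf (htf f _ (by omega) h2)
  set χ : Γ → ℝ := fun x => (3 : ℝ) ^ ((i x : ℝ) / (k x : ℝ)) with hχ
  have key : ∀ (x : Γ) (l : ℕ) (j : ℤ), l ≠ 0 → x ^ l = f ^ j →
      χ x = (3 : ℝ) ^ ((j : ℝ) / (l : ℝ)) := by
    intro x l j hl h
    have h1 : f ^ (i x * l) = f ^ (j * k x) := by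
      rw [zpow_mul, ← hi, zpow_mul, ← h]
      simp only [zpow_natCast]
      rw [← pow_mul, ← pow_mul, mul_comm]
    have h2 := hinj _ _ h1
    have h3 : (i x : ℝ) * l = j * k x := by exact_mod_cast h2
    have h4 : (i x : ℝ) / (k x : ℝ) = (j : ℝ) / (l : ℝ) := by
      rw [div_eq_div_iff (by exact_mod_cast hk x) (by exact_mod_cast hl), h3]
    rw [hχ]
    simp only [h4]
  refine ⟨{ toFun := χ, map_one' := ?_, map_mul' := ?_ }, ?_, ?_, ?_⟩
  · rw [key 1 1 0 one_ne_zero (by simp)]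
    simp
  · intro x y
    rw [key (x * y) (k x * k y) (i x * k y + i y * k x) (mul_ne_zero (hk x) (hk y))]
    · rw [hχ]
      simp only
      rw [← Real.rpow_add (by norm_num)]
      congr 1
      have h1 : (k x : ℝ) ≠ 0 := by exact_mod_cast hk x
      have h2 : (k y : ℝ) ≠ 0 := by exact_mod_cast hk y
      push_cast
      field_simp
    · rw [mul_pow, zpow_add, zpow_mul, zpow_mul, ← hi, ← hi]
      simp only [zpow_natCast]
      rw [← pow_mul, ← pow_mul, mul_comm (k y)]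
  · intro x
    exact Real.rpow_pos_of_pos (by norm_num) _
  · show χ f = 3
    rw [key f 1 1 one_ne_zero (by simp)]
    simp
  · intro x hx
    have h1 : (3 : ℝ) ^ ((i x : ℝ) / (k x : ℝ)) = 1 := hx
    have h0 := congrArg Real.log h1
    rw [Real.log_rpow (by norm_num), Real.log_one, mul_eq_zero] at h0
    have h0' : (i x : ℝ) / (k x : ℝ) = 0 :=
      h0.resolve_right (Real.log_pos (by norm_num)).ne'
    rw [div_eq_zero_iff] at h0'
    clear h1
    have h1 := h0'
    rcases h1 with h1 | h1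
    · have h2 : i x = 0 := by exact_mod_cast h1
      have h3 := hi x
      rw [h2, zpow_zero] at h3
      exact htf x _ (hk x) h3
    · exact absurd (by exact_mod_cast h1) (hk x)

end root

section torsion

variable {Γ : Type u} [CommGroup Γ] {V : Type v} [AddCommGroup V] (τ : Γ →* AddMonoid.End V)

/-- the action of the group ring -/
noncomputable def act : MonoidAlgebra ℤ Γ →ₐ[ℤ] AddMonoid.End V :=
  MonoidAlgebra.lift ℤ (AddMonoid.End V) Γ τ

/-- the evaluation -/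
noncomputable def ev (χ : Γ →* ℝ) : MonoidAlgebra ℤ Γ →ₐ[ℤ] ℝ :=
  MonoidAlgebra.lift ℤ ℝ Γ χ

theorem torsion_nilp (hlev : ∀ t : Γ, Levels (τ t))
    (htf : ∀ (x : Γ) (n : ℕ), n ≠ 0 → x ^ n = 1 → x = 1) {f : Γ}
    (hr : ∀ x : Γ, ∃ k : ℕ, k ≠ 0 ∧ ∃ i : ℤ, x ^ k = f ^ i) {χ : Γ →* ℝ} (hχ : ∀ x, 0 < χ x)
    {p : MonoidAlgebra ℤ Γ} (hp : ev χ p ≠ 0) {a : V} (ha : act τ p a = 0) :
    ∃ m : ℕ, ((τ f - 1) ^ m) a = 0 := by
  classical
  obtain ⟨t, ⟨n, hn⟩, ht⟩ := common_root' htf hr p.coeff.support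
  have ht' : ∀ x : Γ, ∃ i : ℤ, x ∈ p.coeff.support → x = t ^ i := by
    intro x
    by_cases hx : x ∈ p.coeff.support
    · obtain ⟨i, hi⟩ := ht x hx
      exact ⟨i, fun _ => hi⟩
    · exact ⟨0, fun h => absurd h hx⟩
  choose e he using ht'
  set N : ℕ := ∑ x ∈ p.coeff.support, (e x).natAbs with hN
  have hNle : ∀ x ∈ p.coeff.support, (e x).natAbs ≤ N := fun x hx =>
    Finset.single_le_sum (f := fun x => (e x).natAbs) (fun _ _ => Nat.zero_le _) hx
  set P : Polynomial ℤ := ∑ x ∈ p.coeff.support,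
    Polynomial.monomial (e x + N).toNat (p.coeff x) with hPdef
  have hexp : ∀ x ∈ p.coeff.support, t ^ (e x + N).toNat = t ^ N * x := by
    intro x hx
    have h1 := hNle x hx
    have h2 : (((e x + N).toNat : ℕ) : ℤ) = e x + N := by omega
    rw [← zpow_natCast, h2, zpow_add, ← he x hx, mul_comm, zpow_natCast]
  have hPact : Polynomial.aeval (τ t) P = τ t ^ N * act τ p := by
    rw [hPdef, map_sum, act, MonoidAlgebra.lift_apply, Finsupp.sum, Finset.mul_sum]
    apply Finset.sum_congr rfl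
    intro x hx
    rw [Polynomial.aeval_monomial, ← map_pow, hexp x hx, map_mul, map_pow]
    simp only [algebraMap_int_eq, eq_intCast, zsmul_eq_mul]
    exact (Int.cast_commute _ _).left_comm _
  have hPev : Polynomial.aeval (χ t) P = χ t ^ N * ev χ p := by
    rw [hPdef, map_sum, ev, MonoidAlgebra.lift_apply, Finsupp.sum, Finset.mul_sum]
    apply Finset.sum_congr rfl
    intro x hx
    rw [Polynomial.aeval_monomial, ← map_pow, hexp x hx, map_mul, map_pow]
    simp only [zsmul_eq_mul, algebraMap_int_eq, eq_intCast]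
    ring
  have hP0 : P ≠ 0 := by
    intro h0
    rw [h0, map_zero] at hPev
    exact (mul_ne_zero (pow_ne_zero _ (hχ t).ne') hp) hPev.symm
  obtain ⟨m, hm⟩ := (hlev t).poly P hP0 (a := a) (by
    rw [hPact]
    show (τ t ^ N) (act τ p a) = 0
    rw [ha, map_zero])
  refine ⟨m, ?_⟩
  have h1 : (τ f - 1) ^ m = (∑ i ∈ Finset.range n, τ t ^ i) ^ m * (τ t - 1) ^ m := by
    rw [← Commute.mul_pow, geom_sum_mul, ← map_pow, ← hn]
    apply Commute.sum_left
    intro i _
    exact ((Commute.refl (τ t)).pow_left i).sub_right (Commute.one_right _)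
  rw [h1]
  show ((∑ i ∈ Finset.range n, τ t ^ i) ^ m) (((τ t - 1) ^ m) a) = 0
  rw [hm, map_zero]

end torsion

end Pool.Agent.Lib.MP_7217b8_al
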