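import Pool.Agent.Lib.MP_7217b8_al_h23.TFN
import Pool.Agent.Lib.MP_7217b8_al_h23.Torsion

/-!
# The rank one by abelian case
-/

set_option linter.unusedSectionVars false
set_option linter.style.haveILetI false

namespace Pool.Agent.Lib.MP_7217b8_al

universe u v w

/-- An extension of a commutative group by an abelian group, with additive kernel. -/
structure Ext (H : Type u) (Γ : Type v) (V : Type w) [Group H] [CommGroup Γ]
    [AddCommGroup V] where
  π : H →* Γ
  surj : Function.Surjective π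
  j : V → H
  j_add : ∀ v w, j (v + w) = j v * j w
  j_inj : Function.Injective j
  j_ker : ∀ v, π (j v) = 1
  ker_j : ∀ h, π h = 1 → ∃ v, j v = h
  τ : Γ →* AddMonoid.End V
  act : ∀ h v, j (τ (π h) v) = h * j v * h⁻¹

namespace Ext

section basic

variable {H : Type u} {Γ : Type v} {V : Type w} [Group H] [CommGroup Γ] [AddCommGroup V]
  (X : Ext H Γ V)

theorem j_zero : X.j 0 = 1 := by
  have := X.j_add 0 0
  rw [add_zero] at this
  exact (mul_eq_left (a := X.j 0)).1 this.symm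

theorem j_neg (v : V) : X.j (-v) = (X.j v)⁻¹ := by
  rw [eq_inv_iff_mul_eq_one, ← X.j_add, neg_add_cancel, X.j_zero]

theorem j_nsmul (n : ℕ) (v : V) : X.j (n • v) = X.j v ^ n := by
  induction n with
  | zero => simp [X.j_zero]
  | succ k ih => rw [succ_nsmul, X.j_add, ih, pow_succ]

theorem j_zsmul (n : ℤ) (v : V) : X.j (n • v) = X.j v ^ n := by
  cases n with
  | ofNat n => simp [X.j_nsmul]
  | negSucc n => rw [negSucc_zsmul, X.j_neg, X.j_nsmul, zpow_negSucc]

theorem j_sub_one (h : H) (v : V) :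
    X.j ((X.τ (X.π h) - 1) v) = h * X.j v * h⁻¹ * (X.j v)⁻¹ := by
  have h1 := end_add (X.τ (X.π h) - 1) 1 v
  rw [sub_add_cancel] at h1
  have h2 : (X.τ (X.π h) - 1) v = X.τ (X.π h) v + (-v) := by
    rw [h1]
    show _ = (X.τ (X.π h) - 1) v + v + -v
    rw [add_neg_cancel_right]
  rw [h2, X.j_add, X.j_neg, X.act]

end basic

section order

variable {H : Type u} {Γ : Type v} {V : Type w} [Group H] [CommGroup Γ] [AddCommGroup V]
  [LinearOrder H] [MulLeftMono H] [MulRightMono H] (X : Ext H Γ V)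

theorem levels (hc : Ctl H) (t : Γ) : Levels (X.τ t) := by
  intro b hb
  have hjb : X.j b ≠ 1 := by
    intro h
    apply hb
    apply X.j_inj
    rw [h, X.j_zero]
  have hex : ∃ g : H, 1 < g ∧ (g = X.j b ∨ g = (X.j b)⁻¹) := by
    rcases lt_or_gt_of_ne hjb with h | h
    · exact ⟨_, Left.one_lt_inv_iff.2 h, Or.inr rfl⟩
    · exact ⟨_, h, Or.inl rfl⟩
  obtain ⟨g, hg, hgb⟩ := hex
  refine ⟨{ carrier := {v | X.j v ∈ Em g hg}, add_mem' := ?_, zero_mem' := ?_, neg_mem' := ?_ },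
    { carrier := {v | X.j v ∈ Ep g hg}, add_mem' := ?_, zero_mem' := ?_, neg_mem' := ?_ },
    ?_, ?_, ?_, ?_⟩
  · intro v w hv hw
    show X.j (v + w) ∈ Em g hg
    rw [X.j_add]; exact (Em g hg).mul_mem hv hw
  · show X.j 0 ∈ Em g hg
    rw [X.j_zero]; exact (Em g hg).one_mem
  · intro v hv
    show X.j (-v) ∈ Em g hg
    rw [X.j_neg]; exact (Em g hg).inv_mem hv
  · intro v w hv hw
    show X.j (v + w) ∈ Ep g hg
    rw [X.j_add]; exact (Ep g hg).mul_mem hv hw
  · show X.j 0 ∈ Ep g hg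
    rw [X.j_zero]; exact (Ep g hg).one_mem
  · intro v hv
    show X.j (-v) ∈ Ep g hg
    rw [X.j_neg]; exact (Ep g hg).inv_mem hv
  · intro v hv
    exact Em_le_Ep hg hv
  · show X.j b ∈ Ep g hg
    have h1 := self_mem_Ep hg
    rcases hgb with h2 | h2
    · rw [← h2]; exact h1
    · have : X.j b = g⁻¹ := by rw [h2, inv_inv]
      rw [this]; exact (Ep g hg).inv_mem h1
  · intro n hn h1
    have h1' : X.j b ^ n ∈ Em g hg := by
      have : X.j (n • b) ∈ Em g hg := h1
      rwa [X.j_zsmul] at this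
    have h2 : g ^ n ∈ Em g hg := by
      rcases hgb with h2 | h2
      · have : ∀ y : H, y = X.j b → y ^ n ∈ Em g hg := fun y hy => by rw [hy]; exact h1'
        exact this _ h2
      · have : ∀ y : H, y = (X.j b)⁻¹ → y ^ n ∈ Em g hg := fun y hy => by
          rw [hy, inv_zpow]; exact (Em g hg).inv_mem h1'
        exact this _ h2
    apply pow_notMem_Em hg (n := n.natAbs) (by omega)
    rcases Int.natAbs_eq n with h3 | h3
    · rw [← zpow_natCast, ← h3]; exact h2
    · have h4 := (Em g hg).inv_mem h2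
      rw [← zpow_neg] at h4
      have h5 : -n = (n.natAbs : ℤ) := by omega
      rw [h5, zpow_natCast] at h4
      exact h4
  · intro x hx
    obtain ⟨h, rfl⟩ := X.surj t
    show X.j ((X.τ (X.π h) - 1) x) ∈ Em g hg
    rw [X.j_sub_one]
    exact ctl_comm_mem hc hg hx h

end order

section main

variable {H : Type u} {Γ : Type v} {V : Type w} [Group H] [CommGroup Γ] [AddCommGroup V]

theorem main (X : Ext H Γ V) (hX : InX H)
    (htf : ∀ (x : Γ) (n : ℕ), n ≠ 0 → x ^ n = 1 → x = 1) {f : H}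
    (hr : ∀ x : Γ, ∃ k : ℕ, k ≠ 0 ∧ ∃ i : ℤ, x ^ k = X.π f ^ i) (a : V) :
    ∃ m : ℕ, ((X.τ (X.π f) - 1) ^ m) a = 0 := by
  by_cases hf : X.π f = 1
  · refine ⟨1, ?_⟩
    rw [hf, map_one, sub_self, pow_one]
    rfl
  obtain ⟨P, hP⟩ := hX.bi
  letI := hP.linearOrder
  haveI := hP.mulLeftMono
  haveI := hP.mulRightMono
  have hctl : Ctl H := fun f g hg => Pool.Agent.Lib.MP_7217b8_al.conj_lt_sq hX.conrad f g hg
  obtain ⟨χ, hχ, hχf, hχ1⟩ := exists_char htf hf hr
  by_contra hcon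
  set Λ : Set (AddMonoid.End V) := {q | ∃ p, 0 < ev χ p ∧ Pool.Agent.Lib.MP_7217b8_al.act X.τ p = q} with hΛ
  have hΛ1 : (1 : AddMonoid.End V) ∈ Λ := ⟨1, by simp, by simp⟩
  have hΛadd : ∀ p ∈ Λ, ∀ q ∈ Λ, p + q ∈ Λ := by
    rintro _ ⟨p, hp, rfl⟩ _ ⟨q, hq, rfl⟩
    exact ⟨p + q, by rw [map_add]; exact add_pos hp hq, by rw [map_add]⟩
  have hΛmul : ∀ p ∈ Λ, ∀ q ∈ Λ, p * q ∈ Λ := by
    rintro _ ⟨p, hp, rfl⟩ _ ⟨q, hq, rfl⟩
    exact ⟨p * q, by rw [map_mul]; exact mul_pos hp hq, by rw [map_mul]⟩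
  have hΛcomm : ∀ p ∈ Λ, ∀ q ∈ Λ, p * q = q * p := by
    rintro _ ⟨p, hp, rfl⟩ _ ⟨q, hq, rfl⟩
    rw [← map_mul, mul_comm, map_mul]
  have hΛτ : ∀ t : Γ, X.τ t ∈ Λ := by
    intro t
    refine ⟨MonoidAlgebra.of ℤ Γ t, ?_, ?_⟩
    · rw [ev, MonoidAlgebra.lift_of]; exact hχ t
    · rw [Pool.Agent.Lib.MP_7217b8_al.act, MonoidAlgebra.lift_of]
  obtain ⟨Q, hQ, hQt⟩ := exists_total_cone Λ hΛ1 hΛadd hΛmul hΛcomm
  set P' : Set H := {x | 1 < χ (X.π x) ∨ (∃ v ∈ Q, X.j v = x) ∨
    (1 < x ∧ ∃ v, X.j v = x ∧ ∃ q ∈ Λ, q v = 0)} with hP'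
  have hker : ∀ v, χ (X.π (X.j v)) = 1 := fun v => by rw [X.j_ker, map_one]
  have hQT : ∀ v ∈ Q, ∀ q ∈ Λ, q v ≠ 0 := fun v hv q hq => hQ.ne v hv q hq
  have hadd : ∀ v ∈ Q, ∀ w, (∃ q ∈ Λ, q w = 0) → v + w ∈ Q := fun v hv w hw =>
    hQ.add_torsion hΛmul hΛcomm hQt hv hw
  have hbi : IsBiCone P' := by
    refine ⟨⟨?_, ?_, ?_⟩, ?_⟩
    · rintro x hx y hy
      show 1 < χ (X.π (x * y)) ∨ _
      rw [map_mul, map_mul]
      rcases hx with hx | hx
      · left
        rcases hy with hy | ⟨v, hv, rfl⟩ | ⟨hy, v, rfl, _⟩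
        · exact one_lt_mul_of_lt_of_le hx hy.le
        · rw [hker, mul_one]; exact hx
        · rw [hker, mul_one]; exact hx
      · rcases hy with hy | hy
        · left
          rcases hx with ⟨v, hv, rfl⟩ | ⟨hx, v, rfl, _⟩
          · rw [hker, one_mul]; exact hy
          · rw [hker, one_mul]; exact hy
        · right
          rcases hx with ⟨v, hv, rfl⟩ | ⟨hx, v, rfl, q, hq, hqv⟩
          · left
            rcases hy with ⟨w, hw, rfl⟩ | ⟨hy, w, rfl, hT⟩
            · exact ⟨v + w, hQ.add v hv w hw, X.j_add v w⟩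
            · exact ⟨v + w, hadd v hv w hT, X.j_add v w⟩
          · rcases hy with ⟨w, hw, rfl⟩ | ⟨hy, w, rfl, r, hr, hrw⟩
            · left
              refine ⟨w + v, hadd w hw v ⟨q, hq, hqv⟩, ?_⟩
              rw [add_comm, X.j_add]
            · right
              refine ⟨one_lt_mul'' hx hy, v + w, X.j_add v w, q * r, hΛmul q hq r hr, ?_⟩
              rw [map_add]
              have h1 : (q * r) w = 0 := by
                show q (r w) = 0
                rw [hrw, map_zero]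
              have h2 : (q * r) v = 0 := by
                rw [hΛcomm q hq r hr]
                show r (q v) = 0
                rw [hqv, map_zero]
              rw [h1, h2, add_zero]
    · rintro x hx hx'
      have hinv : χ (X.π x⁻¹) = (χ (X.π x))⁻¹ := by
        rw [map_inv]
        refine eq_inv_of_mul_eq_one_left ?_
        rw [← map_mul, inv_mul_cancel, map_one]
      rcases hx with hx | hx
      · have h1 : χ (X.π x⁻¹) < 1 := by
          rw [hinv]; exact inv_lt_one_of_one_lt₀ hx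
        rcases hx' with hx' | ⟨v, hv, he⟩ | ⟨_, v, he, _⟩
        · exact lt_asymm h1 hx'
        · rw [← he, hker] at h1; exact lt_irrefl _ h1
        · rw [← he, hker] at h1; exact lt_irrefl _ h1
      · have hx1 : ∃ v, X.j v = x := by
          rcases hx with ⟨v, _, he⟩ | ⟨_, v, he, _⟩
          · exact ⟨v, he⟩
          · exact ⟨v, he⟩
        obtain ⟨v, rfl⟩ := hx1
        have hvQ : v ∈ Q ∨ (1 < X.j v ∧ ∃ q ∈ Λ, q v = 0) := by
          rcases hx with ⟨w, hw, he⟩ | ⟨h1, w, he, hT⟩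
          · rw [X.j_inj he] at hw; exact Or.inl hw
          · rw [X.j_inj he] at hT; exact Or.inr ⟨h1, hT⟩
        have hvQ' : -v ∈ Q ∨ (1 < (X.j v)⁻¹ ∧ ∃ q ∈ Λ, q v = 0) := by
          rcases hx' with h1 | ⟨w, hw, he⟩ | ⟨h1, w, he, q, hq, hT⟩
          · rw [hinv, hker, inv_one] at h1; exact absurd h1 (lt_irrefl _)
          · rw [← X.j_neg] at he
            rw [X.j_inj he] at hw; exact Or.inl hw
          · rw [← X.j_neg] at he
            rw [X.j_inj he, map_neg, neg_eq_zero] at hT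
            exact Or.inr ⟨h1, q, hq, hT⟩
        rcases hvQ with h1 | ⟨h1, q, hq, h2⟩
        · rcases hvQ' with h3 | ⟨h3, q, hq, h4⟩
          · exact hQ.neg_notMem hΛ1 h1 h3
          · exact hQT v h1 q hq h4
        · rcases hvQ' with h3 | ⟨h3, _⟩
          · exact hQT _ h3 q hq (by rw [map_neg, h2, neg_zero])
          · exact lt_asymm h1 (Left.one_lt_inv_iff.1 h3)
    · intro x hx
      by_cases h1 : X.π x = 1
      · obtain ⟨v, rfl⟩ := X.ker_j x h1
        rcases hQt v with h2 | h2 | ⟨q, hq, h2⟩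
        · exact Or.inl (Or.inr (Or.inl ⟨v, h2, rfl⟩))
        · exact Or.inr (Or.inr (Or.inl ⟨-v, h2, X.j_neg v⟩))
        · rcases lt_or_gt_of_ne hx with h3 | h3
          · right; right; right
            exact ⟨Left.one_lt_inv_iff.2 h3, -v, X.j_neg v, q, hq, by rw [map_neg, h2, neg_zero]⟩
          · left; right; right
            exact ⟨h3, v, rfl, q, hq, h2⟩
      · have h2 : χ (X.π x) ≠ 1 := fun h => h1 (hχ1 _ h)
        rcases lt_or_gt_of_ne h2 with h3 | h3
        · right; left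
          rw [map_inv]
          have : χ (X.π x)⁻¹ = (χ (X.π x))⁻¹ := by
            refine eq_inv_of_mul_eq_one_left ?_
            rw [← map_mul, inv_mul_cancel, map_one]
          rw [this]
          exact (one_lt_inv₀ (hχ _)).2 h3
        · exact Or.inl (Or.inl h3)
    · rintro x (hx | ⟨v, hv, rfl⟩ | ⟨hx, v, rfl, q, hq, hqv⟩) g
      · left
        have h1 : X.π (g * x * g⁻¹) = X.π x := by
          rw [map_mul, map_mul, map_inv, mul_comm (X.π g), mul_inv_cancel_right]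
        rw [h1]
        exact hx
      · right; left
        exact ⟨X.τ (X.π g) v, hQ.act _ (hΛτ _) v hv, X.act g v⟩
      · right; right
        refine ⟨?_, X.τ (X.π g) v, X.act g v, q, hq, ?_⟩
        · have := conj_lt hx g
          simpa using this
        · show (q * X.τ (X.π g)) v = 0
          rw [hΛcomm q hq _ (hΛτ _)]
          show X.τ (X.π g) (q v) = 0
          rw [hqv, map_zero]
  have hnt : ∀ q ∈ Λ, q a ≠ 0 := by
    rintro _ ⟨p, hp, rfl⟩ h0
    exact hcon (torsion_nilp X.τ (X.levels hctl) htf hr hχ hp.ne' h0)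
  have hb : ∃ b : V, b ∈ Q := by
    rcases hQt a with h1 | h1 | ⟨q, hq, h1⟩
    · exact ⟨a, h1⟩
    · exact ⟨-a, h1⟩
    · exact absurd h1 (hnt q hq)
  obtain ⟨b, hb⟩ := hb
  apply IsBiCone.conj_lt_sq hbi hX.conrad f (X.j b) (Or.inr (Or.inl ⟨b, hb, rfl⟩))
  right; left
  refine ⟨(X.τ (X.π f) - 2) b, hQ.act _ ?_ b hb, ?_⟩
  · refine ⟨MonoidAlgebra.of ℤ Γ (X.π f) - 2, ?_, ?_⟩
    · rw [map_sub, ev, MonoidAlgebra.lift_of, hχf, map_ofNat]
      norm_num
    · rw [map_sub, Pool.Agent.Lib.MP_7217b8_al.act, MonoidAlgebra.lift_of, map_ofNat]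
  · have h1 := end_add (X.τ (X.π f) - 2) 2 b
    rw [sub_add_cancel] at h1
    have h2 : (2 : AddMonoid.End V) b = b + b := by
      have : (2 : AddMonoid.End V) = 1 + 1 := one_add_one_eq_two.symm
      rw [this, end_add]
      rfl
    rw [h2] at h1
    have h3 : X.j (X.τ (X.π f) b) = X.j ((X.τ (X.π f) - 2) b) * (X.j b * X.j b) := by
      rw [h1, X.j_add, X.j_add]
    rw [X.act] at h3
    rw [h3]
    group

end main

end Ext

end Pool.Agent.Lib.MP_7217b8_al
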